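import Mathlib
import Pool.Agent.R389.Brauer
import Pool.Agent.R389.Compl
import Pool.Agent.H254R3.IN.NonVan2

/-!
Integrality of the inner products over the `p`-regular elements.
-/

set_option autoImplicit false

open scoped BigOperators

namespace Pool.Agent.N20

open Pool.Agent.R389 Pool.Agent.H541R3.ART Pool.Agent.W446.AS

/-- the `p`-regular elements of a finite nilpotent group form a subgroup of `p`-power index -/
lemma preg_sub {V : Type} [Group V] [Finite V] (hV : Group.IsNilpotent V) {p : ℕ}
    (hp : p.Prime) :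
    ∃ (H : Subgroup V) (k : ℕ), (∀ v, v ∈ H ↔ ¬ p ∣ orderOf v) ∧
      Nat.card V = p ^ k * Nat.card H := by
  by_cases hpV : p ∣ Nat.card V
  · have hfac : p ∈ (Nat.card V).primeFactors :=
      Nat.mem_primeFactors.mpr ⟨hp, hpV, Nat.card_pos.ne'⟩
    obtain ⟨e⟩ := ((Group.isNilpotent_of_finite_tfae (G := V)).out 0 4).mp hV
    have hexp : ∀ (q : (Nat.card V).primeFactors) (P : Sylow q V) (x : P),
        x ^ ((q : ℕ) ^ (Nat.card V).factorization q) = 1 := by
      intro q P x
      have hq : Fact (q : ℕ).Prime := ⟨(Nat.mem_primeFactors.mp q.2).1⟩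
      have h1 : Nat.card P = (q : ℕ) ^ (Nat.card V).factorization q := P.card_eq_multiplicity
      rw [← h1]
      exact pow_card_eq_one'
    let P₀ : (Nat.card V).primeFactors := ⟨p, hfac⟩
    let π : V →* (∀ P : Sylow P₀ V, P) := (Pi.evalMonoidHom _ P₀).comp e.symm.toMonoidHom
    have hπ : ∀ v : V, (π v) ^ (p ^ (Nat.card V).factorization p) = 1 := by
      intro v
      funext P
      exact hexp P₀ P _
    have hmem : ∀ v, v ∈ π.ker ↔ ¬ p ∣ orderOf v := by
      intro v
      constructor
      · intro hv hdvd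
        set w := v ^ (orderOf v / p) with hw
        have how : orderOf w = p := by
          rw [hw, orderOf_pow_orderOf_div (orderOf_pos v).ne' hdvd]
        have hwk : w ∈ π.ker := Subgroup.pow_mem _ hv _
        have hw1 : e.symm w = 1 := by
          funext q P
          by_cases hqp : q = P₀
          · subst hqp
            exact congrFun (MonoidHom.mem_ker.mp hwk) P
          · have h1 : (e.symm w q P) ^ p = 1 := by
              have h2 : (e.symm w) ^ p = 1 := by
                rw [← map_pow, ← how, pow_orderOf_eq_one, map_one]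
              exact congrFun (congrFun h2 q) P
            have h2 := hexp q P (e.symm w q P)
            have hcop : Nat.Coprime p ((q : ℕ) ^ (Nat.card V).factorization q) := by
              apply Nat.Coprime.pow_right
              rw [Nat.coprime_primes hp (Nat.mem_primeFactors.mp q.2).1]
              intro h3
              exact hqp (Subtype.ext h3.symm)
            have h3 := pow_gcd_eq_one.mpr ⟨h1, h2⟩
            rw [hcop, pow_one] at h3
            exact h3
        have hw2 : w = 1 := by
          have := congrArg e hw1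
          simpa using this
        rw [hw2, orderOf_one] at how
        exact hp.one_lt.ne how
      · intro hv
        rw [MonoidHom.mem_ker]
        have h1 : (π v) ^ orderOf v = 1 := by
          rw [← map_pow, pow_orderOf_eq_one, map_one]
        have h2 := hπ v
        have hcop : Nat.Coprime (orderOf v) (p ^ (Nat.card V).factorization p) :=
          Nat.Coprime.pow_right _ ((Nat.Prime.coprime_iff_not_dvd hp).mpr hv).symm
        have h3 := pow_gcd_eq_one.mpr ⟨h1, h2⟩
        rw [hcop, pow_one] at h3
        exact h3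
    have hP : IsPGroup p π.range := by
      rintro ⟨_, v, rfl⟩
      exact ⟨(Nat.card V).factorization p, Subtype.ext (hπ v)⟩
    have hpf : Fact p.Prime := ⟨hp⟩
    obtain ⟨k, hk⟩ := IsPGroup.iff_card.mp hP
    refine ⟨π.ker, k, hmem, ?_⟩
    rw [← hk, ← Subgroup.index_ker π, mul_comm]
    exact (Subgroup.card_mul_index π.ker).symm
  · refine ⟨⊤, 0, fun v => ?_, by simp⟩
    simp only [Subgroup.mem_top, true_iff]
    exact fun h => hpV (h.trans (orderOf_dvd_natCard v))

lemma virt_of_irr {G : Type} [Group G] [Finite G] {χ : G → ℂ}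
    (h : Pool.Agent.H254R3.IN.IsIrr χ) : Virt χ := by
  obtain ⟨V, _, _, _, ρ, hr, rfl⟩ := h
  exact AddSubgroup.subset_closure (irr_of_irred ((irred_iff ρ).mpr hr))

lemma virt_tw {G : Type} [Group G] [Finite G] (lam : G →* ℂˣ) {θ : G → ℂ} (hθ : Virt θ) :
    Virt (fun g => θ g * ((lam g : ℂˣ) : ℂ)) := by
  have h1 : AddSubgroup.closure (Irr G) ≤ (AddSubgroup.closure (Irr G)).comap (twHom lam) := by
    rw [AddSubgroup.closure_le]
    intro χ hχ
    exact AddSubgroup.subset_closure (irr_twist hχ lam)
  exact h1 hθ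

/-- Integrality over the `p`-regular elements. -/
theorem reg_int {G : Type} [Group G] [Finite G] {p : ℕ} (hp : p.Prime) {χ ψ : G → ℂ}
    (hχ : Virt χ) (hψ : Virt ψ) {f : G → ℂ} (hf : f ∈ PN G) :
    ∃ n : ℤ, (p : ℂ) ^ (Nat.card G).factorization p *
      pr f (fun g => if p ∣ orderOf g then 0 else ψ g * χ g⁻¹) = n := by
  classical
  have hp0 : (p : ℂ) ≠ 0 := by exact_mod_cast hp.ne_zero
  induction hf using AddSubgroup.closure_induction with
  | mem f hf =>
    obtain ⟨V, lam, hV, rfl⟩ := hf
    have hcl : ∀ g x : G, (fun g => if p ∣ orderOf g then (0 : ℂ) else ψ g * χ g⁻¹)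
        (x * g * x⁻¹) = (fun g => if p ∣ orderOf g then (0 : ℂ) else ψ g * χ g⁻¹) g := by
      intro g x
      have h1 : orderOf (x * g * x⁻¹) = orderOf g := by
        have := orderOf_injective (MulAut.conj x).toMonoidHom (MulAut.conj x).injective g
        simpa using this
      have h2 : (x * g * x⁻¹)⁻¹ = x * g⁻¹ * x⁻¹ := by group
      simp only [h1, h2, hψ.conj, hχ.conj]
    rw [frob V _ hcl]
    obtain ⟨H, k, hH, hk⟩ := preg_sub hV hp
    have : Fintype V := Fintype.ofFinite V
    have : Fintype H := Fintype.ofFinite H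
    have h1 : pr (fun h : V => ((lam h : ℂˣ) : ℂ))
        (fun h : V => if p ∣ orderOf (h : G) then (0 : ℂ) else ψ h * χ (h : G)⁻¹) =
        ((p : ℂ) ^ k)⁻¹ * pr (fun h : H => (χ (h : V)) * ((lam h : ℂˣ) : ℂ))
          (fun h : H => ψ (h : V)) := by
      rw [pr_eq, pr_eq, ← mul_assoc, ← mul_inv]
      have h2 : (Nat.card V : ℂ) = (p : ℂ) ^ k * Nat.card H := by
        rw [hk]; push_cast; ring
      rw [h2]
      congr 1
      have h2' : ∑ h : H, χ (h : V) * ((lam h : ℂˣ) : ℂ) * ψ (((h⁻¹ : H) : V) : G) =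
          ∑ v ∈ Finset.univ.filter (fun v : V => v ∈ H),
            χ v * ((lam v : ℂˣ) : ℂ) * ψ ((v⁻¹ : V) : G) :=
        (Finset.sum_subtype (Finset.univ.filter fun v : V => v ∈ H)
          (fun v => by rw [Finset.mem_filter]; simp)
          (fun v : V => χ v * ((lam v : ℂˣ) : ℂ) * ψ ((v⁻¹ : V) : G))).symm
      rw [h2', Finset.sum_filter]
      refine Finset.sum_congr rfl fun v _ => ?_
      have h3 : orderOf (((v⁻¹ : V)) : G) = orderOf v := by
        rw [Subgroup.coe_inv, orderOf_inv, Subgroup.orderOf_coe]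
      rw [h3]
      by_cases hv : p ∣ orderOf v
      · rw [if_pos hv, if_neg (by rw [hH]; exact not_not.mpr hv), mul_zero]
      · rw [if_neg hv, if_pos ((hH v).mpr hv)]
        simp only [Subgroup.coe_inv, inv_inv]
        ring
    rw [h1]
    obtain ⟨n, hn⟩ := Virt.pr_int' (virt_tw (lam.comp H.subtype)
      (hχ.comp (V.subtype.comp H.subtype))) (hψ.comp (V.subtype.comp H.subtype))
    have h4 : pr (fun h : H => (χ (h : V)) * ((lam h : ℂˣ) : ℂ)) (fun h : H => ψ (h : V)) = n := hn
    rw [h4]
    have hka : k ≤ (Nat.card G).factorization p := by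
      have h5 : p ^ k ∣ Nat.card G := (Dvd.intro _ hk.symm).trans (Subgroup.card_subgroup_dvd_card V)
      exact (hp.pow_dvd_iff_le_factorization Nat.card_pos.ne').mp h5
    obtain ⟨t, ht⟩ := Nat.exists_eq_add_of_le hka
    refine ⟨p ^ t * n, ?_⟩
    rw [ht, pow_add]
    push_cast
    field_simp
  | zero => exact ⟨0, by rw [pr_zero_left]; simp⟩
  | add a b _ _ ha hb =>
    obtain ⟨k, hk⟩ := ha
    obtain ⟨l, hl⟩ := hb
    exact ⟨k + l, by rw [pr_add, mul_add, hk, hl]; push_cast; rfl⟩
  | neg a _ ha =>
    obtain ⟨k, hk⟩ := ha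
    exact ⟨-k, by rw [pr_neg, mul_neg, hk]; push_cast; rfl⟩

end Pool.Agent.N20
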