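import Mathlib
import Pool.Agent.N20.Blk1

/-!
Cyclic words and traces.
-/

set_option autoImplicit false
set_option linter.style.haveILetI false
set_option linter.unusedSectionVars false

open scoped BigOperators Classical

noncomputable section

namespace Pool.Agent.N20

open Pool.Agent.H254R3.IN

section orbit

/-- orbit sums -/
theorem orbit_sum {O : ValuationSubring ℂ} {A X : Type} [Group A] [Fintype A] [Fintype X]
    [MulAction A X] (W : X → ℂ) (hW : ∀ (a : A) x, W (a • x) = W x) (c : ℂ)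
    (h : ∀ x, ∃ v ∈ O, W x = c * Nat.card (MulAction.stabilizer A x) * v) :
    ∃ v ∈ O, ∑ x, W x = c * Nat.card A * v := by
  have h1 : ∑ x, W x = ∑ q : MulAction.orbitRel.Quotient A X,
      ∑ x ∈ Finset.univ.filter (fun x : X => (Quotient.mk'' x : MulAction.orbitRel.Quotient A X) = q),
        W x := (Finset.sum_fiberwise Finset.univ
          (fun x : X => (Quotient.mk'' x : MulAction.orbitRel.Quotient A X)) W).symm
  have h2 : ∀ q : MulAction.orbitRel.Quotient A X, ∃ v ∈ O,
      ∑ x ∈ Finset.univ.filter (fun x : X => (Quotient.mk'' x : MulAction.orbitRel.Quotient A X) = q),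
        W x = c * Nat.card A * v := by
    intro q
    obtain ⟨x₀, hx₀⟩ : ∃ x₀ : X, (Quotient.mk'' x₀ : MulAction.orbitRel.Quotient A X) = q :=
      Quotient.inductionOn' q fun x => ⟨x, rfl⟩
    obtain ⟨v, hv, hWv⟩ := h x₀
    have h3 : ∀ x : X, (Quotient.mk'' x : MulAction.orbitRel.Quotient A X) = q ↔
        x ∈ MulAction.orbit A x₀ := by
      intro x
      rw [← hx₀, Quotient.eq'']
      exact MulAction.orbitRel_apply
    have h4 : ∀ x ∈ Finset.univ.filter
        (fun x : X => (Quotient.mk'' x : MulAction.orbitRel.Quotient A X) = q), W x = W x₀ := by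
      intro x hx
      obtain ⟨a, rfl⟩ := (h3 x).mp (Finset.mem_filter.mp hx).2
      exact hW a x₀
    have h5 : (Finset.univ.filter
        (fun x : X => (Quotient.mk'' x : MulAction.orbitRel.Quotient A X) = q)).card =
        Nat.card (MulAction.orbit A x₀) := by
      rw [Nat.card_eq_fintype_card, ← Fintype.card_coe]
      refine Fintype.card_congr (Equiv.subtypeEquivRight fun x => ?_)
      simp only [Finset.mem_filter, Finset.mem_univ, true_and]
      exact h3 x
    have h6 : Nat.card (MulAction.orbit A x₀) * Nat.card (MulAction.stabilizer A x₀) =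
        Nat.card A := by
      have := MulAction.card_orbit_mul_card_stabilizer_eq_card_group A x₀
      simp only [Nat.card_eq_fintype_card]
      exact this
    refine ⟨v, hv, ?_⟩
    rw [Finset.sum_congr rfl h4, Finset.sum_const, nsmul_eq_mul, h5, hWv, ← h6]
    push_cast
    ring
  choose v hv hsum using h2
  refine ⟨∑ q, v q, sum_mem fun q _ => hv q, ?_⟩
  rw [h1, Finset.mul_sum]
  exact Finset.sum_congr rfl fun q _ => hsum q

end orbit

variable {G : Type} [Group G]

/-- ordered product of the first `k` values -/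
def wp {n : ℕ} (f : ZMod n → G) (k : ℕ) : G := ((List.range k).map (fun i : ℕ => f (i : ZMod n))).prod

lemma wp_zero {n : ℕ} (f : ZMod n → G) : wp f 0 = 1 := by simp [wp]

lemma wp_succ {n : ℕ} (f : ZMod n → G) (k : ℕ) : wp f (k + 1) = wp f k * f (k : ZMod n) := by
  simp [wp, List.range_succ]

lemma wp_shift {n : ℕ} (f : ZMod n → G) (k : ℕ) :
    f 0 * wp (fun i => f (i + 1)) k = wp f k * f (k : ZMod n) := by
  induction k with
  | zero => simp [wp_zero]
  | succ k ih =>
    rw [wp_succ, ← mul_assoc, ih, wp_succ, ← wp_succ]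
    push_cast
    rfl

lemma wp_add_period {n : ℕ} (f : ZMod n → G) (d : ℕ) (hd : ∀ i, f (i + (d : ZMod n)) = f i)
    (k : ℕ) : wp f (d + k) = wp f d * wp f k := by
  induction k with
  | zero => simp [wp_zero]
  | succ k ih =>
    rw [← add_assoc, wp_succ, ih, wp_succ]
    have : f ((d + k : ℕ) : ZMod n) = f (k : ZMod n) := by
      rw [← hd (k : ZMod n)]
      congr 1
      push_cast
      ring
    rw [this, mul_assoc]

lemma wp_period {n : ℕ} (f : ZMod n → G) (d : ℕ) (hd : ∀ i, f (i + (d : ZMod n)) = f i)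
    (t : ℕ) : wp f (d * t) = wp f d ^ t := by
  induction t with
  | zero => simp [wp_zero]
  | succ t ih =>
    rw [Nat.mul_succ, add_comm, wp_add_period f d hd, ih, pow_succ']

/-- rotation -/
def rot (n : ℕ) (G : Type) : MulAction (Multiplicative (ZMod n)) (ZMod n → G) where
  smul a f := fun i => f (i + a.toAdd)
  one_smul f := by
    funext i
    change f (i + 0) = f i
    rw [add_zero]
  mul_smul a b f := by
    funext i
    change f (i + (a.toAdd + b.toAdd)) = f (i + a.toAdd + b.toAdd)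
    rw [add_assoc]

variable [Fintype G]

lemma wp_rot {n : ℕ} [NeZero n] {F : G → ℂ} (hF : IsCl F) (f : ZMod n → G) (a : ZMod n) :
    F (wp (fun i => f (i + a)) n) = F (wp f n) := by
  have h1 : ∀ f : ZMod n → G, F (wp (fun i => f (i + 1)) n) = F (wp f n) := by
    intro f
    have h2 := wp_shift f n
    rw [CharP.cast_eq_zero] at h2
    have h3 : wp f n = f 0 * wp (fun i => f (i + 1)) n * (f 0)⁻¹ := by
      rw [h2]
      group
    rw [h3, hF]
  have h2 : ∀ k : ℕ, F (wp (fun i => f (i + (k : ZMod n))) n) = F (wp f n) := by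
    intro k
    induction k with
    | zero => simp
    | succ k ih =>
      rw [← ih, ← h1 (fun i => f (i + (k : ZMod n)))]
      congr 2
      funext i
      congr 1
      push_cast
      ring
  have h3 := h2 a.val
  rwa [ZMod.natCast_zmod_val] at h3

/-- a subgroup of order `p ^ s` of the cyclic group of order `p ^ m` contains `p ^ (m - s)` -/
lemma mem_of_card {p m s : ℕ} (hp : p.Prime) (S : Subgroup (Multiplicative (ZMod (p ^ m))))
    (hS : Nat.card S = p ^ s) (hsm : s ≤ m) :
    Multiplicative.ofAdd ((p ^ (m - s) : ℕ) : ZMod (p ^ m)) ∈ S := by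
  haveI : NeZero (p ^ m) := ⟨(pow_pos hp.pos m).ne'⟩
  haveI : Fact p.Prime := ⟨hp⟩
  haveI : Fintype (Multiplicative (ZMod (p ^ m))) := inferInstanceAs (Fintype (ZMod (p ^ m)))
  have h1 := IsCyclic.card_pow_eq_one_le (α := Multiplicative (ZMod (p ^ m))) (n := p ^ s)
    (pow_pos hp.pos s)
  have h2 : (S : Set (Multiplicative (ZMod (p ^ m)))).toFinset ⊆
      Finset.univ.filter (fun a : Multiplicative (ZMod (p ^ m)) => a ^ (p ^ s) = 1) := by
    intro a ha
    rw [Set.mem_toFinset, SetLike.mem_coe] at ha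
    rw [Finset.mem_filter]
    refine ⟨Finset.mem_univ _, ?_⟩
    have h3 : (⟨a, ha⟩ : S) ^ (p ^ s) = 1 := by
      rw [← hS]
      exact pow_card_eq_one'
    exact congrArg Subtype.val h3
  have h3 : (S : Set (Multiplicative (ZMod (p ^ m)))).toFinset.card = p ^ s := by
    rw [← hS, Set.toFinset_card, Nat.card_eq_fintype_card]
    rfl
  have h4 := Finset.eq_of_subset_of_card_le h2 (by rw [h3]; exact h1)
  have h5 : Multiplicative.ofAdd ((p ^ (m - s) : ℕ) : ZMod (p ^ m)) ∈
      Finset.univ.filter (fun a : Multiplicative (ZMod (p ^ m)) => a ^ (p ^ s) = 1) := by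
    rw [Finset.mem_filter]
    refine ⟨Finset.mem_univ _, ?_⟩
    rw [← ofAdd_nsmul, nsmul_eq_mul, ← Nat.cast_mul, ← pow_add, Nat.add_sub_cancel' hsm,
      CharP.cast_eq_zero]
    rfl
  rw [← h4, Set.mem_toFinset, SetLike.mem_coe] at h5
  exact h5

/-- a high `p`-power is `p`-regular -/
lemma preg_pow {p s : ℕ} (hp : p.Prime) (hs : (Nat.card G).factorization p ≤ s) (u : G) :
    ¬ p ∣ orderOf (u ^ p ^ s) := by
  haveI : Fact p.Prime := ⟨hp⟩
  obtain ⟨e, r, hr, hor⟩ := Nat.exists_eq_pow_mul_and_not_dvd (orderOf_pos u).ne' p hp.ne_one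
  have he : e ≤ s := by
    refine le_trans ?_ hs
    have h1 : p ^ e ∣ Nat.card G := (Dvd.intro _ hor.symm).trans (orderOf_dvd_natCard u)
    exact (hp.pow_dvd_iff_le_factorization Nat.card_pos.ne').mp h1
  have h2 : orderOf (u ^ p ^ s) ∣ r := by
    apply orderOf_dvd_of_pow_eq_one
    rw [← pow_mul]
    apply orderOf_dvd_iff_pow_eq_one.mp
    rw [hor]
    exact Nat.mul_dvd_mul_right (pow_dvd_pow p he) r
  exact fun h => hr (h.trans h2)

/-- the cyclic word sums are divisible -/
theorem words {O : ValuationSubring ℂ} {p : ℕ} (hp : p.Prime) {F : G → ℂ} (hFcl : IsCl F)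
    (hFO : ∀ g, F g ∈ O) (hF0 : ∀ g, ¬ p ∣ orderOf g → F g = 0) (b : G → ℂ)
    (hb : ∀ g, b g ∈ O) (m : ℕ) [NeZero (p ^ m)] :
    ∃ v ∈ O, ∑ f : ZMod (p ^ m) → G, (∏ i, b (f i)) * F (wp f (p ^ m)) =
      ((p : ℂ) ^ (Nat.card G).factorization p)⁻¹ * (p : ℂ) ^ m * v := by
  haveI : Fact p.Prime := ⟨hp⟩
  have hp0 : (p : ℂ) ≠ 0 := by exact_mod_cast hp.ne_zero
  letI : MulAction (Multiplicative (ZMod (p ^ m))) (ZMod (p ^ m) → G) := rot (p ^ m) G
  haveI : Fintype (Multiplicative (ZMod (p ^ m))) := inferInstanceAs (Fintype (ZMod (p ^ m)))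
  have hcard : Nat.card (Multiplicative (ZMod (p ^ m))) = p ^ m := by
    have : Nat.card (Multiplicative (ZMod (p ^ m))) = Nat.card (ZMod (p ^ m)) := rfl
    rw [this, Nat.card_eq_fintype_card, ZMod.card]
  have hact : ∀ (a : Multiplicative (ZMod (p ^ m))) (f : ZMod (p ^ m) → G),
      a • f = fun i => f (i + a.toAdd) := fun _ _ => rfl
  have hbO : ∀ f : ZMod (p ^ m) → G, ∏ i, b (f i) ∈ O := fun f => prod_mem fun i _ => hb _
  have key := orbit_sum (O := O) (A := Multiplicative (ZMod (p ^ m)))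
    (fun f : ZMod (p ^ m) → G => (∏ i, b (f i)) * F (wp f (p ^ m))) (by
      intro a f
      simp only [hact]
      rw [wp_rot hFcl]
      congr 1
      exact Fintype.prod_equiv (Equiv.addRight a.toAdd) _ _ fun i => rfl)
    (((p : ℂ) ^ (Nat.card G).factorization p)⁻¹) (by
      intro f
      obtain ⟨s, hsm, hs⟩ : ∃ s ≤ m, Nat.card (MulAction.stabilizer
          (Multiplicative (ZMod (p ^ m))) f) = p ^ s := by
        have h1 := Subgroup.card_subgroup_dvd_card (MulAction.stabilizer
          (Multiplicative (ZMod (p ^ m))) f)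
        rw [hcard] at h1
        exact (Nat.dvd_prime_pow hp).mp h1
      by_cases hsa : (Nat.card G).factorization p ≤ s
      · refine ⟨0, O.zero_mem, ?_⟩
        have h1 := mem_of_card hp _ hs hsm
        rw [MulAction.mem_stabilizer_iff, hact] at h1
        have h2 : ∀ i, f (i + ((p ^ (m - s) : ℕ) : ZMod (p ^ m))) = f i := fun i => congrFun h1 i
        have h3 := wp_period f (p ^ (m - s)) h2 (p ^ s)
        rw [← pow_add, Nat.sub_add_cancel hsm] at h3
        rw [h3, hF0 _ (preg_pow hp hsa _), mul_zero, mul_zero]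
      · push Not at hsa
        obtain ⟨t, ht⟩ := Nat.exists_eq_add_of_le hsa.le
        refine ⟨(p : ℂ) ^ t * ((∏ i, b (f i)) * F (wp f (p ^ m))), O.mul_mem _ _
          (pow_mem (natCast_mem' p) t) (O.mul_mem _ _ (hbO f) (hFO _)), ?_⟩
        rw [hs, ht, pow_add]
        push_cast
        field_simp)
  obtain ⟨v, hv, hsum⟩ := key
  refine ⟨v, hv, ?_⟩
  rw [hsum, hcard]
  push_cast
  rfl

/-- powers of an element of the group algebra -/
lemma op_pow {V : Type} [AddCommGroup V] [Module ℂ V] (ρ : Representation ℂ G V) (b : G → ℂ)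
    (n : ℕ) : (∑ y, b y • ρ y) ^ n =
      ∑ f : Fin n → G, (∏ i, b (f i)) • ρ ((List.ofFn f).prod) := by
  induction n with
  | zero => simp
  | succ n ih =>
    rw [pow_succ', ih, Finset.sum_mul_sum, ← (Fin.consEquiv (fun _ : Fin (n + 1) => G)).sum_comp,
      Fintype.sum_prod_type]
    refine Finset.sum_congr rfl fun x _ => Finset.sum_congr rfl fun f _ => ?_
    rw [smul_mul_smul_comm, ← map_mul]
    simp [Fin.consEquiv, Fin.prod_univ_succ, List.ofFn_succ]

lemma wp_eq {n : ℕ} [NeZero n] (f : ZMod n → G) :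
    wp f n = (List.ofFn (fun i : Fin n => f ((i : ℕ) : ZMod n))).prod := by
  unfold wp
  congr 1
  rw [List.ofFn_eq_map, ← List.map_coe_finRange_eq_range, List.map_map]
  rfl

lemma sum_fun {n : ℕ} [NeZero n] {M : Type*} [AddCommMonoid M] (Φ : (Fin n → G) → M) :
    ∑ f : Fin n → G, Φ f = ∑ f : ZMod n → G, Φ (fun i : Fin n => f ((i : ℕ) : ZMod n)) := by
  have hbij : Function.Bijective (fun i : Fin n => ((i : ℕ) : ZMod n)) := by
    rw [Fintype.bijective_iff_injective_and_card]
    refine ⟨?_, by rw [Fintype.card_fin, ZMod.card]⟩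
    intro i j hij
    apply Fin.ext
    have h1 := congrArg ZMod.val hij
    simpa [ZMod.val_natCast, Nat.mod_eq_of_lt i.2, Nat.mod_eq_of_lt j.2] using h1
  exact (Fintype.sum_equiv (Equiv.arrowCongr (Equiv.ofBijective _ hbij) (Equiv.refl G)).symm _ _
    fun f => rfl).symm

lemma prod_fun {n : ℕ} [NeZero n] (f : ZMod n → G) (b : G → ℂ) :
    ∏ i : Fin n, b (f ((i : ℕ) : ZMod n)) = ∏ i, b (f i) := by
  have hbij : Function.Bijective (fun i : Fin n => ((i : ℕ) : ZMod n)) := by
    rw [Fintype.bijective_iff_injective_and_card]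
    refine ⟨?_, by rw [Fintype.card_fin, ZMod.card]⟩
    intro i j hij
    apply Fin.ext
    have h1 := congrArg ZMod.val hij
    simpa [ZMod.val_natCast, Nat.mod_eq_of_lt i.2, Nat.mod_eq_of_lt j.2] using h1
  exact Fintype.prod_equiv (Equiv.ofBijective _ hbij) _ _ fun i => rfl

/-- the trace of a power -/
lemma trace_words {n : ℕ} [NeZero n] {V : Type} [AddCommGroup V] [Module ℂ V]
    [FiniteDimensional ℂ V] (ρ : Representation ℂ G V) (b : G → ℂ) :
    LinearMap.trace ℂ V ((∑ y, b y • ρ y) ^ n) =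
      ∑ f : ZMod n → G, (∏ i, b (f i)) * ρ.character (wp f n) := by
  rw [op_pow, map_sum, sum_fun]
  refine Finset.sum_congr rfl fun f _ => ?_
  rw [map_smul, smul_eq_mul, prod_fun, wp_eq]
  rfl

end Pool.Agent.N20
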