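import Mathlib
import Pool.Agent.N20.Words

/-!
The block part of the restriction to the `p`-regular elements.
-/

set_option autoImplicit false
set_option linter.style.haveILetI false
set_option linter.unusedSectionVars false

open scoped BigOperators Classical
open Pool.Agent.Helper884 Pool.Agent.H254R3.IN

noncomputable section

namespace Pool.Agent.N20

variable {G : Type} [Group G] [Fintype G]

/-- the characters in `B` -/
abbrev XB (B : Set (G → ℂ)) : Finset (G → ℂ) := (IC.Irr G).filter (· ∈ B)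

lemma mem_XB {B : Set (G → ℂ)} (hB : ∀ χ ∈ B, IsIrr χ) {χ : G → ℂ} : χ ∈ XB B ↔ χ ∈ B := by
  rw [Finset.mem_filter]
  exact ⟨fun h => h.2, fun h => ⟨mem_Irr.mpr (hB χ h), h⟩⟩

/-- the traces of the powers of `e_B g` -/
lemma blk_trace {B : Set (G → ℂ)} (hB : ∀ χ ∈ B, IsIrr χ) {n : ℕ} [NeZero n] {φ : G → ℂ}
    (hφ : IsIrr φ) (g : G) :
    ∑ f : ZMod n → G, (∏ i, blockCoeff B (f i * g⁻¹)) * φ (wp f n) =
      if φ ∈ B then φ (g ^ n) else 0 := by
  have hφ' := hφ
  obtain ⟨V, _, _, _, ρ, hr, rfl⟩ := hφ'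
  rw [← trace_words (n := n) ρ (fun y => blockCoeff B (y * g⁻¹))]
  have h1 : ∑ y, blockCoeff B (y * g⁻¹) • ρ y = Om (blockCoeff B) ρ.character • ρ g := by
    have h2 := class_scalar ρ hr (blockCoeff B) (blockCoeff_cl hB)
    have h3 : ∑ y, blockCoeff B (y * g⁻¹) • ρ y = (∑ y, blockCoeff B y • ρ y) * ρ g := by
      rw [Finset.sum_mul]
      refine Fintype.sum_equiv (Equiv.mulRight g⁻¹) _ _ fun y => ?_
      simp only [Equiv.coe_mulRight]
      rw [smul_mul_assoc, ← map_mul, inv_mul_cancel_right]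
    rw [h3, h2]
    unfold Om
    ext v
    simp
  rw [h1, smul_pow, map_smul, Om_blockCoeff hB hφ, ← map_pow, smul_eq_mul]
  split_ifs with h
  · rw [one_pow, one_mul]
    rfl
  · rw [zero_pow (NeZero.ne n), zero_mul]

/-- the block part of a function -/
def FB (B : Set (G → ℂ)) (F : G → ℂ) (g : G) : ℂ := ∑ φ ∈ XB B, IC.B F φ * φ g

lemma FB_words {B : Set (G → ℂ)} (hB : ∀ χ ∈ B, IsIrr χ) {n : ℕ} [NeZero n] {F : G → ℂ}
    (hF : IsCl F) (g : G) :
    ∑ f : ZMod n → G, (∏ i, blockCoeff B (f i * g⁻¹)) * F (wp f n) = FB B F (g ^ n) := by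
  have h1 : ∀ x, F x = ∑ φ ∈ IC.Irr G, IC.B F φ * φ x := by
    intro x
    have := congrFun (IC.expand F hF) x
    simpa [Finset.sum_apply] using this
  have h2 : ∀ f : ZMod n → G, (∏ i, blockCoeff B (f i * g⁻¹)) * F (wp f n) =
      ∑ φ ∈ IC.Irr G, IC.B F φ * ((∏ i, blockCoeff B (f i * g⁻¹)) * φ (wp f n)) := by
    intro f
    rw [h1, Finset.mul_sum]
    exact Finset.sum_congr rfl fun φ _ => by ring
  rw [Finset.sum_congr rfl (fun f _ => h2 f), Finset.sum_comm]
  unfold FB XB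
  rw [Finset.sum_filter]
  refine Finset.sum_congr rfl fun φ hφ => ?_
  rw [← Finset.mul_sum, blk_trace hB (mem_Irr.mp hφ)]
  split_ifs
  · rfl
  · rw [mul_zero]

/-- divisibility in `O` -/
lemma dvd_of_div_mem {O : ValuationSubring ℂ} {p : ℕ} [hp : Fact p.Prime]
    (hpO : (p : ℂ) ∈ O.nonunits) {n k : ℕ} (h : (n : ℂ) / (p : ℂ) ^ k ∈ O) :
    p ^ k ∣ n := by
  have hp0 : (p : ℂ) ≠ 0 := by exact_mod_cast hp.out.ne_zero
  by_cases hn : n = 0
  · rw [hn]; exact dvd_zero _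
  obtain ⟨e, m, hm, rfl⟩ : ∃ e m, ¬ p ∣ m ∧ n = p ^ e * m :=
    Nat.exists_eq_pow_mul_and_not_dvd hn p hp.out.ne_one
  by_contra hnd
  have hek : e < k := by
    by_contra hcon
    push Not at hcon
    exact hnd ((pow_dvd_pow p hcon).trans (dvd_mul_right _ _))
  obtain ⟨t, rfl⟩ := Nat.exists_eq_add_of_lt hek
  have hinv : ((p : ℂ))⁻¹ ∉ O := by
    intro h
    have h1 := red_mul (natCast_mem' (O := O) p) h
    rw [mul_inv_cancel₀ hp0, red_one, red_eq_zero hpO, zero_mul] at h1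
    exact one_ne_zero h1
  apply hinv
  have h1 : ((p : ℂ))⁻¹ = (((p ^ e * m : ℕ) : ℂ) / (p : ℂ) ^ (e + t + 1)) *
      ((m : ℂ)⁻¹ * (p : ℂ) ^ t) := by
    have hm0 : (m : ℂ) ≠ 0 := by
      intro h0
      apply hm
      have : m = 0 := by exact_mod_cast h0
      rw [this]; exact dvd_zero _
    push_cast
    field_simp
    ring
  rw [h1]
  exact O.mul_mem _ _ h (O.mul_mem _ _ (nat_inv_mem hpO hm) (pow_mem (natCast_mem' p) t))

/-- an algebraic integer divisible by all powers of `p` vanishes -/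
lemma zero_of_div {O : ValuationSubring ℂ} {p : ℕ} [hp : Fact p.Prime]
    (hpO : (p : ℂ) ∈ O.nonunits) {α : ℂ} (hα : IsIntegral ℤ α)
    (h : ∀ N : ℕ, ∃ k ≥ N, ∃ v ∈ O, α = (p : ℂ) ^ k * v) : α = 0 := by
  by_contra h0
  have hp0 : (p : ℂ) ≠ 0 := by exact_mod_cast hp.out.ne_zero
  have hc : (minpoly ℤ α).coeff 0 ≠ 0 := by
    intro hc0
    have hq : IsIntegral ℚ α := hα.tower_top
    apply minpoly.coeff_zero_ne_zero hq h0
    rw [minpoly.isIntegrallyClosed_eq_field_fractions' ℚ hα, Polynomial.coeff_map, hc0, map_zero]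
  set P := minpoly ℤ α with hP
  have h1 : Polynomial.aeval α P.divX * α + (P.coeff 0 : ℂ) = 0 := by
    have h2 := congrArg (Polynomial.aeval α) (Polynomial.divX_mul_X_add P)
    rw [map_add, map_mul, Polynomial.aeval_X, Polynomial.aeval_C, minpoly.aeval] at h2
    simpa using h2
  have h2 : Polynomial.aeval α P.divX ∈ O := by
    rw [Polynomial.aeval_eq_sum_range]
    refine sum_mem fun i _ => ?_
    rw [zsmul_eq_mul]
    exact O.mul_mem _ _ (intCast_mem' _) (pow_mem (mem_of_isIntegral hα) i)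
  obtain ⟨k, hk, v, hv, hαv⟩ := h ((P.coeff 0).natAbs)
  have h3 : (((P.coeff 0).natAbs : ℕ) : ℂ) / (p : ℂ) ^ k ∈ O := by
    have h4 : ((P.coeff 0 : ℤ) : ℂ) / (p : ℂ) ^ k = -(Polynomial.aeval α P.divX * v) := by
      have h5 : ((P.coeff 0 : ℤ) : ℂ) = -(Polynomial.aeval α P.divX * ((p : ℂ) ^ k * v)) := by
        rw [← hαv]
        linear_combination h1
      rw [h5]
      field_simp
    have h5 : ((P.coeff 0 : ℤ) : ℂ) / (p : ℂ) ^ k ∈ O := by
      rw [h4]
      exact O.neg_mem _ (O.mul_mem _ _ h2 hv)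
    rcases Int.natAbs_eq (P.coeff 0) with h6 | h6
    · have h7 : (((P.coeff 0).natAbs : ℕ) : ℂ) = ((P.coeff 0 : ℤ) : ℂ) := by
        have h8 : (((P.coeff 0).natAbs : ℕ) : ℤ) = P.coeff 0 := by omega
        rw [← Int.cast_natCast, h8]
      rw [h7]
      exact h5
    · have h7 : (((P.coeff 0).natAbs : ℕ) : ℂ) = -((P.coeff 0 : ℤ) : ℂ) := by
        have h8 : (((P.coeff 0).natAbs : ℕ) : ℤ) = -(P.coeff 0) := by omega
        rw [← Int.cast_natCast, h8, Int.cast_neg]
      rw [h7, neg_div]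
      exact O.neg_mem _ h5
  have h4 := dvd_of_div_mem hpO h3
  have h5 : 0 < (P.coeff 0).natAbs := Int.natAbs_pos.mpr hc
  have h6 := Nat.le_of_dvd h5 h4
  have h7 : k < p ^ k := Nat.lt_pow_self hp.out.one_lt
  omega

/-- the block part of a class function vanishing on the `p`-regular elements vanishes there -/
theorem FB_zero {O : ValuationSubring ℂ} {p : ℕ} [hp : Fact p.Prime]
    (hpO : (p : ℂ) ∈ O.nonunits) {B : Set (G → ℂ)} (hB : IsBlock O B) {F : G → ℂ}
    (hF : IsCl F) (hFi : ∀ g, IsIntegral ℤ (F g)) (hF0 : ∀ g, ¬ p ∣ orderOf g → F g = 0)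
    {g : G} (hg : ¬ p ∣ orderOf g) : FB B F g = 0 := by
  have hp0 : (p : ℂ) ≠ 0 := by exact_mod_cast hp.out.ne_zero
  have hG0 : (Nat.card G : ℂ) ≠ 0 := by exact_mod_cast Nat.card_pos.ne'
  set a := (Nat.card G).factorization p with ha
  set α : ℂ := (p : ℂ) ^ a * ((Nat.card G : ℂ) * FB B F g) with hαd
  have hα : IsIntegral ℤ α := by
    rw [hαd]
    apply IsIntegral.mul
    · apply IsIntegral.pow
      exact isIntegral_algebraMap (R := ℤ) (x := (p : ℤ))
    · have h1 : (Nat.card G : ℂ) * FB B F g = ∑ φ ∈ XB B, (∑ h, F h * φ h⁻¹) * φ g := by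
        unfold FB IC.B
        rw [Finset.mul_sum]
        refine Finset.sum_congr rfl fun φ _ => ?_
        rw [← mul_assoc, ← mul_assoc, mul_inv_cancel₀ hG0, one_mul]
      rw [h1]
      refine IsIntegral.sum _ fun φ hφ => ?_
      have hφ' : IsIrr φ := mem_Irr.mp (Finset.mem_filter.mp hφ).1
      refine IsIntegral.mul (IsIntegral.sum _ fun h _ => ?_) (hφ'.isIntegral g)
      exact (hFi h).mul (hφ'.isIntegral _)
  have h0 : α = 0 := by
    apply zero_of_div hpO hα
    intro N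
    set r := Nat.totient (orderOf g) with hr
    have hr0 : 0 < r := Nat.totient_pos.mpr (orderOf_pos g)
    set m := r * N with hm
    haveI : NeZero (p ^ m) := ⟨(pow_pos hp.out.pos m).ne'⟩
    have hgm : g ^ p ^ m = g := by
      have hcop : Nat.Coprime p (orderOf g) := (Nat.Prime.coprime_iff_not_dvd hp.out).mpr hg
      have h1 : p ^ m ≡ 1 [MOD orderOf g] := by
        rw [hm, pow_mul]
        have := (Nat.ModEq.pow_totient hcop).pow N
        rwa [one_pow] at this
      have h2 := (pow_eq_pow_iff_modEq (x := g)).mpr h1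
      rwa [pow_one] at h2
    obtain ⟨v, hv, hsum⟩ := words (O := O) hp.out hF (fun g => mem_of_isIntegral (hFi g)) hF0
      (fun y => blockCoeff B (y * g⁻¹)) (fun y => blockCoeff_mem hB _) m
    rw [FB_words hB.irr hF, hgm] at hsum
    refine ⟨m, ?_, (Nat.card G : ℂ) * v, O.mul_mem _ _ (natCast_mem' _) hv, ?_⟩
    · rw [hm]
      exact Nat.le_mul_of_pos_left N hr0
    · rw [hαd, hsum, ← ha]
      field_simp
  rw [hαd] at h0
  rcases mul_eq_zero.mp h0 with h1 | h1
  · exact absurd h1 (pow_ne_zero _ hp0)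
  · exact (mul_eq_zero.mp h1).resolve_left hG0

/-- restriction to the `p`-regular elements, extended by zero -/
def cut (p : ℕ) (f : G → ℂ) (g : G) : ℂ := if p ∣ orderOf g then 0 else f g

lemma orderOf_conj' (g y : G) : orderOf (y * g * y⁻¹) = orderOf g := by
  have := orderOf_injective (MulAut.conj y).toMonoidHom (MulAut.conj y).injective g
  simpa using this

lemma cut_cl {p : ℕ} {f : G → ℂ} (hf : IsCl f) : IsCl (cut p f) := by
  intro g y
  unfold cut
  rw [orderOf_conj', hf]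

lemma B_irr_sum {B : Set (G → ℂ)} (hB : ∀ χ ∈ B, IsIrr χ) {χ : G → ℂ} (hχ : χ ∈ B) (g : G) :
    ∑ φ ∈ XB B, IC.B χ φ * φ g = χ g := by
  rw [Finset.sum_eq_single χ]
  · rw [IC.B_irr (hB χ hχ) (hB χ hχ), if_pos rfl, one_mul]
  · intro φ hφ hne
    rw [IC.B_irr (hB χ hχ) (mem_Irr.mp (Finset.mem_filter.mp hφ).1), if_neg (Ne.symm hne), zero_mul]
  · intro h
    exact absurd ((mem_XB hB).mpr hχ) h

/-- **The reproducing property**: on `p`-regular elements a character of the block is recovered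
from its restricted inner products with the characters of the block. -/
theorem cut_expand {O : ValuationSubring ℂ} {p : ℕ} [hp : Fact p.Prime]
    (hpO : (p : ℂ) ∈ O.nonunits) {B : Set (G → ℂ)} (hB : IsBlock O B) {χ : G → ℂ} (hχ : χ ∈ B)
    {g : G} (hg : ¬ p ∣ orderOf g) : ∑ φ ∈ XB B, IC.B (cut p χ) φ * φ g = χ g := by
  have hχi := hB.irr χ hχ
  have hcl : IsCl χ := fun g y => hχi.conj g y
  have h1 := FB_zero hpO hB (F := χ - cut p χ)
    (by
      intro g y
      rw [Pi.sub_apply, Pi.sub_apply, hcl, cut_cl hcl])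
    (by
      intro g
      rw [Pi.sub_apply, cut]
      split_ifs
      · rw [sub_zero]; exact hχi.isIntegral g
      · rw [sub_self]; exact isIntegral_zero)
    (by
      intro g hg
      rw [Pi.sub_apply, cut, if_neg hg, sub_self]) hg
  unfold FB at h1
  rw [Finset.sum_congr rfl (fun φ _ => by rw [IC.B_sub_left, sub_mul]), Finset.sum_sub_distrib,
    B_irr_sum hB.irr hχ, sub_eq_zero] at h1
  exact h1.symm

lemma B_cut_comm {p : ℕ} (f h : G → ℂ) : IC.B (cut p f) h = IC.B (cut p h) f := by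
  unfold IC.B
  congr 1
  refine Fintype.sum_equiv (Equiv.inv G) _ _ fun g => ?_
  simp only [Equiv.inv_apply, cut, orderOf_inv, inv_inv]
  split_ifs
  · ring
  · ring

/-- the restricted inner products form an idempotent matrix -/
theorem B_cut_idem {O : ValuationSubring ℂ} {p : ℕ} [hp : Fact p.Prime]
    (hpO : (p : ℂ) ∈ O.nonunits) {B : Set (G → ℂ)} (hB : IsBlock O B) {χ ψ : G → ℂ} (hχ : χ ∈ B) :
    ∑ φ ∈ XB B, IC.B (cut p χ) φ * IC.B (cut p φ) ψ = IC.B (cut p χ) ψ := by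
  have h1 : ∀ φ, IC.B (cut p φ) ψ = (Nat.card G : ℂ)⁻¹ * ∑ g : G, cut p φ g * ψ g⁻¹ := fun φ => rfl
  have h2 : IC.B (cut p χ) ψ = (Nat.card G : ℂ)⁻¹ * ∑ g : G, cut p χ g * ψ g⁻¹ := rfl
  rw [h2]
  have h3 : ∀ φ, IC.B (cut p χ) φ * IC.B (cut p φ) ψ =
      (Nat.card G : ℂ)⁻¹ * ∑ g : G, IC.B (cut p χ) φ * cut p φ g * ψ g⁻¹ := by
    intro φ
    rw [h1, Finset.mul_sum, Finset.mul_sum, Finset.mul_sum]
    refine Finset.sum_congr rfl fun g _ => ?_
    ring
  rw [Finset.sum_congr rfl (fun φ _ => h3 φ), ← Finset.mul_sum, Finset.sum_comm]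
  congr 1
  refine Finset.sum_congr rfl fun g _ => ?_
  rw [← Finset.sum_mul]
  congr 1
  by_cases hg : p ∣ orderOf g
  · simp [cut, hg]
  · rw [cut, if_neg hg, ← cut_expand hpO hB hχ hg]
    refine Finset.sum_congr rfl fun φ _ => ?_
    simp [cut, hg]

end Pool.Agent.N20
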