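import Mathlib

/-!
The numerical function controlling chains of projections of an integral form, and its closure
inequalities.
-/

set_option autoImplicit false

namespace Pool.Agent.N20

/-- the numerical bound -/
noncomputable def U (l m : ℕ) : ℚ :=
  if m = 1 then 0 else if l ≤ m then (m : ℚ) - 1 / m
  else (1 - 1 / m) * l + max 0 (1 / 2 - ((l : ℚ) - m - 1) / m)

lemma U_one (l : ℕ) : U l 1 = 0 := by simp [U]

lemma U_le {l m : ℕ} (hm : m ≠ 1) (h : l ≤ m) : U l m = (m : ℚ) - 1 / m := by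
  simp [U, hm, h]

lemma U_gt {l m : ℕ} (hm : m ≠ 1) (h : m < l) :
    U l m = (1 - 1 / m) * l + max 0 (1 / 2 - ((l : ℚ) - m - 1) / m) := by
  simp [U, hm, not_le.mpr h]

lemma eps_le {l m : ℚ} (hm : 0 < m) (h : m + 1 ≤ l) :
    max 0 (1 / 2 - (l - m - 1) / m) ≤ 1 / 2 := by
  have h1 : 0 ≤ (l - m - 1) / m := div_nonneg (by linarith) hm.le
  exact max_le (by norm_num) (by linarith)

lemma aux_unit (m n l : ℚ) (hm : 2 ≤ m) (hn : 1 ≤ n) (h : n + 1 ≤ m) (hl : m + 1 ≤ l) :
    (1 - 1 / m ^ 2) * (m / n + (1 - 1 / n) * (l - 1)) ≤ (1 - 1 / m) * l := by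
  have hm0 : m ≠ 0 := by linarith
  have hn0 : n ≠ 0 := by linarith
  have key : (1 - 1 / m) * l - (1 - 1 / m ^ 2) * (m / n + (1 - 1 / n) * (l - 1)) =
      (m - 1) * (l - (m + 1)) * (m + 1 - n) / (m ^ 2 * n) := by
    field_simp
    ring
  have h2 : 0 ≤ (m - 1) * (l - (m + 1)) * (m + 1 - n) / (m ^ 2 * n) := by
    apply div_nonneg
    · apply mul_nonneg
      · apply mul_nonneg <;> linarith
      · linarith
    · positivity
  linarith

lemma eps_mono (m n l : ℚ) (hn : 0 < n) (h : n + 1 ≤ m) (hl : m + 1 ≤ l) :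
    max 0 (1 / 2 - ((l - 1) - n - 1) / n) ≤ max 0 (1 / 2 - (l - m - 1) / m) := by
  have hm : 0 < m := by linarith
  apply max_le_max le_rfl
  have : (l - m - 1) / m ≤ ((l - 1) - n - 1) / n := by
    rw [div_le_div_iff₀ hm hn]
    nlinarith [mul_nonneg hm.le (sub_nonneg.mpr h), mul_nonneg (sub_nonneg.mpr h) (sub_nonneg.mpr hl)]
  linarith

lemma aux_non {m n l s d r : ℚ} (hs : 2 ≤ s) (hd : 2 ≤ d) (hr : 1 ≤ r) (hm : m = d * s)
    (hn : n = d * r) :
    s / r - 1 / (s * r) + (1 - 1 / n) * (l - 1) - (1 - 1 / m) * l =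
        (n - d ^ 2 - (l - m - 1) * (m - n)) / (m * n) := by
  have hs0 : s ≠ 0 := by linarith
  have hd0 : d ≠ 0 := by linarith
  have hr0 : r ≠ 0 := by linarith
  subst hm hn
  field_simp
  ring

lemma aux_non2 (m n d t : ℚ) (hd : 2 ≤ d) (hn : 2 ≤ n) (hnm : n + 2 ≤ m) (ht0 : 0 ≤ t) :
    (n - d ^ 2 - t * (m - n)) / (m * n) +
        max 0 (1 / 2 - (t + (m - n) - 1) / n) ≤ max 0 (1 / 2 - t / m) := by
  have hm0 : 0 < m := by linarith
  have hn0 : 0 < n := by linarith
  have hmn : 0 < m * n := mul_pos hm0 hn0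
  have hd4 : 4 ≤ d ^ 2 := by nlinarith
  rcases le_or_gt (1 / 2 - (t + (m - n) - 1) / n) 0 with h0 | h0
  · rw [max_eq_left h0, add_zero]
    rcases le_or_gt (n - d ^ 2 - t * (m - n)) 0 with h1 | h1
    · exact le_trans (div_nonpos_of_nonpos_of_nonneg h1 hmn.le) (le_max_left _ _)
    · refine le_trans ?_ (le_max_right _ _)
      have h2t : 2 * t < n := by nlinarith
      rw [div_le_iff₀ hmn]
      have h3 : (1 / 2 - t / m) * (m * n) = n * (m - 2 * t) / 2 := by field_simp
      rw [h3]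
      have h4 : 0 ≤ t * (m - n) := mul_nonneg ht0 (by linarith)
      have h5 : 2 * n ≤ n * (m - 2 * t) := by nlinarith
      linarith
  · rw [max_eq_right h0.le]
    refine le_trans ?_ (le_max_right _ _)
    have h1 : (1 / 2 - t / m) - ((n - d ^ 2 - t * (m - n)) / (m * n) +
        (1 / 2 - (t + (m - n) - 1) / n)) =
        (2 * t * (m - n) + m * (m - n - 1) - n + d ^ 2) / (m * n) := by
      field_simp
      ring
    have h3 : 0 ≤ 2 * t * (m - n) := mul_nonneg (by linarith) (by linarith)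
    have h4 : m ≤ m * (m - n - 1) := by nlinarith
    have h2 : 0 ≤ (2 * t * (m - n) + m * (m - n - 1) - n + d ^ 2) / (m * n) :=
      div_nonneg (by linarith) hmn.le
    linarith

/-- the bound dominates the trace bound -/
lemma U_trace {l m : ℕ} (hm : 1 ≤ m) : (1 - 1 / (m : ℚ)) * l ≤ U l m := by
  rcases eq_or_ne m 1 with rfl | hm1
  · simp [U]
  have hm2 : (2 : ℚ) ≤ m := by exact_mod_cast (show 2 ≤ m by omega)
  have hm0 : (m : ℚ) ≠ 0 := by positivity
  rcases le_or_gt l m with h | h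
  · rw [U_le hm1 h]
    have hl : (l : ℚ) ≤ m := by exact_mod_cast h
    have h1 : (0 : ℚ) ≤ 1 - 1 / m := by
      rw [sub_nonneg, div_le_one (by linarith)]; linarith
    have h2 : (1 - 1 / (m : ℚ)) * l ≤ (1 - 1 / (m : ℚ)) * m := mul_le_mul_of_nonneg_left hl h1
    have h3 : (1 - 1 / (m : ℚ)) * m = m - 1 := by field_simp
    have h4 : 1 / (m : ℚ) ≤ 1 := by rw [div_le_one (by linarith)]; linarith
    linarith
  · rw [U_gt hm1 h]
    have := le_max_left (0 : ℚ) (1 / 2 - ((l : ℚ) - m - 1) / m)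
    linarith

lemma U_nonneg {l m : ℕ} (hm : 1 ≤ m) : 0 ≤ U l m := by
  refine le_trans ?_ (U_trace hm)
  have hm' : (1 : ℚ) ≤ m := by exact_mod_cast hm
  apply mul_nonneg
  · rw [sub_nonneg, div_le_one (by linarith)]; exact hm'
  · positivity

/-- a unit step -/
lemma U_unit {l m n : ℕ} (hn : 1 ≤ n) (h : n + 1 ≤ m) (hl : 1 ≤ l) :
    (1 - 1 / (m : ℚ) ^ 2) * ((m : ℚ) / n + U (l - 1) n) ≤ U l m := by
  have hm1 : m ≠ 1 := by omega
  have hmQ : (2 : ℚ) ≤ m := by exact_mod_cast (show 2 ≤ m by omega)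
  have hnQ : (1 : ℚ) ≤ n := by exact_mod_cast hn
  have hhQ : (n : ℚ) + 1 ≤ m := by exact_mod_cast h
  have hm0 : (m : ℚ) ≠ 0 := by positivity
  have hn0 : (n : ℚ) ≠ 0 := by positivity
  have hB0 : (0 : ℚ) ≤ 1 - 1 / (m : ℚ) ^ 2 := by
    rw [sub_nonneg, div_le_one (by positivity)]; nlinarith
  have hB1 : 1 - 1 / (m : ℚ) ^ 2 ≤ 1 := by
    have : (0 : ℚ) ≤ 1 / (m : ℚ) ^ 2 := by positivity
    linarith
  have hBm : (1 - 1 / (m : ℚ) ^ 2) * m = m - 1 / m := by field_simp
  have hcast : ((l - 1 : ℕ) : ℚ) = (l : ℚ) - 1 := by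
    rw [Nat.cast_sub hl, Nat.cast_one]
  rcases le_or_gt l m with hlm | hlm
  · -- l ≤ m
    rw [U_le hm1 hlm, ← hBm]
    apply mul_le_mul_of_nonneg_left _ hB0
    have hlQ : (l : ℚ) ≤ m := by exact_mod_cast hlm
    rcases eq_or_ne n 1 with rfl | hn1
    · rw [U_one]; simp
    have hn2 : (2 : ℚ) ≤ n := by exact_mod_cast (show 2 ≤ n by omega)
    rcases le_or_gt (l - 1) n with hln | hln
    · rw [U_le hn1 hln]
      have key : (m : ℚ) - ((m : ℚ) / n + ((n : ℚ) - 1 / n)) = (n - 1) * (m - n - 1) / n := by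
        field_simp; ring
      have h2 : (0 : ℚ) ≤ (n - 1) * (m - n - 1) / n :=
        div_nonneg (mul_nonneg (by linarith) (by linarith)) (by linarith)
      linarith
    · rw [U_gt hn1 hln, hcast]
      have hl1 : (n : ℚ) + 1 ≤ (l : ℚ) - 1 := by
        rw [← hcast]; exact_mod_cast hln
      have he := eps_le (l := (l : ℚ) - 1) (m := n) (by linarith) hl1
      have h1 : (0 : ℚ) ≤ 1 - 1 / n := by
        rw [sub_nonneg, div_le_one (by linarith)]; linarith
      have h2 : (1 - 1 / (n : ℚ)) * ((l : ℚ) - 1) ≤ (1 - 1 / (n : ℚ)) * ((m : ℚ) - 1) :=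
        mul_le_mul_of_nonneg_left (by linarith) h1
      have h3 : (m : ℚ) / n + (1 - 1 / (n : ℚ)) * ((m : ℚ) - 1) = m - 1 + 1 / n := by
        field_simp; ring
      have h4 : 1 / (n : ℚ) ≤ 1 / 2 := by
        apply one_div_le_one_div_of_le <;> linarith
      linarith
  · -- l > m
    have hlQ : (m : ℚ) + 1 ≤ l := by exact_mod_cast hlm
    rw [U_gt hm1 hlm]
    have haux := aux_unit m n l hmQ hnQ hhQ hlQ
    have heps := le_max_left (0 : ℚ) (1 / 2 - ((l : ℚ) - m - 1) / m)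
    rcases eq_or_ne n 1 with rfl | hn1
    · rw [U_one]
      simp only [Nat.cast_one, div_one, add_zero, sub_self, zero_mul] at haux ⊢
      linarith
    have hln : n < l - 1 := by omega
    rw [U_gt hn1 hln, hcast, ← add_assoc, mul_add]
    have h5 := eps_mono m n l (by linarith) hhQ hlQ
    have h6 : 0 ≤ max (0 : ℚ) (1 / 2 - (((l : ℚ) - 1) - n - 1) / n) := le_max_left _ _
    have h7 := mul_le_mul_of_nonneg_right hB1 h6
    rw [one_mul] at h7
    linarith

/-- a non-unit step -/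
lemma U_non {l m n s d r : ℕ} (hs : 2 ≤ s) (hd : 2 ≤ d) (hr : 1 ≤ r) (hrs : r + 1 ≤ s)
    (hm : m = d * s) (hn : n = d * r) (hl : 1 ≤ l) :
    (1 - 1 / (s : ℚ) ^ 2) * ((m : ℚ) / n) + U (l - 1) n ≤ U l m := by
  have hsQ : (2 : ℚ) ≤ s := by exact_mod_cast hs
  have hdQ : (2 : ℚ) ≤ d := by exact_mod_cast hd
  have hrQ : (1 : ℚ) ≤ r := by exact_mod_cast hr
  have hrsQ : (r : ℚ) + 1 ≤ s := by exact_mod_cast hrs
  have hmQ : (m : ℚ) = d * s := by exact_mod_cast hm
  have hnQ : (n : ℚ) = d * r := by exact_mod_cast hn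
  have hn2 : 2 ≤ n := by rw [hn]; nlinarith
  have hnm : n + 2 ≤ m := by
    rw [hn, hm]; nlinarith
  have hnmQ : (n : ℚ) + 2 ≤ m := by exact_mod_cast hnm
  have hm1 : m ≠ 1 := by omega
  have hn1 : n ≠ 1 := by omega
  have hn2Q : (2 : ℚ) ≤ n := by exact_mod_cast hn2
  have hm4Q : (4 : ℚ) ≤ m := by linarith
  have hs0 : (s : ℚ) ≠ 0 := by positivity
  have hd0 : (d : ℚ) ≠ 0 := by positivity
  have hr0 : (r : ℚ) ≠ 0 := by positivity
  have hcast : ((l - 1 : ℕ) : ℚ) = (l : ℚ) - 1 := by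
    rw [Nat.cast_sub hl, Nat.cast_one]
  have hfirst : (1 - 1 / (s : ℚ) ^ 2) * ((m : ℚ) / n) = s / r - 1 / (s * r) := by
    rw [hmQ, hnQ]; field_simp
  rcases le_or_gt l m with hlm | hlm
  · rw [U_le hm1 hlm]
    have hlQ : (l : ℚ) ≤ m := by exact_mod_cast hlm
    rcases le_or_gt (l - 1) n with hln | hln
    · rw [U_le hn1 hln, hfirst, hmQ, hnQ]
      have key : (d : ℚ) * s - 1 / (d * s) - (s / r - 1 / (s * r) + (d * r - 1 / (d * r))) =
          (d ^ 2 * s * r * (s - r) - d * s ^ 2 + d + s - r) / (d * s * r) := by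
        field_simp; ring
      have hnum : (0 : ℚ) ≤ d ^ 2 * s * r * (s - r) - d * s ^ 2 + d + s - r := by
        have h1 : (s : ℚ) - 1 ≤ r * (s - r) := by nlinarith
        have h2 : (d : ℚ) ^ 2 * s * (s - 1) ≤ d ^ 2 * s * (r * (s - r)) :=
          mul_le_mul_of_nonneg_left h1 (by positivity)
        have h3 : (0 : ℚ) ≤ d * s * ((s - 1) * (d - 1) - 1) := by
          apply mul_nonneg (by positivity)
          nlinarith
        nlinarith
      have h2 : (0 : ℚ) ≤ (d ^ 2 * s * r * (s - r) - d * s ^ 2 + d + s - r) / (d * s * r) :=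
        div_nonneg hnum (by positivity)
      linarith
    · rw [U_gt hn1 hln, hcast, hfirst]
      have hl1 : (n : ℚ) + 1 ≤ (l : ℚ) - 1 := by
        rw [← hcast]; exact_mod_cast hln
      have he := eps_le (l := (l : ℚ) - 1) (m := n) (by linarith) hl1
      have h1 : (0 : ℚ) ≤ 1 - 1 / n := by
        rw [sub_nonneg, div_le_one (by linarith)]; linarith
      have h2 : (1 - 1 / (n : ℚ)) * ((l : ℚ) - 1) ≤ (1 - 1 / (n : ℚ)) * ((m : ℚ) - 1) :=
        mul_le_mul_of_nonneg_left (by linarith) h1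
      have h3 : (s : ℚ) / r + (1 - 1 / (n : ℚ)) * ((m : ℚ) - 1) = m - 1 + 1 / n := by
        rw [hmQ, hnQ]; field_simp; ring
      have h4 : 1 / (n : ℚ) + 1 / m ≤ 1 / 2 + 1 / (s * r) := by
        rcases eq_or_lt_of_le hn2 with h5 | h5
        · -- n = 2
          have hd2 : d = 2 ∧ r = 1 := by
            rw [hn] at h5
            constructor <;> nlinarith
          obtain ⟨rfl, rfl⟩ := hd2
          rw [hmQ, hnQ]
          have : (1 : ℚ) / (((2 : ℕ) : ℚ) * s) ≤ 1 / (s * ((1 : ℕ) : ℚ)) := by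
            apply one_div_le_one_div_of_le
            · positivity
            · push_cast; linarith
          push_cast at this ⊢
          linarith
        · have hn3 : (3 : ℚ) ≤ n := by exact_mod_cast h5
          have hm6 : (6 : ℚ) ≤ m := by
            have : 6 ≤ m := by
              rcases eq_or_lt_of_le (show 3 ≤ n from h5) with h6 | h6
              · have hd3 : d = 3 := by
                  rw [hn] at h6
                  have : d ∣ 3 := ⟨r, h6⟩
                  rcases (Nat.dvd_prime Nat.prime_three).mp this with h7 | h7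
                  · omega
                  · exact h7
                rw [hm, hd3]; omega
              · omega
            exact_mod_cast this
          have h7 : 1 / (n : ℚ) ≤ 1 / 3 := one_div_le_one_div_of_le (by norm_num) hn3
          have h8 : 1 / (m : ℚ) ≤ 1 / 6 := one_div_le_one_div_of_le (by norm_num) hm6
          have h9 : (0 : ℚ) ≤ 1 / (s * r) := by positivity
          linarith
      linarith
  · -- l > m
    have hlQ : (m : ℚ) + 1 ≤ l := by exact_mod_cast hlm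
    have hln : n < l - 1 := by omega
    rw [U_gt hm1 hlm, U_gt hn1 hln, hcast, hfirst]
    have h1 := aux_non (m := m) (n := n) (l := l) (s := s) (d := d) (r := r)
      hsQ hdQ hrQ hmQ hnQ
    have h2 := aux_non2 (m : ℚ) n d ((l : ℚ) - m - 1) hdQ hn2Q hnmQ (by linarith)
    have hlt : ((l : ℚ) - 1) - n - 1 = ((l : ℚ) - m - 1) + (m - n) - 1 := by ring
    rw [hlt]
    linarith only [h1, h2]

/-- the first step -/
lemma U_top {l p n : ℕ} (hn : 1 ≤ n) (h : n + 1 ≤ p) (hl : 1 ≤ l) :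
    (p : ℚ) / n + U (l - 1) n ≤ max (p : ℚ) l := by
  have hnQ : (1 : ℚ) ≤ n := by exact_mod_cast hn
  have hhQ : (n : ℚ) + 1 ≤ p := by exact_mod_cast h
  have hn0 : (n : ℚ) ≠ 0 := by positivity
  have hcast : ((l - 1 : ℕ) : ℚ) = (l : ℚ) - 1 := by
    rw [Nat.cast_sub hl, Nat.cast_one]
  rcases eq_or_ne n 1 with rfl | hn1
  · rw [U_one]; simp
  have hn2 : (2 : ℚ) ≤ n := by exact_mod_cast (show 2 ≤ n by omega)
  rcases le_or_gt (l - 1) n with hln | hln
  · rw [U_le hn1 hln]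
    refine le_trans ?_ (le_max_left _ _)
    have key : (p : ℚ) - ((p : ℚ) / n + ((n : ℚ) - 1 / n)) = (n - 1) * (p - n - 1) / n := by
      field_simp; ring
    have h2 : (0 : ℚ) ≤ (n - 1) * (p - n - 1) / n :=
      div_nonneg (mul_nonneg (by linarith) (by linarith)) (by linarith)
    linarith
  · rw [U_gt hn1 hln, hcast]
    have hl1 : (n : ℚ) + 1 ≤ (l : ℚ) - 1 := by
      rw [← hcast]; exact_mod_cast hln
    have he := eps_le (l := (l : ℚ) - 1) (m := n) (by linarith) hl1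
    have h4 : 1 / (n : ℚ) ≤ 1 / 2 := by
      apply one_div_le_one_div_of_le <;> linarith
    have h1 : (0 : ℚ) ≤ 1 - 1 / n := by linarith
    rcases le_or_gt l p with hlp | hlp
    · refine le_trans ?_ (le_max_left _ _)
      have hlpQ : (l : ℚ) ≤ p := by exact_mod_cast hlp
      have h2 : (1 - 1 / (n : ℚ)) * ((l : ℚ) - 1) ≤ (1 - 1 / (n : ℚ)) * ((p : ℚ) - 1) :=
        mul_le_mul_of_nonneg_left (by linarith) h1
      have h3 : (p : ℚ) / n + (1 - 1 / (n : ℚ)) * ((p : ℚ) - 1) = p - 1 + 1 / n := by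
        field_simp; ring
      linarith
    · refine le_trans ?_ (le_max_right _ _)
      have hlpQ : (p : ℚ) + 1 ≤ l := by exact_mod_cast hlp
      have h3 : (p : ℚ) / n + (1 - 1 / (n : ℚ)) * ((l : ℚ) - 1) = (l - 1) + (p + 1 - l) / n := by
        field_simp; ring
      have h5 : ((p : ℚ) + 1 - l) / n ≤ 0 := div_nonpos_of_nonpos_of_nonneg (by linarith) (by linarith)
      linarith

end Pool.Agent.N20
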