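import Mathlib
import Pool.Agent.N20.Num

/-!
Chains of projections of a rational form with integral minors.
-/

set_option autoImplicit false

open scoped BigOperators

namespace Pool.Agent.N20

/-- the integers inside `ℚ` -/
abbrev ZZ : Subring ℚ := (Int.castRingHom ℚ).range

lemma mem_ZZ {x : ℚ} : x ∈ ZZ ↔ ∃ n : ℤ, (n : ℚ) = x := Iff.rfl

lemma intCast_ZZ (n : ℤ) : (n : ℚ) ∈ ZZ := ⟨n, rfl⟩

lemma natCast_ZZ (n : ℕ) : (n : ℚ) ∈ ZZ := ⟨n, by simp⟩

lemma one_le_sq_of_ZZ {x : ℚ} (hx : x ∈ ZZ) (h0 : x ≠ 0) : 1 ≤ x ^ 2 := by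
  obtain ⟨n, rfl⟩ := hx
  simp only [eq_intCast] at h0 ⊢
  have hn : n ≠ 0 := by
    rintro rfl
    exact h0 (by simp)
  have : (1 : ℤ) ≤ n ^ 2 := by
    have := Int.one_le_abs hn
    rw [← sq_abs]
    nlinarith
  exact_mod_cast this

variable {A : Type*} [AddCommGroup A] {ι : Type*} [Fintype ι]

/-- the order of the functional `F x ·` modulo the integers -/
noncomputable def od (F : A →+ A →+ ℚ) (x : A) : ℕ :=
  sInf {k : ℕ | 0 < k ∧ ∀ b, (k : ℚ) * F x b ∈ ZZ}

/-- the potential -/
noncomputable def W (F : A →+ A →+ ℚ) (x : A) : ℚ := 1 - 1 / (od F x : ℚ) ^ 2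

section od

variable {F : A →+ A →+ ℚ} {m : ℕ} (hm : 0 < m) (hF : ∀ x b, (m : ℚ) * F x b ∈ ZZ)

include hm hF

lemma od_spec (x : A) : 0 < od F x ∧ ∀ b, (od F x : ℚ) * F x b ∈ ZZ :=
  Nat.sInf_mem (s := {k : ℕ | 0 < k ∧ ∀ b, (k : ℚ) * F x b ∈ ZZ}) ⟨m, hm, hF x⟩

lemma od_pos (x : A) : 0 < od F x := (od_spec hm hF x).1

lemma od_mem (x b : A) : (od F x : ℚ) * F x b ∈ ZZ := (od_spec hm hF x).2 b

omit hm hF in
lemma od_le {x : A} {k : ℕ} (hk : 0 < k) (h : ∀ b, (k : ℚ) * F x b ∈ ZZ) : od F x ≤ k :=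
  Nat.sInf_le ⟨hk, h⟩

lemma od_dvd {x : A} {k : ℕ} (h : ∀ b, (k : ℚ) * F x b ∈ ZZ) : od F x ∣ k := by
  rw [Nat.dvd_iff_mod_eq_zero]
  by_contra hne
  have h1 := od_pos hm hF x
  have h2 := od_le (F := F) (x := x) (k := k % od F x) (Nat.pos_of_ne_zero hne) (by
    intro b
    have h3 : ((k % od F x : ℕ) : ℚ) = k - (k / od F x : ℕ) * (od F x : ℕ) := by
      have := Nat.mod_add_div k (od F x)
      have h4 : ((k % od F x : ℕ) : ℚ) + (od F x : ℕ) * (k / od F x : ℕ) = k := by
        exact_mod_cast this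
      linarith
    rw [h3, sub_mul, mul_assoc]
    exact sub_mem (h b) (mul_mem (natCast_ZZ _) (od_mem hm hF x b)))
  exact absurd (Nat.mod_lt k h1) (not_lt.mpr h2)

lemma W_nonneg (x : A) : 0 ≤ W F x := by
  have h1 : (1 : ℚ) ≤ od F x := by exact_mod_cast od_pos hm hF x
  unfold W
  rw [sub_nonneg, div_le_one (by positivity)]
  nlinarith

lemma W_le (x : A) : W F x ≤ 1 - 1 / (m : ℚ) ^ 2 := by
  have h1 : (1 : ℚ) ≤ od F x := by exact_mod_cast od_pos hm hF x
  have h2 : (od F x : ℚ) ≤ m := by exact_mod_cast od_le hm (hF x)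
  unfold W
  have : 1 / (m : ℚ) ^ 2 ≤ 1 / (od F x : ℚ) ^ 2 := by
    apply one_div_le_one_div_of_le (by positivity)
    nlinarith
  linarith

/-- every order is attained -/
lemma exists_b (z : A) : ∃ (b : A) (j : ℤ), F z b = 1 / (od F z : ℚ) + j := by
  set s := od F z with hs
  have hs0 : 0 < s := od_pos hm hF z
  have hsQ : (s : ℚ) ≠ 0 := by positivity
  let K : AddSubgroup ℤ :=
    { carrier := {h : ℤ | ∃ b : A, (h : ℚ) / s - F z b ∈ ZZ}
      zero_mem' := ⟨0, by simp⟩
      add_mem' := by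
        rintro h h' ⟨b, hb⟩ ⟨b', hb'⟩
        refine ⟨b + b', ?_⟩
        have : (((h + h' : ℤ)) : ℚ) / s - F z (b + b') =
            ((h : ℚ) / s - F z b) + ((h' : ℚ) / s - F z b') := by
          rw [map_add]; push_cast; ring
        rw [this]
        exact add_mem hb hb'
      neg_mem' := by
        rintro h ⟨b, hb⟩
        refine ⟨-b, ?_⟩
        have : (((-h : ℤ)) : ℚ) / s - F z (-b) = -((h : ℚ) / s - F z b) := by
          rw [map_neg]; push_cast; ring
        rw [this]
        exact neg_mem hb }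
  obtain ⟨g, hg⟩ := Int.subgroup_cyclic K
  have hmemK : ∀ h : ℤ, h ∈ K ↔ g ∣ h := by
    intro h
    rw [hg, AddSubgroup.mem_closure_singleton]
    constructor
    · rintro ⟨n, rfl⟩
      exact ⟨n, by simp [mul_comm]⟩
    · rintro ⟨n, rfl⟩
      exact ⟨n, by simp [mul_comm]⟩
  have hsK : (s : ℤ) ∈ K := ⟨0, by
    rw [map_zero, sub_zero]
    have : (((s : ℤ)) : ℚ) / s = 1 := by
      push_cast
      exact div_self hsQ
    rw [this]
    exact one_mem _⟩
  obtain ⟨c, hc⟩ := (hmemK _).mp hsK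
  have hall : ∀ b, ((c.natAbs : ℕ) : ℚ) * F z b ∈ ZZ := by
    intro b
    obtain ⟨h, hh⟩ := od_mem hm hF z b
    simp only [eq_intCast] at hh
    have hK : h ∈ K := ⟨b, by
      have : (h : ℚ) / s - F z b = 0 := by
        rw [hh, ← hs, mul_comm, mul_div_assoc, div_self hsQ, mul_one, sub_self]
      rw [this]
      exact zero_mem _⟩
    obtain ⟨a, ha⟩ := (hmemK h).mp hK
    have hg0 : (g : ℚ) ≠ 0 := by
      intro h0
      have : g = 0 := by exact_mod_cast h0
      rw [this, zero_mul] at hc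
      have : s = 0 := by exact_mod_cast hc
      omega
    have hcQ : (s : ℚ) = g * c := by exact_mod_cast hc
    have haQ : (h : ℚ) = g * a := by exact_mod_cast ha
    have h1 : (c : ℚ) * F z b = a := by
      have h2 : (g : ℚ) * (c * F z b) = g * a := by
        rw [← mul_assoc, ← hcQ, ← haQ, hh, hs]
      exact mul_left_cancel₀ hg0 h2
    rcases Int.natAbs_eq c with h3 | h3
    · have h4 : ((c.natAbs : ℕ) : ℚ) = c := by
        have : ((c.natAbs : ℤ) : ℚ) = (c : ℚ) := by rw [← h3]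
        simpa using this
      rw [h4, h1]
      exact intCast_ZZ a
    · have h4 : ((c.natAbs : ℕ) : ℚ) = -c := by
        have : ((c.natAbs : ℤ) : ℚ) = -(c : ℚ) := by
          conv_rhs => rw [h3]
          push_cast
          ring
        simpa using this
      rw [h4, neg_mul, h1]
      exact neg_mem (intCast_ZZ a)
  have hc0 : 0 < c.natAbs := by
    rw [Int.natAbs_pos]
    rintro rfl
    rw [mul_zero] at hc
    have : s = 0 := by exact_mod_cast hc
    omega
  have h5 : s ≤ c.natAbs := by rw [hs]; exact od_le hc0 hall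
  have h6 : s = g.natAbs * c.natAbs := by
    have := congrArg Int.natAbs hc
    rw [Int.natAbs_mul] at this
    simpa using this
  have h7 : g.natAbs = 1 := by
    have hg1 : 0 < g.natAbs := by
      rcases Nat.eq_zero_or_pos g.natAbs with h8 | h8
      · rw [h8, zero_mul] at h6; omega
      · exact h8
    nlinarith
  have h8 : (1 : ℤ) ∈ K := by
    rw [hmemK, ← Int.natAbs_dvd, h7]
    simp
  obtain ⟨b, j, hj⟩ := h8
  simp only [eq_intCast, Int.cast_one] at hj
  exact ⟨b, -j, by rw [Int.cast_neg, hj]; ring⟩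

end od

/-- the level data -/
structure Lev (F : A →+ A →+ ℚ) (e : ι → A) (κ m l : ℕ) : Prop where
  sym : ∀ a b, F a b = F b a
  frame : ∀ a b, ∑ q, F (e q) a * F (e q) b = κ * F a b
  trace : ∑ q, F (e q) (e q) = κ * l
  minors : ∀ (s : ℕ) (x y : Fin s → A),
    (m : ℚ) * Matrix.det (Matrix.of fun i j => F (x i) (y j)) ∈ ZZ

/-- the projected form -/
def proj (F : A →+ A →+ ℚ) (z : A) : A →+ A →+ ℚ :=
  AddMonoidHom.mk' (fun a => AddMonoidHom.mk' (fun b => F a b - F a z * F z b / F z z)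
    (by intro b b'; simp only [map_add]; ring))
    (by
      intro a a'
      ext b
      simp only [map_add, AddMonoidHom.add_apply, AddMonoidHom.mk'_apply]
      ring)

lemma proj_apply (F : A →+ A →+ ℚ) (z a b : A) :
    proj F z a b = F a b - F a z * F z b / F z z := rfl

lemma det_proj (F : A →+ A →+ ℚ) (z : A) (hz : F z z ≠ 0) (s : ℕ) (x y : Fin s → A) :
    F z z * Matrix.det (Matrix.of fun i j => proj F z (x i) (y j)) =
      Matrix.det (Matrix.of fun i j => F ((Fin.cons z x : Fin (s + 1) → A) i)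
        ((Fin.cons z y : Fin (s + 1) → A) j)) := by
  set X : Matrix (Fin (s + 1)) (Fin (s + 1)) ℚ := Matrix.of fun i j =>
    F ((Fin.cons z x : Fin (s + 1) → A) i) ((Fin.cons z y : Fin (s + 1) → A) j) with hX
  set c : Fin (s + 1) → ℚ := Fin.cons 0 (fun i => - (F (x i) z / F z z)) with hc
  set Y : Matrix (Fin (s + 1)) (Fin (s + 1)) ℚ := Matrix.of fun i j => X i j + c i * X 0 j with hY
  have h1 : Y.det = X.det :=
    Matrix.det_eq_of_forall_row_eq_smul_add_const c 0 (by simp [hc]) (fun i j => rfl)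
  rw [← h1, Matrix.det_succ_column_zero, Finset.sum_eq_single 0]
  · have h2 : Y.submatrix (Fin.succAbove 0) Fin.succ =
        Matrix.of fun i j => proj F z (x i) (y j) := by
      ext i j
      simp only [Fin.zero_succAbove, hY, hX, hc, Matrix.submatrix_apply, Matrix.of_apply,
        Fin.cons_succ, Fin.cons_zero, proj_apply]
      ring
    rw [h2]
    simp [hY, hX, hc]
  · intro i _ hi
    obtain ⟨i', rfl⟩ := Fin.exists_succ_eq.mpr hi
    have : Y i'.succ 0 = 0 := by
      simp only [hY, hX, hc, Matrix.of_apply, Fin.cons_succ, Fin.cons_zero]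
      field_simp
      ring
    rw [this]
    simp
  · intro h
    exact absurd (Finset.mem_univ _) h

namespace Lev

variable {F : A →+ A →+ ℚ} {e : ι → A} {κ m l : ℕ} (L : Lev F e κ m l)

include L

lemma int1 (x b : A) : (m : ℚ) * F x b ∈ ZZ := by
  have := L.minors 1 (fun _ => x) (fun _ => b)
  rwa [Matrix.det_fin_one] at this

lemma int2 (x x' y y' : A) : (m : ℚ) * (F x y * F x' y' - F x y' * F x' y) ∈ ZZ := by
  have := L.minors 2 ![x, x'] ![y, y']
  rw [Matrix.det_fin_two] at this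
  simpa using this

lemma nonneg (hκ : 0 < κ) (a : A) : 0 ≤ F a a := by
  have h1 := L.frame a a
  have h2 : 0 ≤ ∑ q, F (e q) a * F (e q) a := Finset.sum_nonneg fun q _ => mul_self_nonneg _
  rw [h1] at h2
  have h3 : (0 : ℚ) < κ := by exact_mod_cast hκ
  exact nonneg_of_mul_nonneg_right h2 h3

lemma zero_of_self (hκ : 0 < κ) {a : A} (h : F a a = 0) (b : A) : F a b = 0 := by
  have h1 := L.frame a a
  rw [h, mul_zero, Finset.sum_eq_zero_iff_of_nonneg (fun q _ => mul_self_nonneg _)] at h1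
  have h2 := L.frame a b
  rw [Finset.sum_eq_zero] at h2
  · have h3 : (κ : ℚ) ≠ 0 := by positivity
    exact (mul_eq_zero.mp h2.symm).resolve_left h3
  · intro q hq
    have := h1 q hq
    rw [mul_self_eq_zero.mp this, zero_mul]

/-- one step of the chain -/
lemma step {z : A} (hz : F z z ≠ 0) {n : ℕ} (hn : (n : ℚ) = m * F z z) {l' : ℕ}
    (hl : l = l' + 1) : Lev (proj F z) e κ n l' := by
  refine ⟨?_, ?_, ?_, ?_⟩
  · intro a b
    rw [proj_apply, proj_apply, L.sym a b, L.sym a z, L.sym z b]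
    ring
  · intro a b
    simp only [proj_apply]
    have e1 : ∀ q, (F (e q) a - F (e q) z * F z a / F z z) *
        (F (e q) b - F (e q) z * F z b / F z z) =
        F (e q) a * F (e q) b - (F z b / F z z) * (F (e q) a * F (e q) z)
        - (F z a / F z z) * (F (e q) z * F (e q) b)
        + (F z a / F z z) * (F z b / F z z) * (F (e q) z * F (e q) z) := by
      intro q; ring
    rw [Finset.sum_congr rfl (fun q _ => e1 q), Finset.sum_add_distrib, Finset.sum_sub_distrib,
      Finset.sum_sub_distrib, ← Finset.mul_sum, ← Finset.mul_sum, ← Finset.mul_sum,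
      L.frame, L.frame, L.frame, L.frame, L.sym a z]
    field_simp
    ring
  · simp only [proj_apply]
    have e1 : ∀ q, F (e q) (e q) - F (e q) z * F z (e q) / F z z =
        F (e q) (e q) - (F z z)⁻¹ * (F (e q) z * F (e q) z) := by
      intro q
      rw [L.sym z (e q)]
      ring
    rw [Finset.sum_congr rfl (fun q _ => e1 q), Finset.sum_sub_distrib, ← Finset.mul_sum,
      L.frame, L.trace, hl]
    push_cast
    field_simp
    ring
  · intro s x y
    rw [hn, mul_assoc, det_proj F z hz]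
    exact L.minors (s + 1) _ _

end Lev

end Pool.Agent.N20
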