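import Mathlib
import Pool.Agent.N20.Lat

/-!
The potential along a chain of projections.
-/

set_option autoImplicit false

open scoped BigOperators

namespace Pool.Agent.N20

variable {A : Type*} [AddCommGroup A] {ι : Type*} [Fintype ι]

/-- primitivity of `z` with respect to the form -/
def Prim (F : A →+ A →+ ℚ) (z : A) : Prop :=
  ∀ (y : A) (β : ℚ), (∀ b, F y b = β * F z b) → β ∈ ZZ

lemma ZZ_of_coprime {x : ℚ} {a b : ℕ} (hab : Nat.Coprime a b) (ha : (a : ℚ) * x ∈ ZZ)
    (hb : (b : ℚ) * x ∈ ZZ) : x ∈ ZZ := by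
  have h := Nat.gcd_eq_gcd_ab a b
  rw [Nat.coprime_iff_gcd_eq_one.mp hab] at h
  have h1 : x = (a.gcdA b : ℚ) * (a * x) + (a.gcdB b : ℚ) * (b * x) := by
    have h2 : (1 : ℚ) = a * a.gcdA b + b * a.gcdB b := by exact_mod_cast h
    calc x = 1 * x := (one_mul x).symm
      _ = (a * a.gcdA b + b * a.gcdB b) * x := by rw [← h2]
      _ = _ := by ring
  rw [h1]
  exact add_mem (mul_mem (intCast_ZZ _) ha) (mul_mem (intCast_ZZ _) hb)

/-- an element of minimal norm among those satisfying an inherited condition is primitive -/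
lemma prim_of_min {F : A →+ A →+ ℚ} {m n : ℕ} (hF : ∀ x b, (m : ℚ) * F x b ∈ ZZ)
    (hsym : ∀ a b, F a b = F b a) (hpos : ∀ a, 0 ≤ F a a) (P : A → Prop) {z : A}
    (hn : (n : ℚ) = m * F z z) (hz : F z z ≠ 0) (hm : 0 < m)
    (hP : ∀ (y : A) (d : ℕ), 2 ≤ d → (∀ b, (d : ℚ) * F y b = F z b) → P y)
    (hmin : ∀ (y : A) (k : ℕ), P y → (k : ℚ) = m * F y y → n ≤ k) : Prim F z := by
  intro y β hβ
  by_contra hcon
  set d := β.den with hd
  have hd0 : d ≠ 0 := β.den_nz
  have hd1 : d ≠ 1 := by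
    intro h
    apply hcon
    refine ⟨β.num, ?_⟩
    simp only [eq_intCast]
    have := Rat.num_div_den β
    rw [← hd, h, Nat.cast_one, div_one] at this
    exact this
  have hd2 : 2 ≤ d := by omega
  have hdQ : (d : ℚ) ≠ 0 := by exact_mod_cast hd0
  have hco : IsCoprime β.num (d : ℤ) := by
    rw [Int.isCoprime_iff_gcd_eq_one]
    exact β.reduced
  obtain ⟨u, v, huv⟩ := hco
  set y₀ : A := u • y + v • z with hy₀
  have h1 : ∀ b, (d : ℚ) * F y₀ b = F z b := by
    intro b
    have h2 : F y₀ b = u * F y b + v * F z b := by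
      rw [hy₀, map_add, AddMonoidHom.add_apply, map_zsmul, map_zsmul]
      simp [zsmul_eq_mul]
    have h3 : β * d = β.num := by
      rw [hd]
      exact Rat.mul_den_eq_num β
    have h4 : (u : ℚ) * β.num + v * d = 1 := by exact_mod_cast huv
    rw [h2, hβ]
    calc (d : ℚ) * (u * (β * F z b) + v * F z b) = (u * (β * d) + v * d) * F z b := by ring
      _ = F z b := by rw [h3, h4, one_mul]
  have hP0 := hP y₀ d hd2 h1
  have h5 : (d : ℚ) ^ 2 * F y₀ y₀ = F z z := by
    have h6 := h1 y₀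
    have h7 := h1 z
    rw [hsym z y₀] at h6
    rw [pow_two, mul_assoc, h6, h7]
  have h8 := hF y₀ y₀
  obtain ⟨k, hk⟩ := h8
  simp only [eq_intCast] at hk
  have hk0 : 0 ≤ k := by
    have : (0 : ℚ) ≤ k := by
      rw [hk]
      exact mul_nonneg (by positivity) (hpos y₀)
    exact_mod_cast this
  obtain ⟨k', rfl⟩ := Int.eq_ofNat_of_zero_le hk0
  have h9 := hmin y₀ k' hP0 (by simpa using hk)
  have h10 : (n : ℚ) = d ^ 2 * k' := by
    rw [hn, ← h5]
    have : ((k' : ℕ) : ℚ) = m * F y₀ y₀ := by simpa using hk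
    rw [this]
    ring
  have h11 : n = d ^ 2 * k' := by exact_mod_cast h10
  have hn0 : n ≠ 0 := by
    rintro rfl
    have hm' : (m : ℚ) ≠ 0 := by positivity
    rw [Nat.cast_zero] at hn
    exact hz ((mul_eq_zero.mp hn.symm).resolve_left hm')
  have hk'0 : 0 < k' := by
    rcases Nat.eq_zero_or_pos k' with h | h
    · rw [h, mul_zero] at h11; exact absurd h11 hn0
    · exact h
  have h12 : 4 ≤ d ^ 2 := by nlinarith
  have h13 : 4 * k' ≤ d ^ 2 * k' := Nat.mul_le_mul_right k' h12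
  omega

/-- integrality of the coefficient `τ` -/
lemma tau_mem {F : A →+ A →+ ℚ} {e : ι → A} {κ m l : ℕ} (L : Lev F e κ m l) {z : A}
    (hz : F z z ≠ 0) {n : ℕ} (hn : (n : ℚ) = m * F z z) (hco : Nat.Coprime n κ)
    (hprim : Prim F z) {x : A} {k : ℕ} (hk : ∀ b, (k : ℚ) * proj F z x b ∈ ZZ) :
    (k : ℚ) * F x z / F z z ∈ ZZ := by
  set τ : ℚ := (k : ℚ) * F x z / F z z with hτ
  have hproj : ∀ b, (k : ℚ) * proj F z x b = k * F x b - τ * F z b := by
    intro b
    rw [proj_apply, hτ]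
    ring
  choose t ht using fun q => hk (e q)
  simp only [eq_intCast] at ht
  set y : A := ∑ q, t q • e q with hy
  have h1 : ∀ b, F y b = κ * (k * F x b - τ * F z b) := by
    intro b
    rw [hy, map_sum, AddMonoidHom.finsetSum_apply]
    have e1 : ∀ q, (F (t q • e q)) b = k * (F (e q) x * F (e q) b) - τ * (F (e q) z * F (e q) b) := by
      intro q
      rw [map_zsmul]
      have : (t q • F (e q)) b = (t q : ℚ) * F (e q) b := by simp [zsmul_eq_mul]
      rw [this, ht q, hproj, L.sym x (e q), L.sym z (e q)]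
      ring
    rw [Finset.sum_congr rfl (fun q _ => e1 q), Finset.sum_sub_distrib, ← Finset.mul_sum,
      ← Finset.mul_sum, L.frame, L.frame]
    ring
  have h2 : (κ : ℚ) * τ ∈ ZZ := by
    apply hprim ((κ * k : ℤ) • x - y)
    intro b
    have : (F ((κ * k : ℤ) • x - y)) b = κ * k * F x b - F y b := by
      rw [map_sub, AddMonoidHom.sub_apply, map_zsmul]
      simp [zsmul_eq_mul]
    rw [this, h1]
    ring
  have h3 : (n : ℚ) * τ ∈ ZZ := by
    have : (n : ℚ) * τ = k * (m * F x z) := by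
      rw [hn, hτ]
      field_simp
    rw [this]
    exact mul_mem (natCast_ZZ _) (L.int1 x z)
  exact ZZ_of_coprime hco h3 h2

section stepineq

variable {F : A →+ A →+ ℚ} {e : ι → A} {κ m l n : ℕ} (L : Lev F e κ m l) {z : A}
  (hm : 0 < m) (hz : F z z ≠ 0) (hn : (n : ℚ) = m * F z z) (hn0 : 0 < n)
  (hco : Nat.Coprime n κ) (hprim : Prim F z) (hF' : ∀ x b, (n : ℚ) * proj F z x b ∈ ZZ)

include L hm hz hn hn0 hco hprim hF'

/-- the general step inequality -/
lemma W_step (x : A) : W F x ≤ (1 - 1 / (od F z : ℚ) ^ 2) * (F x z ^ 2 / F z z ^ 2) +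
    W (proj F z) x := by
  have hF := L.int1
  set k := od (proj F z) x with hk
  have hk0 : 0 < k := od_pos hn0 hF' x
  have hkm := od_mem hn0 hF' x
  rw [← hk] at hkm
  have hτ := tau_mem L hz hn hco hprim hkm
  set τ : ℚ := (k : ℚ) * F x z / F z z with hτd
  have ho0 : 0 < od F x := od_pos hm hF x
  have hs0 : 0 < od F z := od_pos hm hF z
  have hkQ : (0 : ℚ) < k := by exact_mod_cast hk0
  have hoQ : (0 : ℚ) < od F x := by exact_mod_cast ho0
  have hsQ : (1 : ℚ) ≤ od F z := by exact_mod_cast hs0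
  have hproj : ∀ b, (k : ℚ) * proj F z x b = k * F x b - τ * F z b := by
    intro b
    rw [proj_apply, hτd]
    ring
  have hfr : F x z ^ 2 / F z z ^ 2 = τ ^ 2 / (k : ℚ) ^ 2 := by
    rw [hτd]
    field_simp
  rw [hfr]
  unfold W
  rw [← hk]
  have hs1 : (0 : ℚ) ≤ 1 - 1 / (od F z : ℚ) ^ 2 := by
    rw [sub_nonneg, div_le_one (by positivity)]
    nlinarith
  by_cases h0 : τ = 0
  · have h1 : od F x ≤ k := by
      apply od_le hk0
      intro b
      have := hkm b
      rw [hproj, h0, zero_mul, sub_zero] at this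
      exact this
    have h1Q : (od F x : ℚ) ≤ k := by exact_mod_cast h1
    have h2 : 1 / (k : ℚ) ^ 2 ≤ 1 / (od F x : ℚ) ^ 2 := by
      apply one_div_le_one_div_of_le (by positivity)
      nlinarith
    have h3 : 0 ≤ (1 - 1 / (od F z : ℚ) ^ 2) * (τ ^ 2 / (k : ℚ) ^ 2) :=
      mul_nonneg hs1 (by positivity)
    linarith
  · have hτ1 := one_le_sq_of_ZZ hτ h0
    have h1 : od F x ≤ k * od F z := by
      apply od_le (Nat.mul_pos hk0 hs0)
      intro b
      have h2 : ((k * od F z : ℕ) : ℚ) * F x b =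
          od F z * (k * proj F z x b) + τ * (od F z * F z b) := by
        rw [hproj]
        push_cast
        ring
      rw [h2]
      exact add_mem (mul_mem (natCast_ZZ _) (hkm b)) (mul_mem hτ (od_mem hm hF z b))
    have h1Q : (od F x : ℚ) ≤ k * od F z := by exact_mod_cast h1
    have h2 : 1 / ((k : ℚ) * od F z) ^ 2 ≤ 1 / (od F x : ℚ) ^ 2 := by
      apply one_div_le_one_div_of_le (by positivity)
      nlinarith
    have h3 : (1 - 1 / (od F z : ℚ) ^ 2) * (1 / (k : ℚ) ^ 2) ≤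
        (1 - 1 / (od F z : ℚ) ^ 2) * (τ ^ 2 / (k : ℚ) ^ 2) := by
      apply mul_le_mul_of_nonneg_left _ hs1
      apply div_le_div_of_nonneg_right hτ1 (by positivity)
    have h4 : (1 - 1 / (od F z : ℚ) ^ 2) * (1 / (k : ℚ) ^ 2) + (1 - 1 / (k : ℚ) ^ 2) =
        1 - 1 / ((k : ℚ) * od F z) ^ 2 := by
      have : (od F z : ℚ) ≠ 0 := by linarith
      field_simp
      ring
    linarith

/-- the first step inequality -/
lemma top_step (x : A) (hx : F x z ≠ 0) :
    1 ≤ F x z ^ 2 / F z z ^ 2 + W (proj F z) x := by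
  set k := od (proj F z) x with hk
  have hk0 : 0 < k := od_pos hn0 hF' x
  have hkm := od_mem hn0 hF' x
  rw [← hk] at hkm
  have hτ := tau_mem L hz hn hco hprim hkm
  set τ : ℚ := (k : ℚ) * F x z / F z z with hτd
  have hkQ : (0 : ℚ) < k := by exact_mod_cast hk0
  have hfr : F x z ^ 2 / F z z ^ 2 = τ ^ 2 / (k : ℚ) ^ 2 := by
    rw [hτd]
    field_simp
  rw [hfr]
  unfold W
  rw [← hk]
  have h0 : τ ≠ 0 := by
    rw [hτd]
    exact div_ne_zero (mul_ne_zero hkQ.ne' hx) hz
  have hτ1 := one_le_sq_of_ZZ hτ h0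
  have : 1 / (k : ℚ) ^ 2 ≤ τ ^ 2 / (k : ℚ) ^ 2 := div_le_div_of_nonneg_right hτ1 (by positivity)
  linarith

end stepineq

section unit

variable {F : A →+ A →+ ℚ} {e : ι → A} {κ m l n : ℕ} (L : Lev F e κ m l) {z : A}
  (hm : 0 < m)

include L hm

/-- elements of norm one have small order -/
lemma od_sq_le (hz : F z z = 1) : (od F z) ^ 2 ≤ m := by
  have hF := L.int1
  obtain ⟨b, j, hb⟩ := exists_b hm hF z
  set s := od F z with hs
  have hs0 : 0 < s := od_pos hm hF z
  have hsQ : (s : ℚ) ≠ 0 := by positivity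
  have h1 := L.int2 z b z b
  rw [hz, one_mul, L.sym b z, hb] at h1
  have h2 : (m : ℚ) * (1 / s + j) ^ 2 ∈ ZZ := by
    have : (m : ℚ) * (1 / s + j) ^ 2 = m * F b b -
        m * (F b b - (1 / s + j) * (1 / s + j)) := by ring
    rw [this]
    exact sub_mem (hF b b) h1
  obtain ⟨c, hc⟩ := h2
  simp only [eq_intCast] at hc
  have h3 : (m : ℚ) * (1 + j * s) ^ 2 = c * s ^ 2 := by
    rw [hc]
    field_simp
    try ring
  have h4 : (m : ℤ) * (1 + j * s) ^ 2 = c * (s : ℤ) ^ 2 := by exact_mod_cast h3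
  have hcop : IsCoprime ((s : ℤ) ^ 2) ((1 + j * s) ^ 2) := by
    apply IsCoprime.pow
    refine ⟨-j, 1, ?_⟩
    ring
  have h5 : (s : ℤ) ^ 2 ∣ (m : ℤ) := by
    have h5' : (s : ℤ) ^ 2 ∣ (m : ℤ) * (1 + j * s) ^ 2 := ⟨c, by rw [h4]; ring⟩
    exact hcop.dvd_of_dvd_mul_right h5'
  have h6 : s ^ 2 ∣ m := by exact_mod_cast h5
  exact Nat.le_of_dvd hm h6

/-- in the unit case elements orthogonal to `z` are trivial -/
lemma od_eq_one (hs : od F z = m) (hn : (n : ℚ) = m * F z z) {x : A} (hx : F x z = 0) :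
    od F x = 1 := by
  have hF := L.int1
  obtain ⟨b, j, hb⟩ := exists_b hm hF z
  rw [hs] at hb
  have hmQ : (m : ℚ) ≠ 0 := by positivity
  -- the relation
  have hrel : ∀ y, F x y - (m * F z y) * F x b ∈ ZZ := by
    intro y
    have h1 := L.int2 z x b y
    have h2 : F x y - (m * F z y) * F x b =
        m * (F z b * F x y - F z y * F x b) - j * (m * F x y) := by
      rw [hb]
      field_simp
      ring
    rw [h2]
    exact sub_mem h1 (mul_mem (intCast_ZZ j) (hF x y))
  have h1 : (n : ℚ) * F x b ∈ ZZ := by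
    have := hrel z
    rw [hx, zero_sub, ← hn] at this
    simpa using neg_mem this
  -- coprimality
  have hco : Nat.Coprime n m := by
    have h2 := L.int2 z b z b
    rw [L.sym b z, hb] at h2
    obtain ⟨c, hc⟩ := h2
    obtain ⟨f, hf⟩ := hF b b
    simp only [eq_intCast] at hc hf
    have h3 : (n : ℚ) * f - (1 + j * m) ^ 2 = c * m := by
      rw [hf, hc, hn]
      field_simp
    have h4 : (n : ℤ) * f - (1 + j * m) ^ 2 = c * m := by exact_mod_cast h3
    have : IsCoprime (n : ℤ) (m : ℤ) := by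
      refine ⟨f, -(c + 2 * j + j ^ 2 * m), ?_⟩
      linear_combination h4
    exact_mod_cast this
  have h5 : F x b ∈ ZZ := ZZ_of_coprime hco h1 (hF x b)
  have h6 : od F x ≤ 1 := by
    apply od_le one_pos
    intro y
    rw [Nat.cast_one, one_mul]
    have : F x y = (F x y - (m * F z y) * F x b) + (m * F z y) * F x b := by ring
    rw [this]
    exact add_mem (hrel y) (mul_mem (hF z y) h5)
  have h7 := od_pos hm hF x
  omega

end unit

end Pool.Agent.N20
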