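import Mathlib
import Pool.Agent.N20.Chain

/-!
The bound for the number of vectors of a tight frame of a form with integral minors.
-/

set_option autoImplicit false

open scoped BigOperators

namespace Pool.Agent.N20

variable {A : Type*} [AddCommGroup A] {ι : Type*} [Fintype ι]

lemma Lev.rank_pos {F : A →+ A →+ ℚ} {e : ι → A} {κ m l : ℕ} (L : Lev F e κ m l)
    (hκ : 0 < κ) {z : A} (hz : F z z ≠ 0) : ∃ l', l = l' + 1 := by
  rcases l with _ | l'
  · exfalso
    have h1 := L.trace
    rw [Nat.cast_zero, mul_zero,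
      Finset.sum_eq_zero_iff_of_nonneg (fun q _ => L.nonneg hκ (e q))] at h1
    have h2 := L.frame z z
    rw [Finset.sum_eq_zero] at h2
    · have h3 : (κ : ℚ) ≠ 0 := by positivity
      exact hz ((mul_eq_zero.mp h2.symm).resolve_left h3)
    · intro q hq
      rw [L.zero_of_self hκ (h1 q hq) z, zero_mul]
  · exact ⟨l', rfl⟩

lemma Lev.sum_sq {F : A →+ A →+ ℚ} {e : ι → A} {κ m l n : ℕ} (L : Lev F e κ m l)
    {z : A} (hz : F z z ≠ 0) (hm : 0 < m) (hn : (n : ℚ) = m * F z z) :
    ∑ q, F (e q) z ^ 2 / F z z ^ 2 = κ * ((m : ℚ) / n) := by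
  have h1 : ∀ q, F (e q) z ^ 2 / F z z ^ 2 = (F z z ^ 2)⁻¹ * (F (e q) z * F (e q) z) := by
    intro q
    ring
  rw [Finset.sum_congr rfl (fun q _ => h1 q), ← Finset.mul_sum, L.frame, hn]
  have hmQ : (m : ℚ) ≠ 0 := by positivity
  field_simp

/-- a vector of minimal positive norm with an inherited property -/
lemma Lev.exists_min {F : A →+ A →+ ℚ} {e : ι → A} {κ m l : ℕ} (L : Lev F e κ m l)
    (hκ : 0 < κ) (P : A → Prop) {y : A} (hy : P y) :
    ∃ (z : A) (n : ℕ), P z ∧ (n : ℚ) = m * F z z ∧
      ∀ (y : A) (k : ℕ), P y → (k : ℚ) = m * F y y → n ≤ k := by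
  have hnat : ∀ y : A, ∃ k : ℕ, (k : ℚ) = m * F y y := by
    intro y
    obtain ⟨k, hk⟩ := L.int1 y y
    simp only [eq_intCast] at hk
    have hk0 : 0 ≤ k := by
      have : (0 : ℚ) ≤ k := by
        rw [hk]
        exact mul_nonneg (by positivity) (L.nonneg hκ y)
      exact_mod_cast this
    obtain ⟨k', rfl⟩ := Int.eq_ofNat_of_zero_le hk0
    exact ⟨k', by simpa using hk⟩
  have hex : ∃ n : ℕ, ∃ z : A, P z ∧ (n : ℚ) = m * F z z := by
    obtain ⟨k, hk⟩ := hnat y
    exact ⟨k, y, hy, hk⟩
  classical
  obtain ⟨z, hz, hn⟩ := Nat.find_spec hex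
  exact ⟨z, Nat.find hex, hz, hn, fun y k hy hk => Nat.find_min' hex ⟨y, hy, hk⟩⟩

/-- The potential estimate. -/
theorem main_ind {e : ι → A} {κ p : ℕ} (hκ0 : 0 < κ)
    (hκ : ∀ n, 0 < n → n < p → Nat.Coprime n κ) :
    ∀ (l m : ℕ) (F : A →+ A →+ ℚ), 0 < m → m < p → Lev F e κ m l →
      ∑ q, W F (e q) ≤ κ * U l m := by
  intro l
  induction l with
  | zero =>
    intro m F hm hmp L
    have h1 : ∀ q, W F (e q) = 0 := by
      intro q
      have h2 : F (e q) (e q) = 0 := by
        by_contra hne
        obtain ⟨l', hl'⟩ := L.rank_pos hκ0 hne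
        omega
      have h3 : od F (e q) ≤ 1 := by
        apply od_le one_pos
        intro b
        rw [L.zero_of_self hκ0 h2 b, mul_zero]
        exact zero_mem _
      have h4 := od_pos hm L.int1 (e q)
      have h5 : od F (e q) = 1 := by omega
      unfold W
      rw [h5]
      norm_num
    rw [Finset.sum_eq_zero (fun q _ => h1 q)]
    exact mul_nonneg (by positivity) (U_nonneg hm)
  | succ l' ih =>
    intro m F hm hmp L
    have hκQ : (0 : ℚ) < κ := by exact_mod_cast hκ0
    have hmQ : (0 : ℚ) < m := by exact_mod_cast hm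
    have hF := L.int1
    by_cases hbad : ∃ y : A, (1 - 1 / (m : ℚ)) * F y y < W F y
    · obtain ⟨y, hy⟩ := hbad
      obtain ⟨z, n, hz, hn, hmin⟩ :=
        L.exists_min hκ0 (fun y => (1 - 1 / (m : ℚ)) * F y y < W F y) hy
      have hm1 : (1 : ℚ) ≤ m := by exact_mod_cast hm
      have h1m : (0 : ℚ) ≤ 1 - 1 / (m : ℚ) := by
        rw [sub_nonneg, div_le_one hmQ]
        exact hm1
      have hzz0 : F z z ≠ 0 := by
        intro h0
        have h3 : od F z ≤ 1 := by
          apply od_le one_pos
          intro b
          rw [L.zero_of_self hκ0 h0 b, mul_zero]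
          exact zero_mem _
        have h4 := od_pos hm hF z
        have h5 : od F z = 1 := by omega
        rw [h0, mul_zero] at hz
        unfold W at hz
        rw [h5] at hz
        norm_num at hz
      have hzzpos : 0 < F z z := lt_of_le_of_ne (L.nonneg hκ0 z) (Ne.symm hzz0)
      -- order of z
      have hs0 : 0 < od F z := od_pos hm hF z
      have hsdvd : od F z ∣ m := od_dvd hm hF (hF z)
      obtain ⟨r', hr'⟩ := od_mem hm hF z z
      have hW : W F z = 1 - 1 / (od F z : ℚ) ^ 2 := rfl
      generalize hs : od F z = s at hs0 hsdvd hr' hW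
      simp only [eq_intCast] at hr'
      obtain ⟨d, hd⟩ := hsdvd
      have hsQ : (0 : ℚ) < s := by exact_mod_cast hs0
      have hr0 : 0 < r' := by
        have : (0 : ℚ) < r' := by rw [hr']; exact mul_pos hsQ hzzpos
        exact_mod_cast this
      obtain ⟨r, rfl⟩ := Int.eq_ofNat_of_zero_le hr0.le
      have hr : (r : ℚ) = s * F z z := by simpa using hr'
      have hr1 : 1 ≤ r := by omega
      have hd0 : 0 < d := by
        rcases Nat.eq_zero_or_pos d with h | h
        · rw [h, mul_zero] at hd; omega
        · exact h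
      have hdQ : (0 : ℚ) < d := by exact_mod_cast hd0
      have hmds : m = d * s := by rw [hd, mul_comm]
      have hndr : n = d * r := by
        have : (n : ℚ) = d * r := by
          rw [hn, hr, hmds]
          push_cast
          ring
        exact_mod_cast this
      have hs2 : 2 ≤ s := by
        by_contra hlt
        have : s = 1 := by omega
        rw [this, Nat.cast_one, one_pow, div_one, sub_self] at hW
        rw [hW] at hz
        have : (0 : ℚ) ≤ (1 - 1 / (m : ℚ)) * F z z := mul_nonneg h1m hzzpos.le
        linarith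
      have hFzz : F z z = r / s := by
        rw [hr]
        field_simp
      have hrs : r + 1 ≤ s := by
        by_contra hlt
        have hrs' : s ≤ r := by omega
        rcases hrs'.eq_or_lt with h | h
        · have hF1 : F z z = 1 := by
            rw [hFzz, ← h]
            exact div_self hsQ.ne'
          have h2 := od_sq_le L hm hF1
          rw [hs] at h2
          rw [hF1, mul_one, hW] at hz
          have h3 : (s : ℚ) ^ 2 ≤ m := by exact_mod_cast h2
          have h4 : 1 / (m : ℚ) ≤ 1 / (s : ℚ) ^ 2 :=
            one_div_le_one_div_of_le (by positivity) h3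
          linarith
        · have h1 : (s : ℚ) + 1 ≤ r := by exact_mod_cast h
          rw [hFzz, hW] at hz
          have hsm : (s : ℚ) ≤ m := by
            have : s ≤ m := by rw [hmds]; exact Nat.le_mul_of_pos_left s hd0
            exact_mod_cast this
          have h4 : 1 / (m : ℚ) ≤ 1 / (s : ℚ) := one_div_le_one_div_of_le hsQ hsm
          have h5 : (1 - 1 / (s : ℚ)) * (r / s) ≤ (1 - 1 / (m : ℚ)) * (r / s) := by
            apply mul_le_mul_of_nonneg_right _ (by positivity)
            linarith
          have h6 : 1 - 1 / (s : ℚ) ^ 2 ≤ (1 - 1 / (s : ℚ)) * (r / s) := by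
            have h7 : (s : ℚ) + 1 ≤ r := h1
            have h8 : (0 : ℚ) ≤ 1 - 1 / (s : ℚ) := by
              rw [sub_nonneg, div_le_one hsQ]
              exact_mod_cast hs0
            have h9 : ((s : ℚ) + 1) / s ≤ r / s := div_le_div_of_nonneg_right h7 hsQ.le
            calc 1 - 1 / (s : ℚ) ^ 2 = (1 - 1 / (s : ℚ)) * (((s : ℚ) + 1) / s) := by
                  field_simp
                  ring
              _ ≤ _ := mul_le_mul_of_nonneg_left h9 h8
          linarith
      have hn0 : 0 < n := by rw [hndr]; exact Nat.mul_pos hd0 (by omega)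
      have hnm : n < m := by
        rw [hndr, hmds]
        exact Nat.mul_lt_mul_of_pos_left (by omega) hd0
      have hco : Nat.Coprime n κ := hκ n hn0 (by omega)
      have hprim : Prim F z := by
        apply prim_of_min hF L.sym (L.nonneg hκ0) (fun y => (1 - 1 / (m : ℚ)) * F y y < W F y)
          hn hzz0 hm _ hmin
        intro y d' hd' hyz
        have hyz1 : (d' : ℚ) ^ 2 * F y y = F z z := by
          have h6 := hyz y
          have h7 := hyz z
          rw [L.sym z y] at h6
          rw [pow_two, mul_assoc, h6, h7]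
        have hd'Q : (2 : ℚ) ≤ d' := by exact_mod_cast hd'
        have h1 : F y y ≤ F z z := by
          have := L.nonneg hκ0 y
          have h4 : (1 : ℚ) ≤ (d' : ℚ) ^ 2 := by nlinarith
          rw [← hyz1]
          exact le_mul_of_one_le_left this h4
        have h2 : od F z ≤ od F y := by
          apply od_le (od_pos hm hF y)
          intro b
          rw [← hyz b]
          have : (od F y : ℚ) * (d' * F y b) = d' * (od F y * F y b) := by ring
          rw [this]
          exact mul_mem (natCast_ZZ _) (od_mem hm hF y b)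
        have h3 : W F z ≤ W F y := by
          unfold W
          have h4 : (od F z : ℚ) ≤ od F y := by exact_mod_cast h2
          have h5 : (0 : ℚ) < od F z := by exact_mod_cast od_pos hm hF z
          have h6 : 1 / (od F y : ℚ) ^ 2 ≤ 1 / (od F z : ℚ) ^ 2 := by
            apply one_div_le_one_div_of_le (by positivity)
            nlinarith
          linarith
        calc (1 - 1 / (m : ℚ)) * F y y ≤ (1 - 1 / (m : ℚ)) * F z z :=
              mul_le_mul_of_nonneg_left h1 h1m
          _ < W F z := hz
          _ ≤ W F y := h3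
      have L' : Lev (proj F z) e κ n l' := L.step hzz0 hn rfl
      have hF' := L'.int1
      have hIH := ih n (proj F z) hn0 (by omega) L'
      have hsum := L.sum_sq hzz0 hm hn
      by_cases hd1 : d = 1
      · -- unit case
        have hsm : od F z = m := by rw [hs, hmds, hd1, one_mul]
        have hstep : ∀ q, W F (e q) ≤ (1 - 1 / (m : ℚ) ^ 2) *
            (F (e q) z ^ 2 / F z z ^ 2 + W (proj F z) (e q)) := by
          intro q
          have h1m2 : (0 : ℚ) ≤ 1 - 1 / (m : ℚ) ^ 2 := by
            rw [sub_nonneg, div_le_one (by positivity)]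
            nlinarith
          by_cases hx : F (e q) z = 0
          · have h1 := od_eq_one L hm hsm hn hx
            have h2 : W F (e q) = 0 := by
              unfold W
              rw [h1]
              norm_num
            rw [h2]
            apply mul_nonneg h1m2
            have := W_nonneg hn0 hF' (e q)
            positivity
          · have h1 := top_step L hm hzz0 hn hn0 hco hprim hF' (e q) hx
            have h2 := W_le hm hF (e q)
            nlinarith
        calc ∑ q, W F (e q) ≤ ∑ q, (1 - 1 / (m : ℚ) ^ 2) *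
            (F (e q) z ^ 2 / F z z ^ 2 + W (proj F z) (e q)) :=
              Finset.sum_le_sum fun q _ => hstep q
          _ = (1 - 1 / (m : ℚ) ^ 2) * (κ * ((m : ℚ) / n) + ∑ q, W (proj F z) (e q)) := by
              rw [← Finset.mul_sum, Finset.sum_add_distrib, hsum]
          _ ≤ (1 - 1 / (m : ℚ) ^ 2) * (κ * ((m : ℚ) / n) + κ * U l' n) := by
              apply mul_le_mul_of_nonneg_left _ (by
                rw [sub_nonneg, div_le_one (by positivity)]
                nlinarith)
              linarith
          _ = κ * ((1 - 1 / (m : ℚ) ^ 2) * ((m : ℚ) / n + U l' n)) := by ring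
          _ ≤ κ * U (l' + 1) m := by
              apply mul_le_mul_of_nonneg_left _ hκQ.le
              have := U_unit (l := l' + 1) (m := m) (n := n) hn0 hnm (by omega)
              simpa using this
      · have hd2 : 2 ≤ d := by omega
        have hstep : ∀ q, W F (e q) ≤ (1 - 1 / (s : ℚ) ^ 2) *
            (F (e q) z ^ 2 / F z z ^ 2) + W (proj F z) (e q) := by
          intro q
          have := W_step L hm hzz0 hn hn0 hco hprim hF' (e q)
          rwa [hs] at this
        calc ∑ q, W F (e q) ≤ ∑ q, ((1 - 1 / (s : ℚ) ^ 2) *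
            (F (e q) z ^ 2 / F z z ^ 2) + W (proj F z) (e q)) :=
              Finset.sum_le_sum fun q _ => hstep q
          _ = (1 - 1 / (s : ℚ) ^ 2) * (κ * ((m : ℚ) / n)) + ∑ q, W (proj F z) (e q) := by
              rw [Finset.sum_add_distrib, ← Finset.mul_sum, hsum]
          _ ≤ (1 - 1 / (s : ℚ) ^ 2) * (κ * ((m : ℚ) / n)) + κ * U l' n := by
              linarith
          _ = κ * ((1 - 1 / (s : ℚ) ^ 2) * ((m : ℚ) / n) + U l' n) := by ring
          _ ≤ κ * U (l' + 1) m := by
              apply mul_le_mul_of_nonneg_left _ hκQ.le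
              have := U_non (l := l' + 1) (m := m) (n := n) (s := s) (d := d) (r := r)
                hs2 hd2 hr1 hrs hmds hndr (by omega)
              simpa using this
    · push Not at hbad
      calc ∑ q, W F (e q) ≤ ∑ q, (1 - 1 / (m : ℚ)) * F (e q) (e q) :=
            Finset.sum_le_sum fun q _ => hbad (e q)
        _ = κ * ((1 - 1 / (m : ℚ)) * ((l' + 1 : ℕ) : ℚ)) := by
            rw [← Finset.mul_sum, L.trace]
            ring
        _ ≤ κ * U (l' + 1) m := by
            apply mul_le_mul_of_nonneg_left _ hκQ.le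
            exact U_trace hm

/-- The abstract counting theorem. -/
theorem main_top {e : ι → A} {κ p l : ℕ} {F : A →+ A →+ ℚ} (hκ0 : 0 < κ) (hp : 0 < p)
    (hκ : ∀ n, 0 < n → n < p → Nat.Coprime n κ) (L : Lev F e κ p l)
    (hpos : ∀ q, F (e q) (e q) ≠ 0)
    (hne : ∀ z, F z z ∉ ZZ → ∀ q, F (e q) z ≠ 0) :
    Fintype.card ι ≤ κ * max p l := by
  have hκQ : (0 : ℚ) < κ := by exact_mod_cast hκ0
  have hpQ : (0 : ℚ) < p := by exact_mod_cast hp
  have hF := L.int1
  suffices h : (Fintype.card ι : ℚ) ≤ κ * max (p : ℚ) l by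
    have : ((Fintype.card ι : ℕ) : ℚ) ≤ ((κ * max p l : ℕ) : ℚ) := by
      push_cast
      exact h
    exact_mod_cast this
  by_cases hall : ∀ q, 1 ≤ F (e q) (e q)
  · calc (Fintype.card ι : ℚ) = ∑ _q : ι, (1 : ℚ) := by simp
      _ ≤ ∑ q, F (e q) (e q) := Finset.sum_le_sum fun q _ => hall q
      _ = κ * l := L.trace
      _ ≤ κ * max (p : ℚ) l := mul_le_mul_of_nonneg_left (le_max_right _ _) hκQ.le
  · push Not at hall
    obtain ⟨q₀, hq₀⟩ := hall
    obtain ⟨z, n, ⟨hz0, hz1⟩, hn, hmin⟩ :=
      L.exists_min hκ0 (fun y => F y y ≠ 0 ∧ F y y < 1) (y := e q₀) ⟨hpos q₀, hq₀⟩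
    have hzpos : 0 < F z z := lt_of_le_of_ne (L.nonneg hκ0 z) (Ne.symm hz0)
    have hn0 : 0 < n := by
      have : (0 : ℚ) < n := by rw [hn]; positivity
      exact_mod_cast this
    have hnp : n < p := by
      have : (n : ℚ) < p := by
        rw [hn]
        nlinarith
      exact_mod_cast this
    have hco := hκ n hn0 hnp
    obtain ⟨l', hl'⟩ := L.rank_pos hκ0 hz0
    have hprim : Prim F z := by
      apply prim_of_min hF L.sym (L.nonneg hκ0) (fun y => F y y ≠ 0 ∧ F y y < 1) hn hz0 hp _ hmin
      intro y d' hd' hyz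
      have hyz1 : (d' : ℚ) ^ 2 * F y y = F z z := by
        have h6 := hyz y
        have h7 := hyz z
        rw [L.sym z y] at h6
        rw [pow_two, mul_assoc, h6, h7]
      have hd'Q : (2 : ℚ) ≤ d' := by exact_mod_cast hd'
      refine ⟨?_, ?_⟩
      · intro h0
        rw [h0, mul_zero] at hyz1
        exact hz0 hyz1.symm
      · have := L.nonneg hκ0 y
        nlinarith
    have L' : Lev (proj F z) e κ n l' := L.step hz0 hn hl'
    have hF' := L'.int1
    have hIH := main_ind hκ0 hκ l' n (proj F z) hn0 hnp L'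
    have hsum := L.sum_sq hz0 hp hn
    have hnotZ : F z z ∉ ZZ := by
      rintro ⟨c, hc⟩
      simp only [eq_intCast] at hc
      have h1 : (0 : ℚ) < c := by rw [hc]; exact hzpos
      have h2 : (c : ℚ) < 1 := by rw [hc]; exact hz1
      have h3 : 0 < c := by exact_mod_cast h1
      have h4 : c < 1 := by exact_mod_cast h2
      omega
    calc (Fintype.card ι : ℚ) = ∑ _q : ι, (1 : ℚ) := by simp
      _ ≤ ∑ q, (F (e q) z ^ 2 / F z z ^ 2 + W (proj F z) (e q)) :=
          Finset.sum_le_sum fun q _ =>
            top_step L hp hz0 hn hn0 hco hprim hF' (e q) (hne z hnotZ q)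
      _ = κ * ((p : ℚ) / n) + ∑ q, W (proj F z) (e q) := by
          rw [Finset.sum_add_distrib, hsum]
      _ ≤ κ * ((p : ℚ) / n + U l' n) := by
          rw [mul_add]
          linarith
      _ ≤ κ * max (p : ℚ) l := by
          apply mul_le_mul_of_nonneg_left _ hκQ.le
          have := U_top (l := l' + 1) (p := p) (n := n) hn0 hnp (by omega)
          rw [hl']
          simpa using this

end Pool.Agent.N20
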