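import Mathlib
import Pool.Agent.N20.Main

/-!
The counting theorem for integral matrices which are multiples of projections and of rank at most
one modulo `p`.
-/

set_option autoImplicit false

open scoped BigOperators

namespace Pool.Agent.N20

/-- determinants of matrices of rank at most one modulo `p` -/
lemma det_rank_one {s : ℕ} (p : ℤ) (u v : Fin s → ℤ) (E : Matrix (Fin s) (Fin s) ℤ) :
    ∃ c : ℤ, p * Matrix.det (Matrix.of fun i j => u i * v j + p * E i j) = p ^ s * c := by
  let R : Matrix (Fin 1) (Fin s) ℤ := Matrix.of fun _ j => v j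
  let C : Matrix (Fin s) (Fin 1) ℤ := Matrix.of fun i _ => - u i
  refine ⟨(Matrix.fromBlocks (p • (1 : Matrix (Fin 1) (Fin 1) ℤ)) R C E).det, ?_⟩
  have h1 : (Matrix.of fun i j => u i * v j + p * E i j) = p • E - C * R := by
    ext i j
    simp [C, R, Matrix.mul_apply, -zsmul_eq_mul]
    ring
  have h2 : Matrix.fromBlocks 1 R C (p • E) *
      Matrix.fromBlocks (p • (1 : Matrix (Fin 1) (Fin 1) ℤ)) 0 0 (1 : Matrix (Fin s) (Fin s) ℤ) =
      Matrix.fromBlocks (1 : Matrix (Fin 1) (Fin 1) ℤ) 0 0 (p • (1 : Matrix (Fin s) (Fin s) ℤ)) *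
        Matrix.fromBlocks (p • (1 : Matrix (Fin 1) (Fin 1) ℤ)) R C E := by
    rw [Matrix.fromBlocks_multiply, Matrix.fromBlocks_multiply]
    simp only [Matrix.mul_zero, Matrix.zero_mul, Matrix.mul_one, Matrix.one_mul, add_zero,
      zero_add, Matrix.mul_smul, Matrix.smul_mul, smul_zero]
  have h3 := congrArg Matrix.det h2
  rw [Matrix.det_mul, Matrix.det_mul, Matrix.det_fromBlocks_one₁₁, ← h1,
    Matrix.det_fromBlocks_zero₂₁, Matrix.det_fromBlocks_zero₂₁, Matrix.det_smul, Matrix.det_smul,
    Matrix.det_one, Matrix.det_one] at h3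
  simp only [Fintype.card_fin, pow_one, mul_one, one_mul] at h3
  rw [mul_comm, h3]

section

variable {ι : Type*} [Fintype ι] [DecidableEq ι]

/-- the bilinear form of a matrix, with values in the rationals -/
def bil (p : ℕ) (M : ι → ι → ℤ) : (ι → ℤ) →+ (ι → ℤ) →+ ℚ :=
  AddMonoidHom.mk' (fun a => AddMonoidHom.mk'
    (fun b => ((∑ i, ∑ j, a i * b j * M i j : ℤ) : ℚ) / p)
    (by
      intro b b'
      rw [← add_div, ← Int.cast_add, ← Finset.sum_add_distrib]
      congr 2
      refine Finset.sum_congr rfl fun i _ => ?_
      rw [← Finset.sum_add_distrib]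
      refine Finset.sum_congr rfl fun j _ => ?_
      rw [Pi.add_apply]
      ring))
    (by
      intro a a'
      apply AddMonoidHom.ext
      intro b
      rw [AddMonoidHom.add_apply, AddMonoidHom.mk'_apply, AddMonoidHom.mk'_apply,
        AddMonoidHom.mk'_apply]
      rw [← add_div, ← Int.cast_add, ← Finset.sum_add_distrib]
      congr 2
      refine Finset.sum_congr rfl fun i _ => ?_
      rw [← Finset.sum_add_distrib]
      refine Finset.sum_congr rfl fun j _ => ?_
      rw [Pi.add_apply]
      ring)

lemma bil_apply (p : ℕ) (M : ι → ι → ℤ) (a b : ι → ℤ) :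
    bil p M a b = ((∑ i, ∑ j, a i * b j * M i j : ℤ) : ℚ) / p := rfl

lemma bil_single (p : ℕ) (M : ι → ι → ℤ) (q : ι) (b : ι → ℤ) :
    bil p M (Pi.single q 1) b = ((∑ j, M q j * b j : ℤ) : ℚ) / p := by
  rw [bil_apply, Finset.sum_eq_single q]
  · congr 2
    refine Finset.sum_congr rfl fun j _ => ?_
    rw [Pi.single_eq_same]
    ring
  · intro i _ hi
    apply Finset.sum_eq_zero
    intro j _
    rw [Pi.single_eq_of_ne hi]
    ring
  · intro h
    exact absurd (Finset.mem_univ _) h

lemma bil_single_single (p : ℕ) (M : ι → ι → ℤ) (q r : ι) :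
    bil p M (Pi.single q 1) (Pi.single r 1) = (M q r : ℚ) / p := by
  rw [bil_single]
  congr 2
  rw [Finset.sum_eq_single r]
  · rw [Pi.single_eq_same, mul_one]
  · intro i _ hi
    rw [Pi.single_eq_of_ne hi, mul_zero]
  · intro h
    exact absurd (Finset.mem_univ _) h

theorem mat_bound {p d l : ℕ} (hp : p.Prime) (M : ι → ι → ℤ) (hsym : ∀ i j, M i j = M j i)
    (hsq : ∀ i j, ∑ k, M i k * M k j = p ^ d * M i j) (htr : ∑ i, M i i = p ^ d * l)
    {K : Type*} [Field K] [CharP K p] (u s : ι → K) (hred : ∀ i j, (M i j : K) = u i * s j)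
    (hne : ∀ z : ι → ℤ, ∑ j, (z j : K) * s j ≠ 0 → ∀ q, ∑ j, M q j * z j ≠ 0)
    (hpos : ∀ q, M q q ≠ 0) : p * Fintype.card ι ≤ p ^ d * max p l := by
  rcases d with _ | d
  · -- defect zero
    have h1 : ∀ i, ∑ k, M i k * M i k = M i i := by
      intro i
      have := hsq i i
      rw [pow_zero, one_mul] at this
      rw [← this]
      exact Finset.sum_congr rfl fun k _ => by rw [hsym k i]
    have h2 : ∀ i, M i i = 1 := by
      intro i
      have h3 : M i i * M i i ≤ M i i := by
        conv_rhs => rw [← h1 i]
        exact Finset.single_le_sum (f := fun k => M i k * M i k)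
          (fun k _ => mul_self_nonneg _) (Finset.mem_univ i)
      have h4 : 0 ≤ M i i := (mul_self_nonneg _).trans h3
      have h5 := hpos i
      have h6 : 0 < M i i := lt_of_le_of_ne h4 (Ne.symm h5)
      nlinarith
    have h3 : ∀ i k, i ≠ k → M i k = 0 := by
      intro i k hik
      have h4 : M i i * M i i + M i k * M i k ≤ M i i := by
        conv_rhs => rw [← h1 i]
        rw [← Finset.sum_pair (f := fun k => M i k * M i k) hik]
        exact Finset.sum_le_sum_of_subset_of_nonneg (Finset.subset_univ _)
          (fun k _ _ => mul_self_nonneg _)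
      rw [h2 i] at h4
      have h5 : M i k * M i k ≤ 0 := by linarith
      exact mul_self_eq_zero.mp (le_antisymm h5 (mul_self_nonneg _))
    have h4 : Fintype.card ι ≤ 1 := by
      rw [Fintype.card_le_one_iff]
      intro i k
      by_contra hik
      have h5 := hred i i
      have h6 := hred k k
      have h7 := hred i k
      rw [h2, Int.cast_one] at h5 h6
      rw [h3 i k hik, Int.cast_zero] at h7
      rcases mul_eq_zero.mp h7.symm with h8 | h8
      · rw [h8, zero_mul] at h5
        exact one_ne_zero h5
      · rw [h8, mul_zero] at h6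
        exact one_ne_zero h6
    rw [pow_zero, one_mul]
    calc p * Fintype.card ι ≤ p * 1 := Nat.mul_le_mul_left p h4
      _ ≤ max p l := by rw [mul_one]; exact le_max_left _ _
  · have hp0 : 0 < p := hp.pos
    have hpQ : (p : ℚ) ≠ 0 := by exact_mod_cast hp.ne_zero
    set F := bil p M with hF
    set e : ι → (ι → ℤ) := fun q => Pi.single q 1 with he
    -- reduction of the form
    have hK : ∀ a b : ι → ℤ, ((∑ i, ∑ j, a i * b j * M i j : ℤ) : K) =
        (∑ i, (a i : K) * u i) * (∑ j, (b j : K) * s j) := by
      intro a b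
      rw [Finset.sum_mul_sum, Int.cast_sum]
      refine Finset.sum_congr rfl fun i _ => ?_
      rw [Int.cast_sum]
      refine Finset.sum_congr rfl fun j _ => ?_
      rw [Int.cast_mul, Int.cast_mul, hred]
      ring
    have hL : Lev F e (p ^ d) p l := by
      refine ⟨?_, ?_, ?_, ?_⟩
      · intro a b
        rw [hF, bil_apply, bil_apply, Finset.sum_comm]
        congr 2
        refine Finset.sum_congr rfl fun j _ => Finset.sum_congr rfl fun i _ => ?_
        rw [hsym i j]
        ring
      · intro a b
        have h1 : ∑ q, (∑ i, M q i * a i) * (∑ j, M q j * b j) =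
            p ^ (d + 1) * ∑ i, ∑ j, a i * b j * M i j := by
          have h2 : ∀ q, (∑ i, M q i * a i) * (∑ j, M q j * b j) =
              ∑ i, ∑ j, a i * b j * (M i q * M q j) := by
            intro q
            rw [Finset.sum_mul_sum]
            refine Finset.sum_congr rfl fun i _ => Finset.sum_congr rfl fun j _ => ?_
            rw [hsym q i]
            ring
          rw [Finset.sum_congr rfl (fun q _ => h2 q), Finset.sum_comm, Finset.mul_sum]
          refine Finset.sum_congr rfl fun i _ => ?_
          rw [Finset.sum_comm, Finset.mul_sum]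
          refine Finset.sum_congr rfl fun j _ => ?_
          rw [← Finset.mul_sum, hsq]
          ring
        have h3 : ∀ q, F (e q) a * F (e q) b =
            (((∑ i, M q i * a i) * (∑ j, M q j * b j) : ℤ) : ℚ) / (p : ℚ) ^ 2 := by
          intro q
          rw [hF, he, bil_single, bil_single]
          push_cast
          ring
        rw [Finset.sum_congr rfl (fun q _ => h3 q), ← Finset.sum_div, ← Int.cast_sum, h1, hF,
          bil_apply, Int.cast_mul]
        push_cast
        field_simp
        ring
      · have h1 : ∀ q, F (e q) (e q) = (M q q : ℚ) / p := by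
          intro q
          rw [hF, he, bil_single_single]
        rw [Finset.sum_congr rfl (fun q _ => h1 q), ← Finset.sum_div, ← Int.cast_sum, htr]
        push_cast
        field_simp
        ring
      · intro t x y
        -- integral lifts
        obtain ⟨U, V, hUV⟩ : ∃ (U V : Fin t → ℤ), ∀ i j, (p : ℤ) ∣
            (∑ a, ∑ b, x i a * y j b * M a b) - U i * V j := by
          by_cases hall : ∀ a b : ι → ℤ, (p : ℤ) ∣ ∑ i, ∑ j, a i * b j * M i j
          · exact ⟨0, 0, fun i j => by simpa using hall (x i) (y j)⟩
          · push Not at hall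
            obtain ⟨a₀, b₀, h0⟩ := hall
            have hcop : IsCoprime (∑ i, ∑ j, a₀ i * b₀ j * M i j) (p : ℤ) :=
              ((Nat.prime_iff_prime_int.mp hp).irreducible.coprime_iff_not_dvd.mpr h0).symm
            obtain ⟨w, w', hw⟩ := hcop
            refine ⟨fun i => w * ∑ a, ∑ b, x i a * b₀ b * M a b,
              fun j => ∑ a, ∑ b, a₀ a * y j b * M a b, fun i j => ?_⟩
            rw [← CharP.intCast_eq_zero_iff K p]
            have hwK := congrArg (Int.cast : ℤ → K) hw
            rw [Int.cast_add, Int.cast_mul, Int.cast_mul, Int.cast_natCast,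
              CharP.cast_eq_zero K p, mul_zero, add_zero, Int.cast_one, hK] at hwK
            rw [Int.cast_sub, Int.cast_mul, Int.cast_mul, hK, hK, hK]
            linear_combination (-(∑ i_1, (x i i_1 : K) * u i_1) * (∑ j_1, (y j j_1 : K) * s j_1)) *
              hwK
        choose E hE using hUV
        obtain ⟨c, hc⟩ := det_rank_one (p : ℤ) U V (Matrix.of E)
        have h1 : (Matrix.of fun i j => F (x i) (y j)) =
            (p : ℚ)⁻¹ • ((Matrix.of fun i j => U i * V j + (p : ℤ) * (Matrix.of E) i j).map
              (Int.cast : ℤ → ℚ)) := by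
          ext i j
          rw [Matrix.smul_apply, Matrix.map_apply, Matrix.of_apply, Matrix.of_apply,
            Matrix.of_apply, ← hE, hF, bil_apply, smul_eq_mul]
          rw [add_sub_cancel]
          rw [div_eq_inv_mul]
        rw [h1, Matrix.det_smul, Fintype.card_fin]
        have h2 : ((Matrix.of fun i j => U i * V j + (p : ℤ) * (Matrix.of E) i j).map
              (Int.cast : ℤ → ℚ)).det =
            ((Matrix.of fun i j => U i * V j + (p : ℤ) * (Matrix.of E) i j).det : ℚ) := by
          have := (Int.castRingHom ℚ).map_det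
            (Matrix.of fun i j => U i * V j + (p : ℤ) * (Matrix.of E) i j)
          simpa [RingHom.mapMatrix_apply] using this.symm
        rw [h2]
        refine ⟨c, ?_⟩
        generalize (Matrix.of fun i j => U i * V j + (p : ℤ) * (Matrix.of E) i j).det = Δ at hc
        have h3 := congrArg (Int.cast : ℤ → ℚ) hc
        push_cast at h3
        rw [eq_intCast]
        rw [mul_left_comm, h3, inv_pow, ← mul_assoc, inv_mul_cancel₀ (pow_ne_zero _ hpQ), one_mul]
    have hcop : ∀ n, 0 < n → n < p → Nat.Coprime n (p ^ d) := by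
      intro n hn0 hn
      apply Nat.Coprime.pow_right
      exact ((Nat.Prime.coprime_iff_not_dvd hp).mpr (fun h => by
        have := Nat.le_of_dvd hn0 h
        omega)).symm
    have hmain := main_top (pow_pos hp0 d) hp0 hcop hL (fun q => by
      rw [hF, he, bil_single_single]
      exact div_ne_zero (by exact_mod_cast hpos q) hpQ) (by
      intro z hz q
      have h1 : ∑ j, (z j : K) * s j ≠ 0 := by
        intro h0
        apply hz
        have h2 := hK z z
        rw [h0, mul_zero, CharP.intCast_eq_zero_iff K p] at h2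
        obtain ⟨c, hc⟩ := h2
        refine ⟨c, ?_⟩
        rw [hF, bil_apply, hc, eq_intCast]
        push_cast
        field_simp
      have h2 := hne z h1 q
      rw [hF, he, bil_single]
      exact div_ne_zero (by exact_mod_cast h2) hpQ)
    calc p * Fintype.card ι ≤ p * (p ^ d * max p l) := Nat.mul_le_mul_left p hmain
      _ = p ^ (d + 1) * max p l := by ring

end

end Pool.Agent.N20
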