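import Mathlib
import Pool.Agent.N20.Blk2
import Pool.Agent.N20.MatThm

/-!
The contribution matrix of a block.
-/

set_option autoImplicit false
set_option linter.style.haveILetI false
set_option linter.unusedSectionVars false

open scoped BigOperators Classical
open Pool.Agent.Helper884 Pool.Agent.H254R3.IN

noncomputable section

namespace Pool.Agent.N20

/-- the number of irreducible Brauer characters of `B`: the dimension of the space spanned by the
restrictions of the characters of `B` to the `p`-regular elements -/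
def lB {G : Type} [Group G] (p : ℕ) (B : Set (G → ℂ)) : ℕ :=
  Module.finrank ℂ (Submodule.span ℂ
    ((fun χ : G → ℂ => fun g : {g : G // ¬ p ∣ orderOf g} => χ g) '' B))

variable {G : Type} [Group G] [Fintype G]

lemma defect_pgroup {p : ℕ} {O : ValuationSubring ℂ} {D : Subgroup G} {B : Set (G → ℂ)}
    (hD : IsDefectGroup p O B D) : IsPGroup p D := by
  obtain ⟨x, ⟨P, rfl⟩, -, -⟩ := hD
  exact P.isPGroup'.map _

lemma uu_mem {p : ℕ} [hp : Fact p.Prime] {O : ValuationSubring ℂ} (hpO : (p : ℂ) ∈ O.nonunits)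
    {D : Subgroup G} {B : Set (G → ℂ)} (hB : IsBlock O B) (hD : IsDefectGroup p O B D)
    {χ : G → ℂ} (hχ : χ ∈ B) : uu D χ ∈ O := by
  obtain ⟨x, ⟨P, rfl⟩, hω, -⟩ := hD
  have hirr := hB.irr χ hχ
  have h1 := hω χ hχ
  have h2 : red O (omega χ x) ≠ 0 := fun h => h1 ((red_eq_zero_iff (hirr.omega_mem O x)).mp h)
  obtain ⟨h3, h4, h5⟩ := inv_mem_of_red_ne h2
  have hcard : Nat.card ((P : Subgroup (Subgroup.centralizer ({x} : Set G))).map
      (Subgroup.centralizer ({x} : Set G)).subtype) = Nat.card P :=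
    (Nat.card_congr ((P : Subgroup (Subgroup.centralizer ({x} : Set G))).equivMapOfInjective _
      (Subgroup.centralizer ({x} : Set G)).subtype_injective).toEquiv).symm
  have h6 : Nat.card P * (P : Subgroup (Subgroup.centralizer ({x} : Set G))).index =
      Nat.card (Subgroup.centralizer ({x} : Set G)) := Subgroup.card_mul_index _
  have h7 : ¬ p ∣ (P : Subgroup (Subgroup.centralizer ({x} : Set G))).index := P.not_dvd_index
  have h8 := hirr.val_eq x
  have hG0 : (Nat.card G : ℂ) ≠ 0 := by exact_mod_cast Nat.card_pos.ne'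
  have hP0 : (Nat.card P : ℂ) ≠ 0 := by exact_mod_cast Nat.card_pos.ne'
  have hk0 : ((P : Subgroup (Subgroup.centralizer ({x} : Set G))).index : ℂ) ≠ 0 := by
    exact_mod_cast (Subgroup.index_ne_zero_of_finite)
  have h9 : (Nat.card (Subgroup.centralizer ({x} : Set G)) : ℂ) =
      Nat.card P * (P : Subgroup (Subgroup.centralizer ({x} : Set G))).index := by
    exact_mod_cast h6.symm
  have h10 : uu ((P : Subgroup (Subgroup.centralizer ({x} : Set G))).map
      (Subgroup.centralizer ({x} : Set G)).subtype) χ =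
      χ x * (omega χ x)⁻¹ *
        (((P : Subgroup (Subgroup.centralizer ({x} : Set G))).index : ℂ))⁻¹ := by
    unfold uu
    rw [hcard]
    conv_rhs => rw [h8]
    rw [h9]
    field_simp
  rw [h10]
  exact O.mul_mem _ _ (O.mul_mem _ _ (hirr.val_mem O x) h4) (nat_inv_mem hpO h7)

lemma uu_ne {D : Subgroup G} {χ : G → ℂ} (hχ : IsIrr χ) : uu D χ ≠ 0 := by
  have hG0 : (Nat.card G : ℂ) ≠ 0 := by exact_mod_cast Nat.card_pos.ne'
  have hD0 : (Nat.card D : ℂ) ≠ 0 := by exact_mod_cast Nat.card_pos.ne'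
  exact div_ne_zero (mul_ne_zero hχ.one_ne hD0) hG0

/-- the sum over the `p`-regular classes -/
def SS (p : ℕ) (χ ψ : G → ℂ) : ℂ :=
  ∑ K : ConjClasses G, if p ∣ orderOf (rep K) then 0 else omega χ (rep K) * ψ (rep K)⁻¹

lemma card_mul_B {p : ℕ} (D : Subgroup G) {χ ψ : G → ℂ} (hχ : IsIrr χ) (hψ : IsCl ψ) :
    (Nat.card D : ℂ) * IC.B (cut p χ) ψ = uu D χ * SS p χ ψ := by
  have hG0 : (Nat.card G : ℂ) ≠ 0 := by exact_mod_cast Nat.card_pos.ne'
  have h1 : ∑ g : G, cut p χ g * ψ g⁻¹ = χ 1 * SS p χ ψ := by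
    rw [sum_classes]
    unfold SS
    rw [Finset.mul_sum]
    refine Finset.sum_congr rfl fun K _ => ?_
    have hcl : IsCl χ := fun g y => hχ.conj g y
    have h2 : ∀ g ∈ Finset.univ.filter (fun g => IsConj (rep K) g), cut p χ g * ψ g⁻¹ =
        cut p χ (rep K) * ψ (rep K)⁻¹ := by
      intro g hg
      have hg' := (Finset.mem_filter.mp hg).2
      obtain ⟨c, hc⟩ := isConj_iff.mp hg'
      rw [← hc, cut_cl hcl]
      congr 1
      have : (c * rep K * c⁻¹)⁻¹ = c * (rep K)⁻¹ * c⁻¹ := by group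
      rw [this, hψ]
    rw [Finset.sum_congr rfl h2, Finset.sum_const, nsmul_eq_mul]
    unfold cut
    split_ifs with h
    · ring
    · have h3 : ((Finset.univ.filter (fun g : G => IsConj (rep K) g)).card : ℂ) =
          (Nat.card {y : G // IsConj (rep K) y} : ℂ) := by
        rw [Nat.card_eq_fintype_card, Fintype.card_subtype]
      rw [h3]
      unfold omega
      have := hχ.one_ne
      field_simp
  unfold IC.B uu
  rw [h1]
  field_simp

/-- the reduction of `SS` -/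
def sr (p : ℕ) (O : ValuationSubring ℂ) (χ ψ : G → ℂ) : RF O :=
  ∑ K : ConjClasses G, if p ∣ orderOf (rep K) then 0 else
    red O (omega χ (rep K)) * red O (ψ (rep K)⁻¹)

lemma SS_mem {p : ℕ} {O : ValuationSubring ℂ} {χ ψ : G → ℂ} (hχ : IsIrr χ) (hψ : IsIrr ψ) :
    SS p χ ψ ∈ O := by
  refine sum_mem fun K _ => ?_
  split_ifs
  · exact O.zero_mem
  · exact O.mul_mem _ _ (hχ.omega_mem O _) (hψ.val_mem O _)

lemma red_SS {p : ℕ} {O : ValuationSubring ℂ} {χ ψ : G → ℂ} (hχ : IsIrr χ) (hψ : IsIrr ψ) :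
    red O (SS p χ ψ) = sr p O χ ψ := by
  unfold SS sr
  rw [red_sum]
  · refine Finset.sum_congr rfl fun K _ => ?_
    split_ifs
    · exact red_zero
    · exact red_mul (hχ.omega_mem O _) (hψ.val_mem O _)
  · intro K _
    split_ifs
    · exact O.zero_mem
    · exact O.mul_mem _ _ (hχ.omega_mem O _) (hψ.val_mem O _)

lemma sr_block {p : ℕ} {O : ValuationSubring ℂ} {B : Set (G → ℂ)} (hB : IsBlock O B)
    {χ χ' ψ : G → ℂ} (hχ : χ ∈ B) (hχ' : χ' ∈ B) : sr p O χ ψ = sr p O χ' ψ := by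
  unfold sr
  refine Finset.sum_congr rfl fun K _ => ?_
  rw [hB.red_eq hχ hχ']

/-- integrality of the contribution matrix -/
theorem contr_int {p : ℕ} [hp : Fact p.Prime] {O : ValuationSubring ℂ}
    (hpO : (p : ℂ) ∈ O.nonunits) {D : Subgroup G} {B : Set (G → ℂ)} (hB : IsBlock O B)
    (hD : IsDefectGroup p O B D) {χ ψ : G → ℂ} (hχ : χ ∈ B) (hψ : ψ ∈ B) :
    ∃ n : ℤ, (n : ℂ) = (Nat.card D : ℂ) * IC.B (cut p χ) ψ := by
  have hp0 : (p : ℂ) ≠ 0 := by exact_mod_cast hp.out.ne_zero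
  have hχi := hB.irr χ hχ
  have hψi := hB.irr ψ hψ
  have hmem : (Nat.card D : ℂ) * IC.B (cut p χ) ψ ∈ O := by
    rw [card_mul_B D hχi (fun g y => hψi.conj g y)]
    exact O.mul_mem _ _ (uu_mem hpO hB hD hχ) (SS_mem hχi hψi)
  obtain ⟨d, hd⟩ := IsPGroup.iff_card.mp (defect_pgroup hD)
  obtain ⟨n, hn⟩ := reg_int hp.out (virt_of_irr hχi) (virt_of_irr hψi)
    (Pool.Agent.R389.one_mem_pn (U := G))
  have h1 : Pool.Agent.W446.AS.pr (fun _ => (1 : ℂ))
      (fun g => if p ∣ orderOf g then 0 else ψ g * χ g⁻¹) = IC.B (cut p χ) ψ := by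
    rw [Pool.Agent.W446.AS.pr_eq]
    unfold IC.B
    congr 1
    refine Finset.sum_congr rfl fun g _ => ?_
    rw [orderOf_inv, inv_inv]
    unfold cut
    split_ifs <;> ring
  rw [h1] at hn
  have hda : d ≤ (Nat.card G).factorization p := by
    have h2 : p ^ d ∣ Nat.card G := by
      rw [← hd]
      exact Subgroup.card_subgroup_dvd_card D
    exact (hp.out.pow_dvd_iff_le_factorization Nat.card_pos.ne').mp h2
  obtain ⟨t, ht⟩ := Nat.exists_eq_add_of_le hda
  have h2 : (n : ℂ) = (p : ℂ) ^ t * ((Nat.card D : ℂ) * IC.B (cut p χ) ψ) := by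
    rw [← hn, ht, hd]
    push_cast
    ring
  have h3 : (n : ℂ) / (p : ℂ) ^ t ∈ O := by
    rw [h2, mul_div_cancel_left₀ _ (pow_ne_zero _ hp0)]
    exact hmem
  have h4 : ((n.natAbs : ℕ) : ℂ) / (p : ℂ) ^ t ∈ O := by
    rcases Int.natAbs_eq n with h6 | h6
    · have h7 : ((n.natAbs : ℕ) : ℂ) = (n : ℂ) := by
        have h8 : ((n.natAbs : ℕ) : ℤ) = n := by omega
        rw [← Int.cast_natCast, h8]
      rw [h7]
      exact h3
    · have h7 : ((n.natAbs : ℕ) : ℂ) = -(n : ℂ) := by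
        have h8 : ((n.natAbs : ℕ) : ℤ) = -n := by omega
        rw [← Int.cast_natCast, h8, Int.cast_neg]
      rw [h7, neg_div]
      exact O.neg_mem _ h3
  have h5 := dvd_of_div_mem hpO h4
  have h6 : (p : ℤ) ^ t ∣ n := by
    have : ((p ^ t : ℕ) : ℤ) ∣ n := Int.natCast_dvd.mpr h5
    simpa using this
  obtain ⟨k, hk⟩ := h6
  refine ⟨k, ?_⟩
  have h7 : (p : ℂ) ^ t * k = (p : ℂ) ^ t * ((Nat.card D : ℂ) * IC.B (cut p χ) ψ) := by
    rw [← h2, hk]
    push_cast
    ring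
  exact mul_left_cancel₀ (pow_ne_zero _ hp0) h7

section trace

variable {p : ℕ} [hp : Fact p.Prime] {O : ValuationSubring ℂ} (hpO : (p : ℂ) ∈ O.nonunits)
  {B : Set (G → ℂ)} (hB : IsBlock O B)

/-- linear combinations of restrictions -/
def TT (p : ℕ) (B : Set (G → ℂ)) :
    ({χ // χ ∈ XB B} → ℂ) →ₗ[ℂ] ({g : G // ¬ p ∣ orderOf g} → ℂ) where
  toFun c g := ∑ χ : {χ // χ ∈ XB B}, c χ * (χ : G → ℂ) g
  map_add' c c' := by
    funext g
    simp only [Pi.add_apply, add_mul, Finset.sum_add_distrib]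
  map_smul' a c := by
    funext g
    simp only [Pi.smul_apply, smul_eq_mul, Finset.mul_sum, RingHom.id_apply]
    exact Finset.sum_congr rfl fun χ _ => by ring

/-- inner products over the `p`-regular elements -/
def QQ (p : ℕ) (B : Set (G → ℂ)) :
    ({g : G // ¬ p ∣ orderOf g} → ℂ) →ₗ[ℂ] ({χ // χ ∈ XB B} → ℂ) where
  toFun f ψ := (Nat.card G : ℂ)⁻¹ * ∑ g : {g : G // ¬ p ∣ orderOf g}, f g * (ψ : G → ℂ) (g : G)⁻¹
  map_add' c c' := by
    funext g
    simp only [Pi.add_apply, add_mul, Finset.sum_add_distrib, mul_add]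
  map_smul' a c := by
    funext g
    simp only [Pi.smul_apply, smul_eq_mul, Finset.mul_sum, RingHom.id_apply]
    exact Finset.sum_congr rfl fun χ _ => by ring

lemma QQ_TT_single (χ ψ : {χ // χ ∈ XB B}) :
    QQ p B (TT p B (Pi.single χ 1)) ψ = IC.B (cut p (χ : G → ℂ)) ψ := by
  have h1 : ∀ g : {g : G // ¬ p ∣ orderOf g}, TT p B (Pi.single χ 1) g = (χ : G → ℂ) g := by
    intro g
    change ∑ χ' : {χ // χ ∈ XB B}, (Pi.single χ (1 : ℂ) : {χ // χ ∈ XB B} → ℂ) χ' * (χ' : G → ℂ) g = _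
    rw [Finset.sum_eq_single χ]
    · rw [Pi.single_eq_same, one_mul]
    · intro χ' _ h
      rw [Pi.single_eq_of_ne h, zero_mul]
    · intro h
      exact absurd (Finset.mem_univ _) h
  change (Nat.card G : ℂ)⁻¹ * ∑ g : {g : G // ¬ p ∣ orderOf g},
    TT p B (Pi.single χ 1) g * (ψ : G → ℂ) (g : G)⁻¹ = _
  simp only [h1]
  unfold IC.B
  congr 1
  rw [← Finset.sum_subtype (Finset.univ.filter fun g : G => ¬ p ∣ orderOf g)
    (fun g => by rw [Finset.mem_filter]; simp)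
    (fun g : G => (χ : G → ℂ) g * (ψ : G → ℂ) g⁻¹), Finset.sum_filter]
  refine Finset.sum_congr rfl fun g _ => ?_
  unfold cut
  by_cases h : p ∣ orderOf g
  · rw [if_neg (not_not.mpr h), if_pos h, zero_mul]
  · rw [if_pos h, if_neg h]

lemma TT_single (χ : {χ // χ ∈ XB B}) (g : {g : G // ¬ p ∣ orderOf g}) :
    TT p B (Pi.single χ 1) g = (χ : G → ℂ) g := by
  change ∑ χ' : {χ // χ ∈ XB B}, (Pi.single χ (1 : ℂ) : {χ // χ ∈ XB B} → ℂ) χ' * (χ' : G → ℂ) g = _
  rw [Finset.sum_eq_single χ]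
  · rw [Pi.single_eq_same, one_mul]
  · intro χ' _ h
    rw [Pi.single_eq_of_ne h, zero_mul]
  · intro h
    exact absurd (Finset.mem_univ _) h

include hpO hB in
lemma TT_QQ_TT : TT p B ∘ₗ QQ p B ∘ₗ TT p B = TT p B := by
  apply LinearMap.pi_ext'
  intro χ
  apply LinearMap.ext_ring
  funext g
  change TT p B (QQ p B (TT p B (Pi.single χ 1))) g = TT p B (Pi.single χ 1) g
  rw [TT_single]
  change ∑ φ : {χ // χ ∈ XB B}, QQ p B (TT p B (Pi.single χ 1)) φ * (φ : G → ℂ) g = _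
  simp only [QQ_TT_single]
  rw [Finset.sum_coe_sort (XB B) (fun φ : G → ℂ => IC.B (cut p (χ : G → ℂ)) φ * φ g)]
  exact cut_expand hpO hB ((mem_XB hB.irr).mp χ.2) g.2

include hB in
lemma range_TT : LinearMap.range (TT p B) = Submodule.span ℂ
    ((fun χ : G → ℂ => fun g : {g : G // ¬ p ∣ orderOf g} => χ g) '' B) := by
  apply le_antisymm
  · rintro _ ⟨c, rfl⟩
    have h1 : TT p B c = ∑ χ : {χ // χ ∈ XB B},
        c χ • (fun g : {g : G // ¬ p ∣ orderOf g} => (χ : G → ℂ) g) := by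
      funext g
      rw [Finset.sum_apply]
      rfl
    rw [h1]
    refine Submodule.sum_mem _ fun χ _ => Submodule.smul_mem _ _ (Submodule.subset_span ?_)
    exact ⟨χ, (mem_XB hB.irr).mp χ.2, rfl⟩
  · rw [Submodule.span_le]
    rintro _ ⟨χ, hχ, rfl⟩
    refine ⟨Pi.single ⟨χ, (mem_XB hB.irr).mpr hχ⟩ 1, ?_⟩
    funext g
    rw [TT_single]

include hpO hB in
/-- the trace of the matrix of restricted inner products is the number of Brauer characters -/
theorem trace_eq : ∑ χ ∈ XB B, IC.B (cut p χ) χ = (lB p B : ℂ) := by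
  set f : ({χ // χ ∈ XB B} → ℂ) →ₗ[ℂ] ({χ // χ ∈ XB B} → ℂ) := QQ p B ∘ₗ TT p B with hf
  have hidem : ∀ x, f (f x) = f x := by
    intro x
    have h1 := congrArg (fun L => QQ p B (L x)) (TT_QQ_TT hpO hB)
    exact h1
  have hproj : LinearMap.IsProj (LinearMap.range f) f :=
    ⟨fun x => ⟨x, rfl⟩, by rintro _ ⟨y, rfl⟩; exact hidem y⟩
  have h1 := hproj.trace
  have h2 : LinearMap.trace ℂ ({χ // χ ∈ XB B} → ℂ) f = ∑ χ ∈ XB B, IC.B (cut p χ) χ := by
    rw [LinearMap.trace_eq_matrix_trace ℂ (Pi.basisFun ℂ {χ // χ ∈ XB B}), Matrix.trace]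
    rw [← Finset.sum_coe_sort (XB B) (fun φ : G → ℂ => IC.B (cut p φ) φ)]
    refine Finset.sum_congr rfl fun χ _ => ?_
    rw [Matrix.diag_apply, LinearMap.toMatrix_apply, Pi.basisFun_apply, Pi.basisFun_repr]
    exact QQ_TT_single χ χ
  rw [← h2, h1]
  congr 1
  unfold lB
  rw [← range_TT hB]
  apply le_antisymm
  · have h3 : LinearMap.range f = (LinearMap.range (TT p B)).map (QQ p B) := by
      rw [hf, LinearMap.range_comp]
    rw [h3]
    exact Submodule.finrank_map_le _ _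
  · have h3 : LinearMap.range (TT p B) = (LinearMap.range f).map (TT p B) := by
      conv_lhs => rw [← TT_QQ_TT hpO hB]
      rw [LinearMap.range_comp]
    rw [h3]
    exact Submodule.finrank_map_le _ _

end trace

/-- **Main theorem.** `p k(B) ≤ |D| max(p, l(B))`. -/
theorem block_bound {p : ℕ} (hp : p.Prime) {O : ValuationSubring ℂ}
    (hpO : (p : ℂ) ∈ O.nonunits) {D : Subgroup G} {B : Set (G → ℂ)} (hB : IsBlock O B)
    (hD : IsDefectGroup p O B D) : p * Nat.card B ≤ Nat.card D * max p (lB p B) := by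
  haveI : Fact p.Prime := ⟨hp⟩
  haveI := charP_RF hpO
  have hD0 : (Nat.card D : ℂ) ≠ 0 := by exact_mod_cast Nat.card_pos.ne'
  obtain ⟨d, hd⟩ := IsPGroup.iff_card.mp (defect_pgroup hD)
  have hmem : ∀ χ : {χ // χ ∈ XB B}, (χ : G → ℂ) ∈ B := fun χ => (mem_XB hB.irr).mp χ.2
  have hirr : ∀ χ : {χ // χ ∈ XB B}, IsIrr (χ : G → ℂ) := fun χ => hB.irr _ (hmem χ)
  choose M hM using fun χ ψ : {χ // χ ∈ XB B} => contr_int hpO hB hD (hmem χ) (hmem ψ)
  have hMrat : ∀ χ ψ : {χ // χ ∈ XB B},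
      IC.B (cut p (χ : G → ℂ)) ψ = (M χ ψ : ℂ) / Nat.card D := by
    intro χ ψ
    rw [hM, mul_div_cancel_left₀ _ hD0]
  have hsym : ∀ χ ψ : {χ // χ ∈ XB B}, M χ ψ = M ψ χ := by
    intro χ ψ
    have : (M χ ψ : ℂ) = M ψ χ := by
      rw [hM, hM, B_cut_comm]
    exact_mod_cast this
  have hsq : ∀ χ ψ, ∑ φ, M χ φ * M φ ψ = p ^ d * M χ ψ := by
    intro χ ψ
    have : ((∑ φ, M χ φ * M φ ψ : ℤ) : ℂ) = ((p ^ d * M χ ψ : ℤ) : ℂ) := by
      have h1 := B_cut_idem hpO hB (χ := χ) (ψ := ψ) (hmem χ)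
      rw [← Finset.sum_coe_sort (XB B)
        (fun φ : G → ℂ => IC.B (cut p (χ : G → ℂ)) φ * IC.B (cut p φ) ψ)] at h1
      push_cast
      simp only [hM]
      rw [← h1]
      have h2 : (p : ℂ) ^ d = Nat.card D := by
        rw [hd]; push_cast; rfl
      rw [h2, Finset.mul_sum, Finset.mul_sum]
      refine Finset.sum_congr rfl fun φ _ => ?_
      ring
    exact_mod_cast this
  have htr : ∑ χ, M χ χ = p ^ d * (lB p B : ℤ) := by
    have : ((∑ χ, M χ χ : ℤ) : ℂ) = ((p ^ d * (lB p B : ℤ) : ℤ) : ℂ) := by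
      push_cast
      simp only [hM]
      rw [← trace_eq hpO hB, ← Finset.mul_sum,
        ← Finset.sum_coe_sort (XB B) (fun φ : G → ℂ => IC.B (cut p φ) φ), hd]
      push_cast
      rfl
    exact_mod_cast this
  obtain ⟨χ₀, hχ₀⟩ := hB.nonempty
  have hredM : ∀ χ ψ, ((M χ ψ : ℤ) : RF O) = red O (uu D (χ : G → ℂ)) * sr p O χ₀ ψ := by
    intro χ ψ
    rw [← red_intCast, hM, card_mul_B D (hirr χ) (fun g y => (hirr ψ).conj g y),
      red_mul (uu_mem hpO hB hD (hmem χ)) (SS_mem (hirr χ) (hirr ψ)), red_SS (hirr χ) (hirr ψ),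
      sr_block hB (hmem χ) hχ₀]
  have hpos : ∀ χ, M χ χ ≠ 0 := by
    intro χ h0
    have h1 := hsq χ χ
    rw [h0, mul_zero] at h1
    have h2 : ∀ φ, M χ φ = 0 := by
      have h3 : ∑ φ, M χ φ * M χ φ = 0 := by
        rw [← h1]
        exact Finset.sum_congr rfl fun φ _ => by rw [hsym φ χ]
      rw [Finset.sum_eq_zero_iff_of_nonneg (fun _ _ => mul_self_nonneg _)] at h3
      intro φ
      exact mul_self_eq_zero.mp (h3 φ (Finset.mem_univ _))
    have h3 := cut_expand hpO hB (hmem χ) (g := 1) (by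
      rw [orderOf_one]
      exact hp.one_lt.ne' ∘ Nat.dvd_one.mp)
    rw [← Finset.sum_coe_sort (XB B)
      (fun φ : G → ℂ => IC.B (cut p (χ : G → ℂ)) φ * φ 1)] at h3
    rw [Finset.sum_eq_zero] at h3
    · exact (hirr χ).one_ne h3.symm
    · intro φ _
      rw [hMrat, h2]
      simp
  have key := mat_bound (d := d) (l := lB p B) hp M hsym hsq htr
    (K := RF O) (fun χ => red O (uu D (χ : G → ℂ))) (fun ψ => sr p O χ₀ ψ) hredM (by
      intro z hz χ h0
      have h1 : uu D (χ : G → ℂ) * ∑ ψ : {χ // χ ∈ XB B}, (z ψ : ℂ) * SS p (χ : G → ℂ) ψ = 0 := by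
        have h2 : ((∑ ψ, M χ ψ * z ψ : ℤ) : ℂ) = 0 := by rw [h0]; simp
        push_cast at h2
        rw [← h2, Finset.mul_sum]
        refine Finset.sum_congr rfl fun ψ _ => ?_
        rw [hM, card_mul_B D (hirr χ) (fun g y => (hirr ψ).conj g y)]
        ring
      have h2 := (mul_eq_zero.mp h1).resolve_left (uu_ne (hirr χ))
      apply hz
      have h3 := congrArg (red O) h2
      rw [red_zero, red_sum _ _ (fun ψ _ => O.mul_mem _ _ (intCast_mem' _)
        (SS_mem (hirr χ) (hirr ψ)))] at h3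
      rw [← h3]
      refine Finset.sum_congr rfl fun ψ _ => ?_
      rw [red_mul (intCast_mem' _) (SS_mem (hirr χ) (hirr ψ)), red_intCast,
        red_SS (hirr χ) (hirr ψ), sr_block hB (hmem χ) hχ₀]) hpos
  rw [← hd] at key
  have hcard : Nat.card B = Fintype.card {χ // χ ∈ XB B} := by
    rw [← Nat.card_eq_fintype_card]
    exact Nat.card_congr (Equiv.subtypeEquivRight fun χ => (mem_XB hB.irr).symm)
  rw [hcard]
  exact key

end Pool.Agent.N20
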