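import Mathlib
import Pool.Agent.N20.Blk3

/-!
Nonvanishing of the invariant `cc` of a block.
-/

set_option autoImplicit false
set_option linter.style.haveILetI false
set_option linter.unusedSectionVars false

open scoped BigOperators Classical
open Pool.Agent.Helper884 Pool.Agent.H254R3.IN

noncomputable section

namespace Pool.Agent.N20

variable {G : Type} [Group G] [Fintype G]

section inverse

variable {O : ValuationSubring ℂ} {B : Set (G → ℂ)}

lemma Om_add (f h χ : G → ℂ) : Om (fun g => f g + h g) χ = Om f χ + Om h χ := by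
  unfold Om
  rw [← add_div, ← Finset.sum_add_distrib]
  congr 1
  refine Finset.sum_congr rfl fun g _ => ?_
  ring

/-- a class sum with nonvanishing central character is invertible in the block -/
lemma exists_inverse (hB : ∀ χ ∈ B, IsIrr χ) {x : G} (hω : ∀ χ ∈ B, omega χ x ∉ O.nonunits)
    (T : Finset (G → ℂ)) (hT : ∀ χ ∈ T, χ ∈ B) :
    ∃ y : G → ℂ, IsCl y ∧ (∀ g, y g ∈ O) ∧ ∀ χ ∈ T, Om y χ * omega χ x = 1 := by
  induction T using Finset.induction_on with
  | empty => exact ⟨fun _ => 0, fun _ _ => rfl, fun _ => O.zero_mem, by simp⟩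
  | insert a s ha ih =>
    obtain ⟨y, hy1, hy2, hy3⟩ := ih fun χ hχ => hT χ (Finset.mem_insert_of_mem hχ)
    have haB := hT a (Finset.mem_insert_self a s)
    have hai := hB a haB
    have hred : red O (omega a x) ≠ 0 :=
      fun h => hω a haB ((red_eq_zero_iff (hai.omega_mem O x)).mp h)
    obtain ⟨-, h2, h3⟩ := inv_mem_of_red_ne hred
    have hcv : IsCl (conv y (ind x)) := hy1.conv (ind_cl x)
    have hcl1 : IsCl (fun g : G => dl g - conv y (ind x) g) := by
      intro g z
      change dl (z * g * z⁻¹) - conv y (ind x) (z * g * z⁻¹) = _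
      rw [dl_cl g z, hcv g z]
    refine ⟨fun g => y g + (omega a x)⁻¹ * (dl g - conv y (ind x) g), ?_, ?_, ?_⟩
    · intro g z
      change y (z * g * z⁻¹) + (omega a x)⁻¹ * (dl (z * g * z⁻¹) - conv y (ind x) (z * g * z⁻¹)) = _
      rw [hy1 g z, dl_cl g z, hcv g z]
    · intro g
      exact O.add_mem _ _ (hy2 g) (O.mul_mem _ _ h2
        (sub_mem' (dl_mem O g) (conv_mem hy2 (fun g => ind_mem O x g) g)))
    · intro χ hχ
      have hχi := hB χ (hT χ hχ)
      have h4 : Om (fun g => y g + (omega a x)⁻¹ * (dl g - conv y (ind x) g)) χ =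
          Om y χ + (omega a x)⁻¹ * (1 - Om y χ * omega χ x) := by
        rw [Om_add, Om_smul, Om_sub, Om_dl hχi, Om_conv hχi hy1 (ind_cl x), Om_ind hχi]
      rw [h4]
      rcases Finset.mem_insert.mp hχ with rfl | hχ
      · field_simp
        ring
      · rw [hy3 χ hχ, sub_self, mul_zero, add_zero, hy3 χ hχ]

end inverse

/-- classes with nonvanishing central character meet the centralizer of a defect group -/
theorem lam_ne {p : ℕ} [hp : Fact p.Prime] {O : ValuationSubring ℂ}
    (hpO : (p : ℂ) ∈ O.nonunits) {D : Subgroup G} {B : Set (G → ℂ)} (hB : IsBlock O B)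
    (hD : IsDefectGroup p O B D) {χ : G → ℂ} (hχ : χ ∈ B) {x : G}
    (hx : red O (omega χ x) ≠ 0) : ∃ g : G, g * x * g⁻¹ ∈ Subgroup.centralizer (D : Set G) := by
  have hDp := defect_pgroup hD
  obtain ⟨x₀, ⟨P, hDP⟩, -, ha⟩ := hD
  have hDle : ∀ d ∈ D, d * x₀ = x₀ * d := by
    intro d hd
    rw [hDP] at hd
    obtain ⟨c, -, rfl⟩ := Subgroup.mem_map.mp hd
    exact (Subgroup.mem_centralizer_iff.mp c.2 x₀ (Set.mem_singleton x₀)).symm
  have hω : ∀ ψ ∈ B, omega ψ x ∉ O.nonunits := by
    intro ψ hψ h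
    apply hx
    rw [hB.red_eq hχ hψ, red_eq_zero h]
  obtain ⟨y, hy1, hy2, hy3⟩ := exists_inverse hB.irr hω (XB B)
    (fun χ hχ => (mem_XB hB.irr).mp hχ)
  set w := conv y (blockCoeff B) with hw
  have hwcl : IsCl w := hy1.conv (blockCoeff_cl hB.irr)
  have hwO : ∀ g, w g ∈ O := conv_mem hy2 (blockCoeff_mem hB)
  have key : conv w (ind x) = blockCoeff B := by
    apply eq_of_Om (hwcl.conv (ind_cl x)) (blockCoeff_cl hB.irr)
    intro ψ hψ
    rw [Om_conv hψ hwcl (ind_cl x), hw, Om_conv hψ hy1 (blockCoeff_cl hB.irr),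
      Om_blockCoeff hB.irr hψ, Om_ind hψ]
    split_ifs with h
    · rw [mul_one, hy3 ψ ((mem_XB hB.irr).mpr h)]
    · rw [mul_zero, zero_mul]
  by_contra hcon
  push Not at hcon
  apply ha
  haveI := charP_RF hpO
  have h1 : blockCoeff B x₀ = ∑ k : G, w (x₀ * k⁻¹) * ind x k := by
    rw [← key]
    unfold conv
    refine Fintype.sum_equiv ((Equiv.inv G).trans (Equiv.mulRight x₀)) _ _ fun h => ?_
    have e1 : ((Equiv.inv G).trans (Equiv.mulRight x₀)) h = h⁻¹ * x₀ := rfl
    rw [e1]
    congr 2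
    group
  have hmem : ∀ k : G, w (x₀ * k⁻¹) * ind x k ∈ O := fun k => O.mul_mem _ _ (hwO _) (ind_mem O x k)
  have h2 : red O (blockCoeff B x₀) = ∑ k : G, red O (w (x₀ * k⁻¹) * ind x k) := by
    rw [h1, red_sum _ _ (fun k _ => hmem k)]
  letI : MulAction D G := MulAction.compHom G ((MulAut.conj : G →* MulAut G).comp D.subtype)
  have h3 := sum_fixed hDp (X := G) (F := RF O)
    (fun a => by rw [← Nat.cast_smul_eq_nsmul (RF O), CharP.cast_eq_zero, zero_smul])
    (fun k => red O (w (x₀ * k⁻¹) * ind x k)) (by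
      intro d k
      have e1 : d • k = (d : G) * k * (d : G)⁻¹ := rfl
      rw [e1, ind_cl x k d]
      congr 2
      have e2 : x₀ * ((d : G) * k * (d : G)⁻¹)⁻¹ = (d : G) * (x₀ * k⁻¹) * (d : G)⁻¹ := by
        have := hDle d d.2
        calc x₀ * ((d : G) * k * (d : G)⁻¹)⁻¹ = (x₀ * d) * k⁻¹ * (d : G)⁻¹ := by group
          _ = (d * x₀) * k⁻¹ * (d : G)⁻¹ := by rw [this]
          _ = _ := by group
      rw [e2, hwcl])
  rw [h3, Finset.sum_eq_zero] at h2
  · exact (red_eq_zero_iff (blockCoeff_mem hB _)).mp h2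
  · intro k hk
    simp only [Finset.mem_filter, Finset.mem_univ, true_and] at hk
    have h4 : k ∈ Subgroup.centralizer (D : Set G) := by
      rw [Subgroup.mem_centralizer_iff]
      intro d hd
      have h5 : d * k * d⁻¹ = k := hk ⟨d, hd⟩
      have h6 := congrArg (· * d) h5
      simpa [mul_assoc] using h6
    have h5 : ¬ IsConj x k := by
      intro hc
      obtain ⟨c, hc⟩ := isConj_iff.mp hc
      exact hcon c (by rw [hc]; exact h4)
    rw [ind, if_neg h5, mul_zero, red_zero]

/-- `|C_G(x)| / |D|` -/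
def nn (D : Subgroup G) (x : G) : ℂ :=
  (Nat.card (Subgroup.centralizer ({x} : Set G)) : ℂ) / Nat.card D

lemma val_nn (D : Subgroup G) {χ : G → ℂ} (hχ : IsIrr χ) (x : G) :
    χ x = uu D χ * omega χ x * nn D x := by
  have h1 := hχ.val_eq x
  have hD0 : (Nat.card D : ℂ) ≠ 0 := by exact_mod_cast Nat.card_pos.ne'
  have h4 : (Nat.card G : ℂ) ≠ 0 := by exact_mod_cast Nat.card_pos.ne'
  conv_lhs => rw [h1]
  unfold uu nn
  field_simp

lemma nn_mem {O : ValuationSubring ℂ} {D : Subgroup G} {x : G}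
    (h : Nat.card D ∣ Nat.card (Subgroup.centralizer ({x} : Set G))) : nn D x ∈ O := by
  obtain ⟨c, hc⟩ := h
  have hD0 : (Nat.card D : ℂ) ≠ 0 := by exact_mod_cast Nat.card_pos.ne'
  unfold nn
  rw [hc]
  push_cast
  rw [mul_div_cancel_left₀ _ hD0]
  exact natCast_mem' c

lemma centralizer_inv (x : G) : Subgroup.centralizer ({x⁻¹} : Set G) =
    Subgroup.centralizer ({x} : Set G) := by
  ext y
  simp only [Subgroup.mem_centralizer_iff, Set.mem_singleton_iff, forall_eq]
  constructor
  · intro h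
    have := congrArg (fun z => x * z * x) h
    simp only [mul_assoc, mul_inv_cancel_left, inv_mul_cancel, mul_one] at this
    simpa [mul_assoc] using this.symm
  · intro h
    have := congrArg (fun z => x⁻¹ * z * x⁻¹) h
    simp only [mul_assoc, inv_mul_cancel_left, mul_inv_cancel, mul_one] at this
    simpa [mul_assoc] using this.symm

lemma nn_inv (D : Subgroup G) (x : G) : nn D x⁻¹ = nn D x := by
  unfold nn
  rw [centralizer_inv]

/-- divisibility from the centralizer of `D` -/
lemma card_dvd_of_conj {D : Subgroup G} {x g : G}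
    (h : g * x * g⁻¹ ∈ Subgroup.centralizer (D : Set G)) :
    Nat.card D ∣ Nat.card (Subgroup.centralizer ({x} : Set G)) := by
  rw [card_centralizer_congr (isConj_iff.mpr ⟨g, rfl⟩ : IsConj x (g * x * g⁻¹))]
  exact Subgroup.card_dvd_of_le (le_centralizer h)

/-- the `p`-elements of a finite nilpotent group -/
lemma pel_sub {V : Type} [Group V] [Finite V] (hV : Group.IsNilpotent V) {p a : ℕ}
    (hp : p.Prime) (ha : (Nat.card V).factorization p ≤ a) :
    ∃ (S : Subgroup V) (r : ℕ), (∀ v, v ∈ S ↔ v ^ p ^ a = 1) ∧ ¬ p ∣ r ∧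
      Nat.card V = r * Nat.card S := by
  haveI : Fact p.Prime := ⟨hp⟩
  have h03 : Group.IsNilpotent V ↔ ∀ (p : ℕ) (_ : Fact p.Prime) (P : Sylow p V),
      (P : Subgroup V).Normal := (Group.isNilpotent_of_finite_tfae (G := V)).out 0 3
  have hnorm : ∀ P : Sylow p V, (P : Subgroup V).Normal := h03.mp hV p ⟨hp⟩
  let P : Sylow p V := default
  have hPn := hnorm P
  refine ⟨P, (P : Subgroup V).index, ?_, P.not_dvd_index, ?_⟩
  · intro v
    constructor
    · intro hv
      have h1 : Nat.card P = p ^ (Nat.card V).factorization p := P.card_eq_multiplicity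
      have h2 : (⟨v, hv⟩ : P) ^ Nat.card P = 1 := pow_card_eq_one'
      have h3 : v ^ p ^ (Nat.card V).factorization p = 1 := by
        rw [← h1]
        exact congrArg Subtype.val h2
      obtain ⟨c, hc⟩ := Nat.exists_eq_add_of_le ha
      rw [hc, pow_add, pow_mul, h3, one_pow]
    · intro hv
      have hz : IsPGroup p (Subgroup.zpowers v) := by
        rintro ⟨w, hw⟩
        obtain ⟨k, rfl⟩ := Subgroup.mem_zpowers_iff.mp hw
        refine ⟨a, Subtype.ext ?_⟩
        change (v ^ k) ^ p ^ a = 1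
        rw [← zpow_natCast, ← zpow_mul, mul_comm, zpow_mul, zpow_natCast, hv, one_zpow]
      obtain ⟨R, hR⟩ := hz.exists_le_sylow
      letI := Sylow.unique_of_normal P hPn
      have hRP : R = P := Subsingleton.elim _ _
      rw [← hRP]
      exact hR (Subgroup.mem_zpowers v)
  · rw [mul_comm]
    exact ((P : Subgroup V).card_mul_index).symm

section pel

open Pool.Agent.R389 Pool.Agent.H541R3.ART Pool.Agent.W446.AS

/-- sums over the `p`-elements -/
theorem pel_mem {p : ℕ} (hp : p.Prime) {O : ValuationSubring ℂ} (hpO : (p : ℂ) ∈ O.nonunits)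
    {χ : G → ℂ} (hχ : Virt χ) {f : G → ℂ} (hf : f ∈ PN G) :
    pr f (fun g => if g ^ p ^ (Nat.card G).factorization p = 1 then χ g else 0) ∈ O := by
  haveI : Fact p.Prime := ⟨hp⟩
  induction hf using AddSubgroup.closure_induction with
  | mem f hf =>
    obtain ⟨V, lam, hV, rfl⟩ := hf
    have hcl : ∀ g x : G, (fun g => if g ^ p ^ (Nat.card G).factorization p = 1 then χ g else 0)
        (x * g * x⁻¹) = (fun g => if g ^ p ^ (Nat.card G).factorization p = 1 then χ g else 0) g := by
      intro g x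
      have h1 : (x * g * x⁻¹) ^ p ^ (Nat.card G).factorization p = 1 ↔
          g ^ p ^ (Nat.card G).factorization p = 1 := by
        rw [conj_pow]
        exact conj_eq_one_iff
      simp only [h1, hχ.conj]
    rw [frob V _ hcl]
    have hle : (Nat.card V).factorization p ≤ (Nat.card G).factorization p := by
      have h5 : p ^ (Nat.card V).factorization p ∣ Nat.card G :=
        (Nat.ordProj_dvd _ _).trans (Subgroup.card_subgroup_dvd_card V)
      exact (hp.pow_dvd_iff_le_factorization Nat.card_pos.ne').mp h5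
    obtain ⟨S, r, hS, hr, hcard⟩ := pel_sub hV hp hle
    haveI : Fintype V := Fintype.ofFinite V
    haveI : Fintype S := Fintype.ofFinite S
    have h1 : pr (fun h : V => ((lam h : ℂˣ) : ℂ))
        (fun h : V => if (h : G) ^ p ^ (Nat.card G).factorization p = 1 then χ h else 0) =
        (r : ℂ)⁻¹ * pr (fun h : S => ((lam (h : V) : ℂˣ) : ℂ)) (fun h : S => χ (h : V)) := by
      rw [pr_eq, pr_eq, ← mul_assoc, ← mul_inv]
      have h2 : (Nat.card V : ℂ) = (r : ℂ) * Nat.card S := by
        rw [hcard]; push_cast; ring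
      rw [h2]
      congr 1
      have h2' : ∑ h : S, ((lam (h : V) : ℂˣ) : ℂ) * χ (((h⁻¹ : S) : V) : G) =
          ∑ v ∈ Finset.univ.filter (fun v : V => v ∈ S),
            ((lam v : ℂˣ) : ℂ) * χ ((v⁻¹ : V) : G) :=
        (Finset.sum_subtype (Finset.univ.filter fun v : V => v ∈ S)
          (fun v => by rw [Finset.mem_filter]; simp)
          (fun v : V => ((lam v : ℂˣ) : ℂ) * χ ((v⁻¹ : V) : G))).symm
      rw [h2', Finset.sum_filter]
      refine Finset.sum_congr rfl fun v _ => ?_
      have h3 : (((v⁻¹ : V)) : G) ^ p ^ (Nat.card G).factorization p = 1 ↔ v ∈ S := by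
        rw [hS]
        constructor
        · intro h
          apply Subtype.ext
          have h4 := congrArg (·⁻¹) h
          simpa using h4
        · intro h
          have h4 := congrArg (fun z : V => ((z⁻¹ : V) : G)) h
          simpa using h4
      by_cases hv : v ∈ S
      · rw [if_pos (h3.mpr hv), if_pos hv]
      · rw [if_neg (fun h => hv (h3.mp h)), if_neg hv, mul_zero]
    rw [h1]
    obtain ⟨n, hn⟩ := Virt.pr_int' (AddSubgroup.subset_closure (lin_irr (lam.comp S.subtype)))
      (hχ.comp (V.subtype.comp S.subtype))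
    have h4 : pr (fun h : S => ((lam (h : V) : ℂˣ) : ℂ)) (fun h : S => χ (h : V)) = n := hn
    rw [h4]
    exact O.mul_mem _ _ (nat_inv_mem hpO hr) (intCast_mem' n)
  | zero => rw [pr_zero_left]; exact O.zero_mem
  | add a b _ _ ha hb => rw [pr_add]; exact O.add_mem _ _ ha hb
  | neg a _ ha => rw [pr_neg]; exact O.neg_mem _ ha

end pel

/-- the set of `p`-elements -/
def PE (p : ℕ) (G : Type) [Group G] [Fintype G] : Finset G :=
  Finset.univ.filter (fun y => y ^ p ^ (Nat.card G).factorization p = 1)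

/-- `(1/|G|) ∑_{y a p-element} χ(y)` -/
def rr (p : ℕ) (χ : G → ℂ) : ℂ := (Nat.card G : ℂ)⁻¹ * ∑ y ∈ PE p G, χ y

lemma rr_mem {p : ℕ} (hp : p.Prime) {O : ValuationSubring ℂ} (hpO : (p : ℂ) ∈ O.nonunits)
    {χ : G → ℂ} (hχ : IsIrr χ) : rr p χ ∈ O := by
  have h1 := pel_mem hp hpO (virt_of_irr hχ) (Pool.Agent.R389.one_mem_pn (U := G))
  have h2 : Pool.Agent.W446.AS.pr (fun _ => (1 : ℂ))
      (fun g => if g ^ p ^ (Nat.card G).factorization p = 1 then χ g else 0) = rr p χ := by
    rw [Pool.Agent.W446.AS.pr_eq]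
    unfold rr PE
    congr 1
    rw [Finset.sum_filter]
    refine Fintype.sum_equiv (Equiv.inv G) _ _ fun g => ?_
    simp only [Equiv.inv_apply, one_mul]
  rw [← h2]
  exact h1

lemma sum_mul_char {χ : G → ℂ} (hχ : IsIrr χ) {f : G → ℂ} (hf : IsCl f) (g : G) :
    ∑ y, f y * χ (g * y) = Om f χ * χ g := by
  obtain ⟨V, _, _, _, ρ, hr, rfl⟩ := hχ
  have h1 := class_scalar ρ hr f hf
  have h2 : LinearMap.trace ℂ V (ρ g * ∑ y, f y • ρ y) = ∑ y, f y * ρ.character (g * y) := by
    rw [Finset.mul_sum, map_sum]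
    refine Finset.sum_congr rfl fun y _ => ?_
    rw [mul_smul_comm, map_smul, ← map_mul, smul_eq_mul]
    rfl
  rw [← h2, h1]
  have h3 : ρ g * (((∑ g, f g * ρ.character g) / ρ.character 1) • (LinearMap.id : V →ₗ[ℂ] V)) =
      ((∑ g, f g * ρ.character g) / ρ.character 1) • ρ g := by
    ext v
    simp
  rw [h3, map_smul, smul_eq_mul]
  rfl

lemma mem_PE_inv {p : ℕ} (y : G) : y⁻¹ ∈ PE p G ↔ y ∈ PE p G := by
  unfold PE
  simp only [Finset.mem_filter, Finset.mem_univ, true_and, inv_pow, inv_eq_one]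

lemma mem_PE_conj {p : ℕ} (g y : G) : y * g * y⁻¹ ∈ PE p G ↔ g ∈ PE p G := by
  unfold PE
  simp only [Finset.mem_filter, Finset.mem_univ, true_and, conj_pow, conj_eq_one_iff]

/-- the sum of the translates of the block coefficients over the `p`-elements -/
lemma sum_PE {p : ℕ} {B : Set (G → ℂ)} (hB : ∀ χ ∈ B, IsIrr χ) (g : G) :
    ∑ y ∈ PE p G, blockCoeff B (y * g⁻¹) = ∑ χ ∈ XB B, rr p χ * χ g := by
  have h1 : ∀ χ ∈ XB B, ∑ y ∈ PE p G, χ (y * g⁻¹)⁻¹ = (∑ y ∈ PE p G, χ y) / χ 1 * χ g := by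
    intro χ hχ
    have hχi : IsIrr χ := mem_Irr.mp (Finset.mem_filter.mp hχ).1
    have hcl : IsCl (fun y : G => if y ∈ PE p G then (1 : ℂ) else 0) := by
      intro a b
      simp only [mem_PE_conj]
    have h2 := sum_mul_char hχi hcl g
    have h3 : Om (fun y : G => if y ∈ PE p G then (1 : ℂ) else 0) χ =
        (∑ y ∈ PE p G, χ y) / χ 1 := by
      unfold Om
      congr 1
      simp only [ite_mul, one_mul, zero_mul, ← Finset.sum_filter, Finset.filter_mem_eq_inter,
        Finset.univ_inter]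
    rw [← h3, ← h2]
    have h4 : ∑ y ∈ PE p G, χ (y * g⁻¹)⁻¹ = ∑ y : G, if y ∈ PE p G then χ (y * g⁻¹)⁻¹ else 0 := by
      rw [← Finset.sum_filter, Finset.filter_mem_eq_inter, Finset.univ_inter]
    rw [h4]
    refine Fintype.sum_equiv (Equiv.inv G) _ _ fun y => ?_
    simp only [Equiv.inv_apply, mem_PE_inv, ite_mul, one_mul, zero_mul, mul_inv_rev, inv_inv]
  have h2 : ∀ y : G, blockCoeff B (y * g⁻¹) =
      ∑ χ ∈ XB B, (Nat.card G : ℂ)⁻¹ * χ 1 * χ (y * g⁻¹)⁻¹ := by
    intro y
    rw [blockCoeff_eq hB, Finset.mul_sum]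
    exact Finset.sum_congr rfl fun χ _ => by ring
  rw [Finset.sum_congr rfl (fun y _ => h2 y), Finset.sum_comm]
  refine Finset.sum_congr rfl fun χ hχ => ?_
  have hχi : IsIrr χ := mem_Irr.mp (Finset.mem_filter.mp hχ).1
  have h0 := hχi.one_ne
  rw [← Finset.mul_sum, h1 χ hχ]
  unfold rr
  field_simp

lemma FB_dl {B : Set (G → ℂ)} (hB : ∀ χ ∈ B, IsIrr χ) (x : G) :
    FB B dl x = blockCoeff B x⁻¹ := by
  unfold FB
  rw [blockCoeff_eq hB, Finset.mul_sum]
  refine Finset.sum_congr rfl fun φ _ => ?_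
  unfold IC.B
  have h1 : ∑ g : G, dl g * φ g⁻¹ = φ 1 := by
    unfold dl
    simp
  rw [h1, inv_inv]
  ring

/-- cyclic words modulo the maximal ideal -/
lemma words_red {O : ValuationSubring ℂ} {p : ℕ} [hp : Fact p.Prime]
    (hpO : (p : ℂ) ∈ O.nonunits) (b : G → ℂ) (hb : ∀ g, b g ∈ O) (m : ℕ) [NeZero (p ^ m)] :
    red O (∑ f : ZMod (p ^ m) → G, (∏ i, b (f i)) * dl (wp f (p ^ m))) =
      ∑ y : G, if y ^ p ^ m = 1 then red O (b y) ^ p ^ m else 0 := by
  haveI := charP_RF hpO
  letI : MulAction (Multiplicative (ZMod (p ^ m))) (ZMod (p ^ m) → G) := rot (p ^ m) G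
  haveI : Fintype (Multiplicative (ZMod (p ^ m))) := inferInstanceAs (Fintype (ZMod (p ^ m)))
  have hcard : Nat.card (Multiplicative (ZMod (p ^ m))) = p ^ m := by
    have : Nat.card (Multiplicative (ZMod (p ^ m))) = Nat.card (ZMod (p ^ m)) := rfl
    rw [this, Nat.card_eq_fintype_card, ZMod.card]
  have hact : ∀ (a : Multiplicative (ZMod (p ^ m))) (f : ZMod (p ^ m) → G),
      a • f = fun i => f (i + a.toAdd) := fun _ _ => rfl
  have hmem : ∀ f : ZMod (p ^ m) → G, (∏ i, b (f i)) * dl (wp f (p ^ m)) ∈ O :=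
    fun f => O.mul_mem _ _ (prod_mem fun i _ => hb _) (dl_mem O _)
  rw [red_sum _ _ (fun f _ => hmem f)]
  have h3 := sum_fixed (IsPGroup.of_card hcard) (X := ZMod (p ^ m) → G) (F := RF O)
    (fun a => by rw [← Nat.cast_smul_eq_nsmul (RF O), CharP.cast_eq_zero, zero_smul])
    (fun f => red O ((∏ i, b (f i)) * dl (wp f (p ^ m)))) (by
      intro a f
      rw [hact, wp_rot dl_cl]
      congr 2
      exact Fintype.prod_equiv (Equiv.addRight a.toAdd) _ _ fun i => rfl)
  rw [h3]
  have hwp : ∀ (y : G) (k : ℕ), wp (fun _ : ZMod (p ^ m) => y) k = y ^ k := by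
    intro y k
    induction k with
    | zero => simp [wp_zero]
    | succ k ih => rw [wp_succ, ih, pow_succ]
  refine Finset.sum_nbij' (fun f => f 0) (fun y _ => y) ?_ ?_ ?_ ?_ ?_
  · intro f _
    exact Finset.mem_univ _
  · intro y _
    simp only [Finset.mem_filter, Finset.mem_univ, true_and]
    exact fun a => rfl
  · intro f hf
    simp only [Finset.mem_filter, Finset.mem_univ, true_and] at hf
    funext i
    have h4 := congrFun (hf (Multiplicative.ofAdd i)) 0
    rw [hact] at h4
    simp only [toAdd_ofAdd, zero_add] at h4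
    exact h4.symm
  · intro y _
    rfl
  · intro f hf
    simp only [Finset.mem_filter, Finset.mem_univ, true_and] at hf
    have h5 : f = fun _ => f 0 := by
      funext i
      have h4 := congrFun (hf (Multiplicative.ofAdd i)) 0
      rw [hact] at h4
      simp only [toAdd_ofAdd, zero_add] at h4
      exact h4
    generalize f 0 = y at h5
    subst h5
    rw [hwp, Finset.prod_const, Finset.card_univ, ZMod.card]
    have hpow : red O (b y ^ p ^ m) = red O (b y) ^ p ^ m := by
      have : ∀ n : ℕ, red O (b y ^ n) = red O (b y) ^ n := by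
        intro n
        induction n with
        | zero => rw [pow_zero, pow_zero, red_one]
        | succ n ih => rw [pow_succ, pow_succ, red_mul (pow_mem (hb y) n) (hb y), ih]
      exact this _
    rw [red_mul (pow_mem (hb y) _) (dl_mem O _), hpow]
    unfold dl
    by_cases h : y ^ p ^ m = 1
    · rw [if_pos h, if_pos h, red_one, mul_one]
    · rw [if_neg h, if_neg h, red_zero, mul_zero]

lemma frob_inj {K : Type*} [Field K] {p : ℕ} [hp : Fact p.Prime] [CharP K p] {a b : K} {m : ℕ}
    (h : a ^ p ^ m = b ^ p ^ m) : a = b := by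
  have h1 : (a - b) ^ p ^ m = 0 := by
    rw [sub_pow_char_pow, h, sub_self]
  exact sub_eq_zero.mp (pow_eq_zero_iff (pow_pos hp.out.pos m).ne' |>.mp h1)

/-- the constant `ρ` -/
def rho (O : ValuationSubring ℂ) (p : ℕ) (D : Subgroup G) (B : Set (G → ℂ)) : RF O :=
  ∑ χ ∈ XB B, red O (rr p χ) * red O (uu D χ)

/-- **The block coefficients modulo the maximal ideal.** -/
theorem red_blockCoeff {O : ValuationSubring ℂ} {p : ℕ} [hp : Fact p.Prime]
    (hpO : (p : ℂ) ∈ O.nonunits) {D : Subgroup G} {B : Set (G → ℂ)} (hB : IsBlock O B)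
    (hD : IsDefectGroup p O B D) {χ : G → ℂ} (hχ : χ ∈ B) {g : G} (hg : ¬ p ∣ orderOf g)
    (hdvd : Nat.card D ∣ Nat.card (Subgroup.centralizer ({g} : Set G))) :
    red O (blockCoeff B g⁻¹) = red O (omega χ g) * red O (nn D g) * rho O p D B := by
  haveI := charP_RF hpO
  set a := (Nat.card G).factorization p with ha
  set r := Nat.totient (orderOf g) with hr
  have hr0 : 0 < r := Nat.totient_pos.mpr (orderOf_pos g)
  set Y : RF O := red O (omega χ g) * red O (nn D g) * rho O p D B with hY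
  have hcop : Nat.Coprime p (orderOf g) := (Nat.Prime.coprime_iff_not_dvd hp.out).mpr hg
  have hYred : red O (∑ y ∈ PE p G, blockCoeff B (y * g⁻¹)) = Y := by
    rw [sum_PE hB.irr, red_sum]
    · rw [hY, rho, Finset.mul_sum]
      refine Finset.sum_congr rfl fun ψ hψ => ?_
      have hψB := (mem_XB hB.irr).mp hψ
      have hψi := hB.irr ψ hψB
      rw [red_mul (rr_mem hp.out hpO hψi) (hψi.val_mem O g), val_nn D hψi g,
        red_mul (O.mul_mem _ _ (uu_mem hpO hB hD hψB) (hψi.omega_mem O g)) (nn_mem hdvd),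
        red_mul (uu_mem hpO hB hD hψB) (hψi.omega_mem O g), hB.red_eq hψB hχ]
      ring
    · intro ψ hψ
      have hψB := (mem_XB hB.irr).mp hψ
      have hψi := hB.irr ψ hψB
      exact O.mul_mem _ _ (rr_mem hp.out hpO hψi) (hψi.val_mem O g)
  have key : ∀ t : ℕ, a ≤ r * t → red O (blockCoeff B g⁻¹) = Y ^ p ^ (r * t) := by
    intro t ht
    haveI : NeZero (p ^ (r * t)) := ⟨(pow_pos hp.out.pos _).ne'⟩
    have hgm : g ^ p ^ (r * t) = g := by
      have h1 : p ^ (r * t) ≡ 1 [MOD orderOf g] := by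
        rw [pow_mul]
        have := (Nat.ModEq.pow_totient hcop).pow t
        rwa [one_pow] at this
      have h2 := (pow_eq_pow_iff_modEq (x := g)).mpr h1
      rwa [pow_one] at h2
    have h1 := words_red hpO (fun y => blockCoeff B (y * g⁻¹)) (fun y => blockCoeff_mem hB _)
      (r * t)
    rw [FB_words hB.irr dl_cl, hgm, FB_dl hB.irr] at h1
    rw [h1]
    have h2 : ∀ y : G, y ^ p ^ (r * t) = 1 ↔ y ∈ PE p G := by
      intro y
      unfold PE
      rw [Finset.mem_filter]
      simp only [Finset.mem_univ, true_and]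
      constructor
      · intro h
        have h3 : orderOf y ∣ Nat.gcd (p ^ (r * t)) (Nat.card G) :=
          Nat.dvd_gcd (orderOf_dvd_of_pow_eq_one h) (orderOf_dvd_natCard y)
        have h4 : orderOf y ∣ p ^ (Nat.card G).factorization p := by
          obtain ⟨k, -, hk⟩ := (Nat.dvd_prime_pow hp.out).mp (orderOf_dvd_of_pow_eq_one h)
          rw [hk]
          apply pow_dvd_pow
          have h5 : p ^ k ∣ Nat.card G := by rw [← hk]; exact orderOf_dvd_natCard y
          exact (hp.out.pow_dvd_iff_le_factorization Nat.card_pos.ne').mp h5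
        exact orderOf_dvd_iff_pow_eq_one.mp h4
      · intro h
        obtain ⟨c, hc⟩ := Nat.exists_eq_add_of_le ht
        rw [hc, pow_add, pow_mul, h, one_pow]
    simp only [h2]
    rw [← Finset.sum_filter, Finset.filter_mem_eq_inter, Finset.univ_inter, ← hYred,
      red_sum _ _ (fun y _ => blockCoeff_mem hB _), sum_pow_char_pow]
  have h1 := key a (Nat.le_mul_of_pos_left a hr0)
  have h2 := key (a + 1) (by
    have := Nat.le_mul_of_pos_left (a + 1) hr0
    omega)
  have h3 : Y = Y ^ p ^ r := by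
    apply frob_inj (p := p) (m := r * a)
    rw [← h1, h2, ← pow_mul, ← pow_add]
    congr 2
    ring
  have h4 : ∀ t, Y ^ p ^ (r * t) = Y := by
    intro t
    induction t with
    | zero => simp
    | succ t ih =>
      rw [Nat.mul_succ, pow_add, pow_mul, ih, ← h3]
  rw [h1, h4]

/-- Osima: the block coefficients vanish on `p`-singular elements -/
theorem blockCoeff_sing {O : ValuationSubring ℂ} {p : ℕ} [hp : Fact p.Prime]
    (hpO : (p : ℂ) ∈ O.nonunits) {B : Set (G → ℂ)} (hB : IsBlock O B) {x : G}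
    (hx : p ∣ orderOf x) : blockCoeff B x = 0 := by
  have h1 := FB_zero hpO hB (F := ind x) (ind_cl x)
    (by
      intro g
      unfold ind
      split_ifs
      · exact isIntegral_one
      · exact isIntegral_zero)
    (by
      intro g hg
      unfold ind
      rw [if_neg]
      intro hc
      obtain ⟨c, rfl⟩ := isConj_iff.mp hc
      rw [orderOf_conj'] at hg
      exact hg hx) (g := 1) (by
      rw [orderOf_one]
      exact hp.out.one_lt.ne' ∘ Nat.dvd_one.mp)
  have h2 : FB B (ind x) 1 = (Nat.card {y : G // IsConj x y} : ℂ) * blockCoeff B x := by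
    unfold FB
    rw [blockCoeff_eq hB.irr, Finset.mul_sum, Finset.mul_sum]
    refine Finset.sum_congr rfl fun φ hφ => ?_
    have hφi : IsIrr φ := mem_Irr.mp (Finset.mem_filter.mp hφ).1
    unfold IC.B
    have h3 : ∑ g : G, ind x g * φ g⁻¹ = (Nat.card {y : G // IsConj x y} : ℂ) * φ x⁻¹ := by
      unfold ind
      simp only [ite_mul, one_mul, zero_mul]
      rw [← Finset.sum_filter]
      rw [Finset.sum_congr rfl (g := fun _ => φ x⁻¹)
        (fun y hy => by
          obtain ⟨c, hc⟩ := isConj_iff.mp (Finset.mem_filter.mp hy).2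
          rw [← hc]
          have : (c * x * c⁻¹)⁻¹ = c * x⁻¹ * c⁻¹ := by group
          rw [this, hφi.conj]), Finset.sum_const, nsmul_eq_mul]
      congr 2
      rw [Nat.card_eq_fintype_card, Fintype.card_subtype]
    rw [h3]
    ring
  rw [h2] at h1
  have h3 : ((Nat.card {y : G // IsConj x y} : ℕ) : ℂ) ≠ 0 := by
    exact_mod_cast (card_class_pos x).ne'
  exact (mul_eq_zero.mp h1).resolve_left h3

/-- the invariant `cc` -/
def ccG (O : ValuationSubring ℂ) (p : ℕ) (D : Subgroup G) (χ : G → ℂ) : RF O :=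
  ∑ K : ConjClasses G, if p ∣ orderOf (rep K) then 0 else
    red O (nn D (rep K)) * (red O (omega χ (rep K)) * red O (omega χ (rep K)⁻¹))

/-- reduction of the scalar attached to an integral class function -/
lemma red_Om {O : ValuationSubring ℂ} {χ : G → ℂ} (hχ : IsIrr χ) {f : G → ℂ} (hf : IsCl f)
    (hfO : ∀ g, f g ∈ O) :
      red O (Om f χ) = ∑ K : ConjClasses G, red O (f (rep K)) * red O (omega χ (rep K)) := by
  have h1 : Om f χ = ∑ K : ConjClasses G, f (rep K) * omega χ (rep K) := by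
    unfold Om
    rw [sum_classes, Finset.sum_div]
    refine Finset.sum_congr rfl fun K _ => ?_
    have h2 : ∀ g ∈ Finset.univ.filter (fun g => IsConj (rep K) g),
        f g * χ g = f (rep K) * χ (rep K) := by
      intro g hg
      have hc := (Finset.mem_filter.mp hg).2
      rw [hf.isConj hc, hχ.isConj hc]
    rw [Finset.sum_congr rfl h2, Finset.sum_const, nsmul_eq_mul]
    have h3 : (Finset.univ.filter (fun g => IsConj (rep K) g)).card =
        Nat.card {y : G // IsConj (rep K) y} := by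
      rw [Nat.card_eq_fintype_card, Fintype.card_subtype]
    rw [h3]
    unfold omega
    ring
  have h2 : ∀ K ∈ (Finset.univ : Finset (ConjClasses G)), f (rep K) * omega χ (rep K) ∈ O :=
    fun K _ => O.mul_mem _ _ (hfO _) (hχ.omega_mem O _)
  rw [h1, red_sum _ _ h2]
  refine Finset.sum_congr rfl fun K _ => ?_
  rw [red_mul (hfO _) (hχ.omega_mem O _)]

/-- **Nonvanishing of `cc`.** -/
theorem rho_mul_cc {O : ValuationSubring ℂ} {p : ℕ} [hp : Fact p.Prime]
    (hpO : (p : ℂ) ∈ O.nonunits) {D : Subgroup G} {B : Set (G → ℂ)} (hB : IsBlock O B)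
    (hD : IsDefectGroup p O B D) {χ : G → ℂ} (hχ : χ ∈ B) :
    rho O p D B * ccG O p D χ = 1 := by
  have hχi := hB.irr χ hχ
  have h1 := red_Om (O := O) hχi (blockCoeff_cl hB.irr) (blockCoeff_mem hB)
  rw [Om_blockCoeff hB.irr hχi, if_pos hχ, red_one] at h1
  rw [h1, ccG, Finset.mul_sum]
  refine Finset.sum_congr rfl fun K _ => ?_
  by_cases hK : p ∣ orderOf (rep K)
  · rw [if_pos hK, mul_zero, blockCoeff_sing hpO hB hK, red_zero, zero_mul]
  · rw [if_neg hK]
    by_cases hl : red O (omega χ (rep K)) = 0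
    · rw [hl]
      ring
    · obtain ⟨g, hg⟩ := lam_ne hpO hB hD hχ hl
      have hdvd := card_dvd_of_conj hg
      have h2 := red_blockCoeff hpO hB hD hχ (g := (rep K)⁻¹) (by rw [orderOf_inv]; exact hK)
        (by rw [centralizer_inv]; exact hdvd)
      rw [inv_inv, nn_inv] at h2
      rw [h2]
      ring

/-- characters of height zero exist -/
theorem exists_uu_ne {O : ValuationSubring ℂ} {p : ℕ} [hp : Fact p.Prime]
    (hpO : (p : ℂ) ∈ O.nonunits) {D : Subgroup G} {B : Set (G → ℂ)} (hB : IsBlock O B)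
    (hD : IsDefectGroup p O B D) : ∃ χ ∈ B, red O (uu D χ) ≠ 0 := by
  obtain ⟨χ, hχ⟩ := hB.nonempty
  by_contra hcon
  push Not at hcon
  have h1 := rho_mul_cc hpO hB hD hχ
  have h2 : rho O p D B = 0 := by
    unfold rho
    apply Finset.sum_eq_zero
    intro ψ hψ
    rw [hcon ψ ((mem_XB hB.irr).mp hψ), mul_zero]
  rw [h2, zero_mul] at h1
  exact zero_ne_one h1

end Pool.Agent.N20
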