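import Mathlib
import Pool.Agent.N20.CC
import Pool.Agent.Y62.Sec

/-!
Characters on the section of a `p`-element.
-/

set_option autoImplicit false
set_option linter.style.haveILetI false
set_option linter.unusedSectionVars false

open scoped BigOperators Classical
open Pool.Agent.Helper884 Pool.Agent.H254R3.IN

noncomputable section

namespace Pool.Agent.N20

variable {G : Type} [Group G] [Fintype G]

lemma B_cut_int {p : ℕ} (hp : p.Prime) {χ ψ : G → ℂ} (hχ : IsIrr χ) (hψ : IsIrr ψ) :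
    ∃ n : ℤ, (p : ℂ) ^ (Nat.card G).factorization p * IC.B (cut p χ) ψ = n := by
  obtain ⟨n, hn⟩ := reg_int hp (virt_of_irr hχ) (virt_of_irr hψ)
    (Pool.Agent.R389.one_mem_pn (U := G))
  have h1 : Pool.Agent.W446.AS.pr (fun _ => (1 : ℂ))
      (fun g => if p ∣ orderOf g then 0 else ψ g * χ g⁻¹) = IC.B (cut p χ) ψ := by
    rw [Pool.Agent.W446.AS.pr_eq]
    unfold IC.B
    congr 1
    refine Finset.sum_congr rfl fun g _ => ?_
    rw [orderOf_inv, inv_inv]
    unfold cut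
    split_ifs <;> ring
  rw [h1] at hn
  exact ⟨n, hn⟩

/-- block orthogonality -/
theorem blk_orth {O : ValuationSubring ℂ} {p : ℕ} [hp : Fact p.Prime]
    (hpO : (p : ℂ) ∈ O.nonunits) {B : Set (G → ℂ)} (hB : IsBlock O B) {χ η : G → ℂ} (hχ : χ ∈ B)
    (hη : IsIrr η) (hηB : η ∉ B) : IC.B (cut p χ) η = 0 := by
  have hχi := hB.irr χ hχ
  have hcl : IsCl χ := fun g y => hχi.conj g y
  have hp0 : (p : ℂ) ≠ 0 := by exact_mod_cast hp.out.ne_zero
  -- the part outside the block vanishes on `p`-regular elements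
  have h1 : ∀ g, ¬ p ∣ orderOf g →
      ∑ φ ∈ (IC.Irr G).filter (· ∉ B), IC.B (cut p χ) φ * φ g = 0 := by
    intro g hg
    have h2 := congrFun (IC.expand (cut p χ) (cut_cl hcl)) g
    simp only [Finset.sum_apply, Pi.smul_apply, smul_eq_mul] at h2
    rw [← Finset.sum_filter_add_sum_filter_not (IC.Irr G) (· ∈ B)] at h2
    have h3 := cut_expand hpO hB hχ hg
    unfold XB at h3
    rw [h3, cut, if_neg hg] at h2
    have h4 : χ g + 0 = χ g + ∑ φ ∈ (IC.Irr G).filter (· ∉ B), IC.B (cut p χ) φ * φ g := by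
      rw [add_zero]
      exact h2
    exact (add_left_cancel h4).symm
  have h2 : ∑ φ ∈ (IC.Irr G).filter (· ∉ B), IC.B (cut p χ) φ * IC.B (cut p χ) φ = 0 := by
    have h3 : ∀ φ, IC.B (cut p χ) φ * IC.B (cut p χ) φ =
        (Nat.card G : ℂ)⁻¹ * ∑ g : G, IC.B (cut p χ) φ * φ g * cut p χ g⁻¹ := by
      intro φ
      conv_lhs => rw [IC.B_comm (cut p χ) φ]
      unfold IC.B
      simp only [Finset.mul_sum]
      refine Finset.sum_congr rfl fun g _ => ?_
      have h5 : (Nat.card G : ℂ)⁻¹ * ∑ g : G, φ g * cut p χ g⁻¹ =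
          (Nat.card G : ℂ)⁻¹ * ∑ g : G, cut p χ g * φ g⁻¹ := IC.B_comm φ (cut p χ)
      rw [Finset.mul_sum, Finset.mul_sum] at h5
      rw [← h5]
      ring
    rw [Finset.sum_congr rfl (fun φ _ => h3 φ), ← Finset.mul_sum, Finset.sum_comm]
    rw [Finset.sum_eq_zero, mul_zero]
    intro g _
    rw [← Finset.sum_mul]
    by_cases hg : p ∣ orderOf g
    · unfold cut
      rw [orderOf_inv, if_pos hg, mul_zero]
    · rw [h1 g hg, zero_mul]
  choose! n hn using fun φ (hφ : IsIrr φ) => B_cut_int hp.out hχi hφ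
  set a := (Nat.card G).factorization p
  have h3 : ∑ φ ∈ (IC.Irr G).filter (· ∉ B), n φ * n φ = 0 := by
    have h4 : ((∑ φ ∈ (IC.Irr G).filter (· ∉ B), n φ * n φ : ℤ) : ℂ) = 0 := by
      push_cast
      have h5 : ∀ φ ∈ (IC.Irr G).filter (· ∉ B), (n φ : ℂ) * n φ =
          (p : ℂ) ^ a * (p : ℂ) ^ a * (IC.B (cut p χ) φ * IC.B (cut p χ) φ) := by
        intro φ hφ
        rw [← hn φ (mem_Irr.mp (Finset.mem_filter.mp hφ).1)]
        ring
      rw [Finset.sum_congr rfl h5, ← Finset.mul_sum, h2, mul_zero]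
    exact_mod_cast h4
  rw [Finset.sum_eq_zero_iff_of_nonneg (fun _ _ => mul_self_nonneg _)] at h3
  have h4 := h3 η (Finset.mem_filter.mpr ⟨mem_Irr.mpr hη, hηB⟩)
  have h5 := hn η hη
  rw [mul_self_eq_zero.mp h4, Int.cast_zero] at h5
  exact (mul_eq_zero.mp h5).resolve_left (pow_ne_zero _ hp0)

/-- the centralizer of an element -/
abbrev CC (u : G) : Subgroup G := Subgroup.centralizer ({u} : Set G)

lemma mem_CC {u g : G} : g ∈ CC u ↔ u * g = g * u := by
  rw [Subgroup.mem_centralizer_iff]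
  simp only [Set.mem_singleton_iff, forall_eq]

/-- the element `u` of its centralizer -/
def uc (u : G) : CC u := ⟨u, mem_CC.mpr rfl⟩

lemma uc_comm (u : G) (h : CC u) : uc u * h = h * uc u := Subtype.ext (mem_CC.mp h.2)

lemma uc_pow (u : G) (t : ℕ) : (((uc u) ^ t : CC u) : G) = u ^ t := rfl

lemma central_scalar (u : G) {θ : CC u → ℂ} (hθ : IsIrr θ) :
    ∃ c : ℂ, c ^ orderOf u = 1 ∧ ∀ (t : ℕ) (h : CC u), θ ((uc u) ^ t * h) = c ^ t * θ h := by
  obtain ⟨V, _, _, _, ρ, hr, rfl⟩ := hθ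
  haveI := irr_nontrivial ρ hr
  obtain ⟨c, hc⟩ := schur ρ hr (ρ (uc u)) (by
    intro h v
    rw [← Module.End.mul_apply, ← Module.End.mul_apply, ← map_mul, ← map_mul, uc_comm])
  have hpow : ∀ t : ℕ, ρ ((uc u) ^ t) = c ^ t • (LinearMap.id : V →ₗ[ℂ] V) := by
    intro t
    induction t with
    | zero => simp; rfl
    | succ t ih =>
      rw [pow_succ, map_mul, ih, hc, pow_succ]
      ext v
      simp [smul_smul, mul_comm]
  refine ⟨c, ?_, ?_⟩
  · have h1 := hpow (orderOf u)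
    have h2 : (uc u) ^ orderOf u = 1 := Subtype.ext (pow_orderOf_eq_one u)
    rw [h2, map_one] at h1
    apply scalar_inj (V := V)
    rw [← h1, one_smul]
    rfl
  · intro t h
    change LinearMap.trace ℂ V (ρ ((uc u) ^ t * h)) = c ^ t * LinearMap.trace ℂ V (ρ h)
    rw [map_mul, hpow]
    have h3 : (c ^ t • (LinearMap.id : V →ₗ[ℂ] V)) * ρ h = c ^ t • ρ h := by
      ext v
      simp
    rw [h3, map_smul, smul_eq_mul]

/-- the scalar by which `u` acts -/
def cu (u : G) (θ : CC u → ℂ) : ℂ := if h : IsIrr θ then (central_scalar u h).choose else 1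

lemma cu_pow (u : G) {θ : CC u → ℂ} (hθ : IsIrr θ) : cu u θ ^ orderOf u = 1 := by
  rw [cu, dif_pos hθ]
  exact (central_scalar u hθ).choose_spec.1

lemma cu_val (u : G) {θ : CC u → ℂ} (hθ : IsIrr θ) (t : ℕ) (h : CC u) :
    θ ((uc u) ^ t * h) = cu u θ ^ t * θ h := by
  rw [cu, dif_pos hθ]
  exact (central_scalar u hθ).choose_spec.2 t h

/-- multiplicities in the restriction -/
def mm (u : G) (χ : G → ℂ) (θ : CC u → ℂ) : ℂ := IC.B (fun h : CC u => χ h) θ

lemma mm_int (u : G) {χ : G → ℂ} (hχ : IsIrr χ) {θ : CC u → ℂ} (hθ : IsIrr θ) :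
    ∃ n : ℤ, (n : ℂ) = mm u χ θ := by
  obtain ⟨n, hn⟩ := Pool.Agent.R389.Virt.pr_int' ((virt_of_irr hχ).comp (CC u).subtype)
    (virt_of_irr hθ)
  refine ⟨n, ?_⟩
  rw [← hn, Pool.Agent.W446.AS.pr_eq]
  rfl

lemma res_cl (u : G) {χ : G → ℂ} (hχ : IsIrr χ) : IsCl (fun h : CC u => χ h) := by
  intro g y
  exact hχ.conj (g : G) (y : G)

lemma val_section (u : G) {χ : G → ℂ} (hχ : IsIrr χ) (t : ℕ) (h : CC u) :
    χ (u ^ t * h) = ∑ θ ∈ IC.Irr (CC u), mm u χ θ * cu u θ ^ t * θ h := by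
  have h1 := congrFun (IC.expand (fun h : CC u => χ h) (res_cl u hχ)) ((uc u) ^ t * h)
  simp only [Finset.sum_apply, Pi.smul_apply, smul_eq_mul] at h1
  have h2 : (((uc u) ^ t * h : CC u) : G) = u ^ t * h := rfl
  rw [h2] at h1
  rw [h1]
  refine Finset.sum_congr rfl fun θ hθ => ?_
  rw [cu_val u (mem_Irr.mp hθ)]
  unfold mm
  ring

/-- the pairing of a class function of the centralizer with a character on the section of `u ^ t` -/
def JJ (p : ℕ) (u : G) (t : ℕ) (a : CC u → ℂ) (χ : G → ℂ) : ℂ :=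
  (Nat.card (CC u) : ℂ)⁻¹ * ∑ s : CC u, cut p a s⁻¹ * χ (u ^ t * s)

lemma JJ_eq {O : ValuationSubring ℂ} {p : ℕ} [hp : Fact p.Prime]
    (hpO : (p : ℂ) ∈ O.nonunits) (u : G) {b : Set (CC u → ℂ)} (hb : IsBlock O b)
    {θ : CC u → ℂ} (hθ : θ ∈ b) {χ : G → ℂ} (hχ : IsIrr χ) (t : ℕ) :
    JJ p u t θ χ = ∑ η ∈ XB b, mm u χ η * cu u η ^ t * IC.B (cut p θ) η := by
  unfold JJ
  have h1 : ∀ s : CC u, cut p θ s⁻¹ * χ (u ^ t * s) =
      ∑ η ∈ IC.Irr (CC u), mm u χ η * cu u η ^ t * (η s * cut p θ s⁻¹) := by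
    intro s
    rw [val_section u hχ, Finset.mul_sum]
    exact Finset.sum_congr rfl fun η _ => by ring
  rw [Finset.sum_congr rfl (fun s _ => h1 s), Finset.sum_comm, Finset.mul_sum]
  have h2 : ∀ η ∈ IC.Irr (CC u), (Nat.card (CC u) : ℂ)⁻¹ *
      ∑ s : CC u, mm u χ η * cu u η ^ t * (η s * cut p θ s⁻¹) =
      mm u χ η * cu u η ^ t * IC.B (cut p θ) η := by
    intro η _
    rw [← Finset.mul_sum, IC.B_comm (cut p θ) η]
    unfold IC.B
    ring
  rw [Finset.sum_congr rfl h2]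
  unfold XB
  rw [← Finset.sum_filter_add_sum_filter_not (IC.Irr (CC u)) (· ∈ b)]
  rw [Finset.sum_eq_zero (s := (IC.Irr (CC u)).filter (· ∉ b)), add_zero]
  intro η hη
  obtain ⟨h3, h4⟩ := Finset.mem_filter.mp hη
  rw [blk_orth hpO hb hθ (mem_Irr.mp h3) h4, mul_zero]

lemma CC_pow {p k t : ℕ} {u : G} (hu : orderOf u = p ^ k) (ht : Nat.Coprime t p) :
    CC (u ^ t) = CC u := by
  have hcop : Nat.Coprime t (orderOf u) := by
    rw [hu]
    exact Nat.Coprime.pow_right k ht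
  obtain ⟨m, hm⟩ := exists_pow_eq_self_of_coprime hcop
  ext g
  rw [mem_CC, mem_CC]
  constructor
  · intro h
    have h1 : Commute (u ^ t) g := h
    have h2 := h1.pow_left m
    rw [hm] at h2
    exact h2
  · intro h
    have h1 : Commute u g := h
    exact h1.pow_left t

/-- extension by zero to the group -/
def ex (p : ℕ) (u : G) (a : CC u → ℂ) (s : G) : ℂ :=
  if h : s ∈ CC u then cut p a ⟨s, h⟩ else 0

lemma ex_coe (p : ℕ) (u : G) (a : CC u → ℂ) (s : CC u) : ex p u a s = cut p a s := by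
  rw [ex, dif_pos s.2]

lemma sum_ex (p : ℕ) (u : G) (a : CC u → ℂ) (F : G → ℂ) :
    ∑ s : G, ex p u a s * F s = ∑ s : CC u, cut p a s * F s := by
  have h1 : ∑ s : CC u, cut p a s * F s =
      ∑ s ∈ Finset.univ.filter (fun s : G => s ∈ CC u), ex p u a s * F s := by
    symm
    calc ∑ s ∈ Finset.univ.filter (fun s : G => s ∈ CC u), ex p u a s * F s
        = ∑ s : CC u, ex p u a s * F s :=
          Finset.sum_subtype (Finset.univ.filter fun s : G => s ∈ CC u)
            (p := fun s => s ∈ CC u) (fun s => by simp) (fun s : G => ex p u a s * F s)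
      _ = ∑ s : CC u, cut p a s * F s := Fintype.sum_congr _ _ fun s => by rw [ex_coe]
  rw [h1, Finset.sum_filter]
  refine Finset.sum_congr rfl fun s _ => ?_
  by_cases h : s ∈ CC u
  · rw [if_pos h]
  · rw [if_neg h, ex, dif_neg h, zero_mul]

lemma cut_conj {p : ℕ} {H : Type} [Group H] {a : H → ℂ}
    (ha : ∀ s, (starRingEnd ℂ) (a s) = a s⁻¹) (s : H) :
    (starRingEnd ℂ) (cut p a s) = cut p a s⁻¹ := by
  unfold cut
  rw [orderOf_inv]
  split_ifs
  · exact map_zero _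
  · exact ha s

/-- **Orthogonality on the section.** -/
theorem sec_frame {p k : ℕ} [hp : Fact p.Prime] {u : G} (hu : orderOf u = p ^ k) {t : ℕ}
    (ht : Nat.Coprime t p) {a a' : CC u → ℂ}
    (ha : ∀ s, (starRingEnd ℂ) (a s) = a s⁻¹) (hcl' : IsCl a')
    (ha' : ∀ s, (starRingEnd ℂ) (a' s) = a' s⁻¹) :
    ∑ χ ∈ IC.Irr G, (starRingEnd ℂ) (JJ p u t a χ) * JJ p u t a' χ = IC.B (cut p a) a' := by
  have hH0 : (Nat.card (CC u) : ℂ) ≠ 0 := by exact_mod_cast Nat.card_pos.ne'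
  have hut : ∃ k', orderOf (u ^ t) = p ^ k' := by
    have h1 : orderOf (u ^ t) ∣ p ^ k := by rw [← hu]; exact orderOf_pow_dvd t
    obtain ⟨k', -, h2⟩ := (Nat.dvd_prime_pow hp.out).mp h1
    exact ⟨k', h2⟩
  obtain ⟨k', hk'⟩ := hut
  have hCC := CC_pow hu ht
  have hS : ∀ a : CC u → ℂ, Pool.Agent.Y62.Supp p (u ^ t) (ex p u a) := by
    intro a s hs
    by_cases h : s ∈ CC u
    · refine ⟨?_, ?_⟩
      · have h1 : Commute u s := mem_CC.mp h
        exact h1.pow_left t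
      · intro hdvd
        apply hs
        rw [ex, dif_pos h, cut, if_pos (by rwa [Subgroup.orderOf_mk])]
    · exact absurd (by rw [ex, dif_neg h]) hs
  have h1 := Pool.Agent.Y62.sec_orth hk' hk' (hS a) (hS a')
  have hav : ∀ (c : CC u → ℂ), (∀ s, (starRingEnd ℂ) (c s) = c s⁻¹) → ∀ χ,
      Pool.Agent.Y62.av (u ^ t) (ex p u c) χ =
        (Nat.card (CC u) : ℂ) * (starRingEnd ℂ) (JJ p u t c χ) := by
    intro c hc χ
    unfold Pool.Agent.Y62.av JJ
    rw [sum_ex p u c (fun s => (starRingEnd ℂ) (χ (u ^ t * s))), map_mul, map_inv₀,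
      Complex.conj_natCast, ← mul_assoc, mul_inv_cancel₀ hH0, one_mul, map_sum]
    refine Finset.sum_congr rfl fun s _ => ?_
    rw [map_mul, cut_conj hc, inv_inv]
  have h2 : ∑ χ ∈ IC.Irr G, Pool.Agent.Y62.av (u ^ t) (ex p u a) χ *
      (starRingEnd ℂ) (Pool.Agent.Y62.av (u ^ t) (ex p u a') χ) =
      (Nat.card (CC u) : ℂ) * (Nat.card (CC u) : ℂ) *
        ∑ χ ∈ IC.Irr G, (starRingEnd ℂ) (JJ p u t a χ) * JJ p u t a' χ := by
    rw [Finset.mul_sum]
    refine Finset.sum_congr rfl fun χ _ => ?_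
    rw [hav a ha, hav a' ha', map_mul, Complex.conj_natCast, Complex.conj_conj]
    ring
  rw [h2] at h1
  have h3 : ∀ x ∈ Finset.univ.filter (fun x : G => x⁻¹ * u ^ t * x = u ^ t),
      ∑ s : G, ex p u a s * (starRingEnd ℂ) (ex p u a' (x⁻¹ * s * x)) =
        (Nat.card (CC u) : ℂ) * IC.B (cut p a) a' := by
    intro x hx
    have hx' : x ∈ CC u := by
      rw [← hCC, mem_CC]
      have h4 := (Finset.mem_filter.mp hx).2
      have h5 := congrArg (fun z => x * z) h4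
      simpa [mul_assoc] using h5
    have h4 : ∀ s : G, ex p u a' (x⁻¹ * s * x) = ex p u a' s := by
      intro s
      by_cases hs : s ∈ CC u
      · have hs' : x⁻¹ * s * x ∈ CC u :=
          Subgroup.mul_mem _ (Subgroup.mul_mem _ (Subgroup.inv_mem _ hx') hs) hx'
        rw [ex, dif_pos hs', ex, dif_pos hs]
        have h6 : (⟨x⁻¹ * s * x, hs'⟩ : CC u) =
            (⟨x, hx'⟩ : CC u)⁻¹ * ⟨s, hs⟩ * ((⟨x, hx'⟩ : CC u)⁻¹)⁻¹ := by
          apply Subtype.ext
          simp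
        rw [h6, cut_cl hcl']
      · have hs' : x⁻¹ * s * x ∉ CC u := by
          intro h
          apply hs
          have := Subgroup.mul_mem _ (Subgroup.mul_mem _ hx' h) (Subgroup.inv_mem _ hx')
          simpa [mul_assoc] using this
        rw [ex, dif_neg hs', ex, dif_neg hs]
    simp only [h4]
    rw [sum_ex p u a (fun s => (starRingEnd ℂ) (ex p u a' s))]
    unfold IC.B
    rw [← mul_assoc, mul_inv_cancel₀ hH0, one_mul]
    refine Finset.sum_congr rfl fun s _ => ?_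
    rw [ex_coe, cut_conj ha']
    unfold cut
    rw [orderOf_inv]
    split_ifs
    · ring
    · rfl
  rw [Finset.sum_congr rfl h3, Finset.sum_const, nsmul_eq_mul] at h1
  have h4 : ((Finset.univ.filter (fun x : G => x⁻¹ * u ^ t * x = u ^ t)).card : ℂ) =
      (Nat.card (CC u) : ℂ) := by
    rw [← hCC, Nat.card_eq_fintype_card, ← Fintype.card_coe]
    congr 1
    refine Fintype.card_congr (Equiv.subtypeEquivRight fun x => ?_)
    rw [Finset.mem_filter, mem_CC]
    simp only [Finset.mem_univ, true_and]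
    constructor
    · intro h
      have h5 := congrArg (fun z => x * z) h
      simpa [mul_assoc] using h5
    · intro h
      rw [mul_assoc, h, inv_mul_cancel_left]
  rw [h4] at h1
  have h5 : (Nat.card (CC u) : ℂ) * (Nat.card (CC u) : ℂ) ≠ 0 := mul_ne_zero hH0 hH0
  apply mul_left_cancel₀ h5
  rw [h1]
  ring

end Pool.Agent.N20
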